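import Mathlib

/-!
# NP, polynomial time many-one reductions, NP-completeness, over Mathlib's `TM2` machines
-/

set_option autoImplicit false

namespace Pool.Agent.PT

open Turing Computability

/-- The class NP, for languages over a finite alphabet `Γ`: there are a polynomial `p` and a Boolean
verifier `R`, computable in polynomial time by a Turing machine (Mathlib's
`TM2ComputableInPolyTime`, on Mathlib's encoding of pairs of words), such that a word `x` is in `L`
iff some certificate `w ∈ {0,1}^*` of length at most `p(|x|)` satisfies `R (x, w)`. -/
def InNP {Γ : Type} (L : Set (List Γ)) : Prop :=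
  ∃ (p : Polynomial ℕ) (R : List Γ × List Bool → Bool),
    Nonempty (TM2ComputableInPolyTime (encodingProd (encodingList Γ) (encodingList Bool)).encode
      encodeBool R) ∧
    ∀ x : List Γ, x ∈ L ↔ ∃ w : List Bool, w.length ≤ p.eval x.length ∧ R (x, w) = true

/-- The function `f` on words is computable in polynomial time (Mathlib's Turing machines). -/
def PolyTime {Γ Δ : Type} (f : List Γ → List Δ) : Prop :=
  Nonempty (TM2ComputableInPolyTime (encodingList Γ).encode (encodingList Δ).encode f)

/-- Polynomial time many-one reducibility. -/
def PolyReducible {Γ Δ : Type} (L : Set (List Γ)) (L' : Set (List Δ)) : Prop :=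
  ∃ f : List Γ → List Δ, PolyTime f ∧ ∀ x, x ∈ L ↔ f x ∈ L'

/-- NP-hardness: every language in NP, over any finite alphabet, reduces to `L'`. -/
def NPHard {Δ : Type} (L' : Set (List Δ)) : Prop :=
  ∀ (Γ : Type) [Fintype Γ] (L : Set (List Γ)), InNP L → PolyReducible L L'

/-- NP-completeness. -/
def NPComplete {Δ : Type} (L : Set (List Δ)) : Prop := InNP L ∧ NPHard L

end Pool.Agent.PT
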