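import Mathlib

/-!
# Structured stack programs

Registers are indexed by natural numbers and hold words over an alphabet `A`. Programs are built
from push, pop with case distinction, sequencing, and loops that pop a register until it is empty.
-/

set_option autoImplicit false

namespace Pool.Agent.PT

/-- Structured programs on stacks over the alphabet `A`. -/
inductive Prog (A : Type) : Type
  | skip : Prog A
  | push (r : ℕ) (a : A) : Prog A
  | pop (r : ℕ) (p₀ : Prog A) (p₁ : A → Prog A) : Prog A
  | seq (p q : Prog A) : Prog A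
  | loop (r : ℕ) (p : A → Prog A) : Prog A

/-- Stores. -/
abbrev Store (A : Type) : Type := ℕ → List A

variable {A : Type}

open Function (update)

/-- Big-step semantics with exact cost. -/
inductive Exec : Prog A → Store A → Store A → ℕ → Prop
  | skip (s : Store A) : Exec Prog.skip s s 1
  | push (r : ℕ) (a : A) (s : Store A) : Exec (Prog.push r a) s (update s r (a :: s r)) 1
  | popNil {r : ℕ} {p₀ : Prog A} {p₁ : A → Prog A} {s s' : Store A} {t : ℕ} (h : s r = [])
      (he : Exec p₀ s s' t) : Exec (Prog.pop r p₀ p₁) s s' (t + 1)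
  | popCons {r : ℕ} {p₀ : Prog A} {p₁ : A → Prog A} {s s' : Store A} {t : ℕ} {a : A} {l : List A}
      (h : s r = a :: l) (he : Exec (p₁ a) (update s r l) s' t) :
      Exec (Prog.pop r p₀ p₁) s s' (t + 1)
  | seq {p q : Prog A} {s s' s'' : Store A} {t t' : ℕ} (h : Exec p s s' t) (h' : Exec q s' s'' t') :
      Exec (Prog.seq p q) s s'' (t + t')
  | loopNil {r : ℕ} {p : A → Prog A} {s : Store A} (h : s r = []) :
      Exec (Prog.loop r p) s s 1
  | loopCons {r : ℕ} {p : A → Prog A} {s s' s'' : Store A} {t t' : ℕ} {a : A} {l : List A}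
      (h : s r = a :: l) (h1 : Exec (p a) (update s r l) s' t)
      (h2 : Exec (Prog.loop r p) s' s'' t') : Exec (Prog.loop r p) s s'' (t + t' + 1)

/-- Execution within a time bound. -/
def Runs (p : Prog A) (s s' : Store A) (T : ℕ) : Prop := ∃ t, t ≤ T ∧ Exec p s s' t

theorem Runs.mono {p : Prog A} {s s' : Store A} {T T' : ℕ} (h : Runs p s s' T) (hT : T ≤ T') :
    Runs p s s' T' := by
  obtain ⟨t, ht, he⟩ := h
  exact ⟨t, ht.trans hT, he⟩

theorem Runs.conv {p : Prog A} {s s' s'' : Store A} {T T' : ℕ} (h : Runs p s s' T)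
    (hs : s'' = s') (hT : T ≤ T') : Runs p s s'' T' := by
  rw [hs]; exact h.mono hT

theorem Runs.skip (s : Store A) : Runs Prog.skip s s 1 := ⟨1, le_rfl, Exec.skip s⟩

theorem Runs.push (r : ℕ) (a : A) (s : Store A) :
    Runs (Prog.push r a) s (update s r (a :: s r)) 1 := ⟨1, le_rfl, Exec.push r a s⟩

theorem Runs.seq {p q : Prog A} {s s' s'' : Store A} {T T' : ℕ} (h : Runs p s s' T)
    (h' : Runs q s' s'' T') : Runs (Prog.seq p q) s s'' (T + T') := by
  obtain ⟨t, ht, he⟩ := h
  obtain ⟨t', ht', he'⟩ := h'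
  exact ⟨t + t', by omega, Exec.seq he he'⟩

theorem Runs.popNil {r : ℕ} {p₀ : Prog A} {p₁ : A → Prog A} {s s' : Store A} {T : ℕ}
    (h : s r = []) (he : Runs p₀ s s' T) : Runs (Prog.pop r p₀ p₁) s s' (T + 1) := by
  obtain ⟨t, ht, he⟩ := he
  exact ⟨t + 1, by omega, Exec.popNil h he⟩

theorem Runs.popCons {r : ℕ} {p₀ : Prog A} {p₁ : A → Prog A} {s s' : Store A} {T : ℕ} {a : A}
    {l : List A} (h : s r = a :: l) (he : Runs (p₁ a) (update s r l) s' T) :
    Runs (Prog.pop r p₀ p₁) s s' (T + 1) := by
  obtain ⟨t, ht, he⟩ := he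
  exact ⟨t + 1, by omega, Exec.popCons h he⟩

theorem Runs.loopNil {r : ℕ} {p : A → Prog A} {s : Store A} (h : s r = []) :
    Runs (Prog.loop r p) s s 1 := ⟨1, le_rfl, Exec.loopNil h⟩

theorem Runs.loopCons {r : ℕ} {p : A → Prog A} {s s' s'' : Store A} {T T' : ℕ} {a : A}
    {l : List A} (h : s r = a :: l) (h1 : Runs (p a) (update s r l) s' T)
    (h2 : Runs (Prog.loop r p) s' s'' T') : Runs (Prog.loop r p) s s'' (T + T' + 1) := by
  obtain ⟨t, ht, he⟩ := h1
  obtain ⟨t', ht', he'⟩ := h2
  exact ⟨t + t' + 1, by omega, Exec.loopCons h he he'⟩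

/-- Moving register `r` onto register `r'` (the word is reversed). -/
def mv (r r' : ℕ) : Prog A := Prog.loop r (fun a => Prog.push r' a)

theorem runs_mv (r r' : ℕ) (hr : r ≠ r') : ∀ (l : List A) (s : Store A), s r = l →
    Runs (mv r r') s (update (update s r []) r' (l.reverse ++ s r')) (2 * l.length + 1)
  | [], s, hs => by
    refine (Runs.loopNil hs).conv ?_ (by simp)
    funext i
    by_cases h1 : i = r'
    · subst h1; simp
    · by_cases h2 : i = r
      · subst h2; simp [h1, hs]
      · simp [h1, h2]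
  | a :: l, s, hs => by
    set s1 : Store A := update s r l with hs1
    set s2 : Store A := update s1 r' (a :: s1 r') with hs2
    have h1 : Runs (Prog.push r' a) s1 s2 1 := Runs.push r' a s1
    have hs2r : s2 r = l := by simp [hs2, hs1, hr]
    have h2 := runs_mv r r' hr l s2 hs2r
    have h3 := Runs.loopCons (p := fun a => Prog.push r' a) hs h1 h2
    refine h3.conv ?_ (by simp; omega)
    funext i
    by_cases h4 : i = r'
    · subst h4; simp [hs2, hs1, hr.symm]
    · by_cases h5 : i = r
      · subst h5; simp [hs2, hs1, h4]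
      · simp [hs2, hs1, h4, h5]

/-- Emptying a register. -/
def clear (r : ℕ) : Prog A := Prog.loop r (fun _ => Prog.skip)

theorem runs_clear (r : ℕ) : ∀ (l : List A) (s : Store A), s r = l →
    Runs (clear r) s (update s r []) (2 * l.length + 1)
  | [], s, hs => by
    refine (Runs.loopNil hs).conv ?_ (by simp)
    funext i
    by_cases h1 : i = r
    · subst h1; simp [hs]
    · simp [h1]
  | a :: l, s, hs => by
    have h1 : Runs Prog.skip (update s r l) (update s r l) 1 := Runs.skip _
    have h2 := runs_clear r l (update s r l) (by simp)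
    have h3 := Runs.loopCons (p := fun _ => Prog.skip) hs h1 h2
    refine h3.conv ?_ (by simp; omega)
    simp

/-- Moving `r` onto both `r'` and `r''`. -/
def mv2 (r r' r'' : ℕ) : Prog A :=
  Prog.loop r (fun a => Prog.seq (Prog.push r' a) (Prog.push r'' a))

theorem runs_mv2 (r r' r'' : ℕ) (h1 : r ≠ r') (h2 : r ≠ r'') (h3 : r' ≠ r'') :
    ∀ (l : List A) (s : Store A), s r = l →
    Runs (mv2 r r' r'') s (update (update (update s r []) r' (l.reverse ++ s r')) r''
      (l.reverse ++ s r'')) (3 * l.length + 1)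
  | [], s, hs => by
    refine (Runs.loopNil hs).conv ?_ (by simp)
    funext i
    by_cases e1 : i = r''
    · subst e1; simp
    · by_cases e2 : i = r'
      · subst e2; simp [e1]
      · by_cases e3 : i = r
        · subst e3; simp [e1, e2, hs]
        · simp [e1, e2, e3]
  | a :: l, s, hs => by
    set s1 : Store A := update s r l with hs1
    set s2 : Store A := update s1 r' (a :: s1 r') with hs2
    set s3 : Store A := update s2 r'' (a :: s2 r'') with hs3
    have g1 : Runs (Prog.seq (Prog.push r' a) (Prog.push r'' a)) s1 s3 2 :=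
      (Runs.push r' a s1).seq (Runs.push r'' a s2)
    have hs3r : s3 r = l := by simp [hs3, hs2, hs1, h1, h2]
    have g2 := runs_mv2 r r' r'' h1 h2 h3 l s3 hs3r
    have g3 := Runs.loopCons (p := fun a => Prog.seq (Prog.push r' a) (Prog.push r'' a)) hs g1 g2
    refine g3.conv ?_ (by simp; omega)
    funext i
    by_cases e1 : i = r''
    · subst e1; simp [hs3, hs2, hs1, h2.symm, h3.symm]
    · by_cases e2 : i = r'
      · subst e2; simp [hs3, hs2, hs1, e1, h1.symm]
      · by_cases e3 : i = r
        · subst e3; simp [hs3, hs2, hs1, e1, e2]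
        · simp [hs3, hs2, hs1, e1, e2, e3]

/-- The word of `n` marks. -/
def un (u : A) (n : ℕ) : List A := List.replicate n u

@[simp] theorem un_zero (u : A) : un u 0 = [] := rfl
@[simp] theorem un_length (u : A) (n : ℕ) : (un u n).length = n := by simp [un]
@[simp] theorem un_reverse (u : A) (n : ℕ) : (un u n).reverse = un u n := by simp [un]
theorem un_succ (u : A) (n : ℕ) : un u (n + 1) = u :: un u n := rfl
@[simp] theorem un_append (u : A) (m n : ℕ) : un u m ++ un u n = un u (m + n) := by
  simp [un, List.replicate_append_replicate]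

/-- Adding a copy of the unary register `r` to `r'` with scratch register `r''`. -/
def cp (r r' r'' : ℕ) : Prog A := Prog.seq (mv2 r r' r'') (mv r'' r)

theorem runs_cp (u : A) (r r' r'' : ℕ) (h1 : r ≠ r') (h2 : r ≠ r'') (h3 : r' ≠ r'') (n m : ℕ)
    (s : Store A) (hr : s r = un u n) (hr' : s r' = un u m) (hr'' : s r'' = []) :
    Runs (cp r r' r'') s (update s r' (un u (m + n))) (5 * n + 2) := by
  have g1 := runs_mv2 r r' r'' h1 h2 h3 (un u n) s hr
  set s1 := update (update (update s r []) r' ((un u n).reverse ++ s r')) r''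
      ((un u n).reverse ++ s r'') with hs1
  have hs1r : s1 r'' = un u n := by simp [hs1, hr'']
  have g2 := runs_mv r'' r h2.symm (un u n) s1 hs1r
  refine (g1.seq g2).conv ?_ (by simp; omega)
  funext i
  by_cases e1 : i = r
  · subst e1; simp [hs1, h1, h2, hr]
  · by_cases e2 : i = r''
    · subst e2; simp [e1, h3.symm, hr'']
    · by_cases e3 : i = r'
      · subst e3; simp [hs1, e1, e2, hr', Nat.add_comm]
      · simp [hs1, e1, e2, e3]

/-- Iterating a loop over a unary register: the body transforms the store `f (k+1)` (with one mark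
removed) into `f k`. -/
theorem runs_loop_un (u : A) (r : ℕ) (p : A → Prog A) (f : ℕ → Store A) (T : ℕ)
    (hf : ∀ k, f k r = un u k) :
    ∀ n, (∀ k, k < n → Runs (p u) (update (f (k + 1)) r (un u k)) (f k) T) →
      Runs (Prog.loop r p) (f n) (f 0) (n * (T + 1) + 1)
  | 0, _ => by
    refine (Runs.loopNil (by rw [hf]; rfl)).mono (by simp)
  | n + 1, h => by
    have h1 := h n (Nat.lt_succ_self n)
    have h2 := runs_loop_un u r p f T hf n (fun k hk => h k (by omega))
    have h3 := Runs.loopCons (p := p) (by rw [hf, un_succ]) h1 h2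
    refine h3.mono ?_
    have : (n + 1) * (T + 1) = n * (T + 1) + (T + 1) := by ring
    omega

end Pool.Agent.PT
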