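import Mathlib
import Pool.Agent.PT.Prog

/-!
# A term language for polynomial time functions with small values, and its compilation

Terms denote functions of an input word and finitely many (de Bruijn) variables with values in
`ℕ`; values are polynomially bounded and are kept in unary.
-/

set_option autoImplicit false

namespace Pool.Agent.PT

open Function (update)

/-! ### Polynomially bounded functions -/

/-- Monotone and polynomially bounded. -/
def PB (T : ℕ → ℕ) : Prop := Monotone T ∧ ∃ c, ∀ N, T N ≤ (N + 2) ^ c

theorem PB.const (k : ℕ) : PB (fun _ => k) :=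
  ⟨fun _ _ _ => le_rfl, k, fun N => (Nat.lt_pow_self (by omega : 1 < N + 2)).le⟩

theorem PB.id : PB (fun N => N) := ⟨fun _ _ h => h, 1, fun N => by simp⟩

theorem PB.add {S T : ℕ → ℕ} (hS : PB S) (hT : PB T) : PB (fun N => S N + T N) := by
  obtain ⟨mS, c, hc⟩ := hS
  obtain ⟨mT, d, hd⟩ := hT
  refine ⟨fun a b h => Nat.add_le_add (mS h) (mT h), c + d + 1, fun N => ?_⟩
  have h1 : (N + 2) ^ c ≤ (N + 2) ^ (c + d) := Nat.pow_le_pow_right (by omega) (by omega)
  have h2 : (N + 2) ^ d ≤ (N + 2) ^ (c + d) := Nat.pow_le_pow_right (by omega) (by omega)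
  have h3 : (N + 2) ^ (c + d + 1) = (N + 2) ^ (c + d) * (N + 2) := pow_succ _ _
  have h4 : (N + 2) ^ (c + d) * 2 ≤ (N + 2) ^ (c + d) * (N + 2) :=
    Nat.mul_le_mul_left _ (by omega)
  have := hc N
  have := hd N
  change S N + T N ≤ _
  omega

theorem PB.mul {S T : ℕ → ℕ} (hS : PB S) (hT : PB T) : PB (fun N => S N * T N) := by
  obtain ⟨mS, c, hc⟩ := hS
  obtain ⟨mT, d, hd⟩ := hT
  refine ⟨fun a b h => Nat.mul_le_mul (mS h) (mT h), c + d, fun N => ?_⟩
  rw [pow_add]
  exact Nat.mul_le_mul (hc N) (hd N)

theorem PB.comp {S T : ℕ → ℕ} (hS : PB S) (hT : PB T) : PB (fun N => S (T N)) := by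
  obtain ⟨mS, c, hc⟩ := hS
  obtain ⟨mT, d, hd⟩ := hT
  refine ⟨fun a b h => mS (mT h), (d + 2) * c, fun N => (hc _).trans ?_⟩
  rw [pow_mul]
  refine Nat.pow_le_pow_left ?_ c
  have h1 : (N + 2) ^ (d + 2) = (N + 2) ^ d * ((N + 2) * (N + 2)) := by ring
  have h2 : 1 ≤ (N + 2) ^ d := Nat.one_le_pow _ _ (by omega)
  have h3 := hd N
  have h4 : (N + 2) ^ d * 4 ≤ (N + 2) ^ d * ((N + 2) * (N + 2)) :=
    Nat.mul_le_mul_left _ (by nlinarith)
  change T N + 2 ≤ _
  omega

/-- Polynomial bounds as polynomials. -/
theorem PB.toPoly {T : ℕ → ℕ} (hT : PB T) : ∃ P : Polynomial ℕ, ∀ N, T N ≤ P.eval N := by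
  obtain ⟨_, c, hc⟩ := hT
  refine ⟨(Polynomial.X + 2) ^ c, fun N => ?_⟩
  simpa using hc N

theorem PB.ofPoly (P : Polynomial ℕ) : PB (fun N => P.eval N) := by
  induction P using Polynomial.induction_on with
  | C a => simpa using PB.const a
  | add p q hp hq => simpa using hp.add hq
  | monomial n a h =>
    have : (fun N => (Polynomial.C a * Polynomial.X ^ (n + 1) : Polynomial ℕ).eval N) =
        fun N => (Polynomial.C a * Polynomial.X ^ n : Polynomial ℕ).eval N * N := by
      funext N
      simp [pow_succ, mul_assoc]
    rw [this]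
    exact h.mul PB.id

/-! ### Terms -/

/-- Terms. -/
inductive Tm (Γ : Type) : Type
  | var (i : ℕ) : Tm Γ
  | const (c : ℕ) : Tm Γ
  | len : Tm Γ
  | sym (a : Γ) (t : Tm Γ) : Tm Γ
  | add (s t : Tm Γ) : Tm Γ
  | sub (s t : Tm Γ) : Tm Γ
  | sum (b t : Tm Γ) : Tm Γ
  | lett (s t : Tm Γ) : Tm Γ
  | ren (σ : ℕ → ℕ) (t : Tm Γ) : Tm Γ

/-- Extending an environment. -/
def cons (i : ℕ) (e : ℕ → ℕ) : ℕ → ℕ
  | 0 => i
  | n + 1 => e n

@[simp] theorem cons_zero (i : ℕ) (e : ℕ → ℕ) : cons i e 0 = i := rfl
@[simp] theorem cons_succ (i : ℕ) (e : ℕ → ℕ) (n : ℕ) : cons i e (n + 1) = e n := rfl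

variable {Γ : Type}

open Classical in
/-- Denotation of terms. -/
noncomputable def Tm.eval (x : List Γ) : Tm Γ → (ℕ → ℕ) → ℕ
  | .var i, e => e i
  | .const c, _ => c
  | .len, _ => x.length
  | .sym a t, e => if x[t.eval x e]? = some a then 1 else 0
  | .add s t, e => s.eval x e + t.eval x e
  | .sub s t, e => s.eval x e - t.eval x e
  | .sum b t, e => ∑ i ∈ Finset.range (b.eval x e), t.eval x (cons i e)
  | .lett s t, e => t.eval x (cons (s.eval x e) e)
  | .ren σ t, e => t.eval x (fun i => e (σ i))

variable {A : Type}

/-- Pushing several marks. -/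
def pushN (r : ℕ) (u : A) : ℕ → Prog A
  | 0 => Prog.skip
  | n + 1 => Prog.seq (Prog.push r u) (pushN r u n)

theorem runs_pushN (r : ℕ) (u : A) : ∀ (n m : ℕ) (s : Store A), s r = un u m →
    Runs (pushN r u n) s (update s r (un u (m + n))) (n + 1)
  | 0, m, s, hs => by
    refine (Runs.skip s).conv ?_ (by simp)
    simp [← hs]
  | n + 1, m, s, hs => by
    have h1 := Runs.push r u s
    have h2 := runs_pushN r u n (m + 1) (update s r (u :: s r)) (by simp [hs, un_succ])
    refine (h1.seq h2).conv ?_ (by omega)
    simp only [Function.update_idem]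
    congr 2
    omega

open Classical in
/-- Restoring the input. -/
noncomputable def symP (g : Γ → A) (u : A) (a : Γ) (o : ℕ) : Prog A :=
  Prog.seq (Prog.loop (o + 1) (fun _ => Prog.pop 0 Prog.skip (fun b => Prog.push 1 b)))
    (Prog.seq (Prog.pop 0 Prog.skip
      (fun b => if b = g a then Prog.seq (Prog.push 0 b) (Prog.push o u) else Prog.push 0 b))
      (mv 1 0))

/-- Compilation. The input word is in register 0, register 1 is a scratch register, registers from
`o` on are empty, the value is produced in register `o`; variable `i` is in register `ρ i`. -/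
noncomputable def Tm.comp (g : Γ → A) (u : A) : Tm Γ → (ρ : ℕ → ℕ) → (o : ℕ) → Prog A
  | .var i, ρ, o => cp (ρ i) o 1
  | .const c, _, o => pushN o u c
  | .len, _, o => Prog.seq (Prog.loop 0 (fun a => Prog.seq (Prog.push 1 a) (Prog.push o u))) (mv 1 0)
  | .sym a t, ρ, o => Prog.seq (t.comp g u ρ (o + 1)) (symP g u a o)
  | .add s t, ρ, o => Prog.seq (s.comp g u ρ o) (Prog.seq (t.comp g u ρ (o + 1)) (mv (o + 1) o))
  | .sub s t, ρ, o => Prog.seq (s.comp g u ρ o) (Prog.seq (t.comp g u ρ (o + 1))
      (Prog.loop (o + 1) (fun _ => Prog.pop o Prog.skip (fun _ => Prog.skip))))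
  | .sum b t, ρ, o => Prog.seq (b.comp g u ρ (o + 1))
      (Prog.loop (o + 1) (fun _ => Prog.seq (t.comp g u (fun i => Nat.casesOn i (o + 1) ρ) (o + 2))
        (mv (o + 2) o)))
  | .lett s t, ρ, o => Prog.seq (s.comp g u ρ (o + 1))
      (Prog.seq (t.comp g u (fun i => Nat.casesOn i (o + 1) ρ) (o + 2))
        (Prog.seq (mv (o + 2) o) (clear (o + 1))))
  | .ren σ t, ρ, o => t.comp g u (fun i => ρ (σ i)) o

/-- The stores on which compiled terms are run: the input and the variables. -/
structure Vars (g : Γ → A) (u : A) (x : List Γ) (e : ℕ → ℕ) (ρ : ℕ → ℕ) (o : ℕ) (s : Store A) :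
    Prop where
  input : s 0 = x.map g
  scratch : s 1 = []
  two_le : ∀ i, 2 ≤ ρ i
  lt : ∀ i, ρ i < o
  vars : ∀ i, s (ρ i) = un u (e i)

/-- The stores on which compiled terms are run. -/
structure Good (g : Γ → A) (u : A) (x : List Γ) (e : ℕ → ℕ) (ρ : ℕ → ℕ) (o : ℕ) (s : Store A) :
    Prop extends Vars g u x e ρ o s where
  temps : ∀ j, o ≤ j → s j = []

theorem Vars.mono {g : Γ → A} {u : A} {x : List Γ} {e : ℕ → ℕ} {ρ : ℕ → ℕ} {o o' : ℕ}
    {s : Store A} (h : Vars g u x e ρ o s) (ho : o ≤ o') : Vars g u x e ρ o' s :=
  ⟨h.input, h.scratch, h.two_le, fun i => (h.lt i).trans_le ho, h.vars⟩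

theorem Vars.two_lt {g : Γ → A} {u : A} {x : List Γ} {e : ℕ → ℕ} {ρ : ℕ → ℕ} {o : ℕ}
    {s : Store A} (h : Vars g u x e ρ o s) : 2 < o := (h.two_le 0).trans_lt (h.lt 0)

/-- Changing a register which is no variable. -/
theorem Vars.update {g : Γ → A} {u : A} {x : List Γ} {e : ℕ → ℕ} {ρ : ℕ → ℕ} {o r : ℕ}
    {s : Store A} (h : Vars g u x e ρ o s) (hr : o ≤ r) (l : List A) :
    Vars g u x e ρ o (update s r l) := by
  have h2 := h.two_lt
  refine ⟨?_, ?_, h.two_le, h.lt, fun i => ?_⟩
  · rw [Function.update_of_ne (by omega)]; exact h.input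
  · rw [Function.update_of_ne (by omega)]; exact h.scratch
  · have := h.lt i
    rw [Function.update_of_ne (by omega)]; exact h.vars i

/-- Adding a variable. -/
theorem Vars.cons {g : Γ → A} {u : A} {x : List Γ} {e : ℕ → ℕ} {ρ : ℕ → ℕ} {o r : ℕ}
    {s : Store A} (h : Vars g u x e ρ o s) (hr : 2 ≤ r) (hr' : r < o) {k : ℕ}
    (hk : s r = un u k) : Vars g u x (cons k e) (fun i => Nat.casesOn i r ρ) o s := by
  refine ⟨h.input, h.scratch, fun i => ?_, fun i => ?_, fun i => ?_⟩
  · cases i
    · exact hr
    · exact h.two_le _
  · cases i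
    · exact hr'
    · exact h.lt _
  · cases i
    · exact hk
    · exact h.vars _

/-- The invariant of walking along the input. -/
theorem runs_walk (g : Γ → A) (u : A) (x : List Γ) (o : ℕ) (ho : 2 < o) :
    ∀ (n : ℕ) (y z : List Γ) (s : Store A), x = y.reverse ++ z → s 0 = z.map g →
      s 1 = y.map g → s (o + 1) = un u n →
      ∃ y' z' : List Γ, x = y'.reverse ++ z' ∧ y'.length = min (y.length + n) x.length ∧
        Runs (Prog.loop (o + 1) (fun _ => Prog.pop 0 Prog.skip (fun b => Prog.push 1 b))) s
          (update (update (update s 0 (z'.map g)) 1 (y'.map g)) (o + 1) []) (3 * n + 1)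
  | 0, y, z, s, hx, h0, h1, h2 => by
    have e12 : o ≠ 0 := by omega
    refine ⟨y, z, hx, ?_, ?_⟩
    · rw [hx]; simp
    · refine (Runs.loopNil h2).conv ?_ (by simp)
      funext i
      by_cases e1 : i = o + 1
      · subst e1; simp [h2]
      · by_cases e2 : i = 1
        · subst e2; simp [h1, e12]
        · by_cases e3 : i = 0
          · subst e3; simp [h0]
          · simp [e1, e2, e3]
  | n + 1, y, [], s, hx, h0, h1, h2 => by
    have e12 : o ≠ 0 := by omega
    obtain ⟨y', z', g1, g2, g3⟩ := runs_walk g u x o ho n y [] (update s (o + 1) (un u n)) hx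
      (by rw [Function.update_of_ne (by omega)]; exact h0)
      (by rw [Function.update_of_ne (by omega)]; exact h1) (by simp)
    refine ⟨y', z', g1, ?_, ?_⟩
    · rw [g2]
      have : x.length = y.length := by rw [hx]; simp
      omega
    · have h3 : Runs (Prog.pop 0 Prog.skip (fun b => Prog.push 1 b))
          (update s (o + 1) (un u n)) (update s (o + 1) (un u n)) 2 :=
        Runs.popNil (by rw [Function.update_of_ne (by omega)]; exact h0) (Runs.skip _)
      refine (Runs.loopCons (p := fun _ => Prog.pop 0 Prog.skip (fun b => Prog.push 1 b)) h2 h3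
        g3).conv ?_ (by omega)
      funext i
      by_cases e1 : i = o + 1
      · subst e1; simp
      · by_cases e2 : i = 1
        · subst e2; simp [e12]
        · by_cases e3 : i = 0
          · subst e3; simp
          · simp [e1, e2, e3]
  | n + 1, y, b :: z, s, hx, h0, h1, h2 => by
    have e12 : o ≠ 0 := by omega
    set s1 := update s (o + 1) (un u n) with hs1
    set s2 := update s1 0 (z.map g) with hs2
    set s3 := update s2 1 (g b :: s2 1) with hs3
    obtain ⟨y', z', g1, g2, g3⟩ := runs_walk g u x o ho n (b :: y) z s3 (by rw [hx]; simp)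
      (by simp [hs3, hs2])
      (by simp [hs3, hs2, hs1, h1, e12])
      (by simp [hs3, hs2, hs1, e12])
    refine ⟨y', z', g1, ?_, ?_⟩
    · rw [g2]
      simp
      omega
    · have h4 : s1 0 = (b :: z).map g := by
        rw [hs1, Function.update_of_ne (by omega)]; exact h0
      have h3 : Runs (Prog.pop 0 Prog.skip (fun b => Prog.push 1 b)) s1 s3 2 :=
        Runs.popCons h4 (Runs.push 1 (g b) s2)
      refine (Runs.loopCons (p := fun _ => Prog.pop 0 Prog.skip (fun b => Prog.push 1 b)) h2 h3
        g3).conv ?_ (by omega)
      funext i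
      by_cases e1 : i = o + 1
      · subst e1; simp
      · by_cases e2 : i = 1
        · subst e2; simp [e12]
        · by_cases e3 : i = 0
          · subst e3; simp
          · simp [e1, e2, e3, hs3, hs2, hs1]

theorem runs_symP (g : Γ → A) (hg : Function.Injective g) (u : A) (x : List Γ) (o n : ℕ)
    (ho : 2 < o) (a : Γ) (s : Store A) (h0 : s 0 = x.map g) (h1 : s 1 = []) (h2 : s o = [])
    (h3 : s (o + 1) = un u n) :
    Runs (symP g u a o) s (update (update s (o + 1) []) o
      (un u (open Classical in if x[n]? = some a then 1 else 0))) (3 * n + 2 * x.length + 5) := by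
  classical
  obtain ⟨y, z, g1, g2, g3⟩ := runs_walk g u x o ho n [] x s (by simp) h0 (by simpa using h1) h3
  set s1 := update (update (update s 0 (z.map g)) 1 (y.map g)) (o + 1) [] with hs1
  have e10 : (1 : ℕ) ≠ o + 1 := by omega
  have e11 : (0 : ℕ) ≠ o + 1 := by omega
  have e12 : o ≠ 0 := by omega
  have e13 : o ≠ 1 := by omega
  have hs10 : s1 0 = z.map g := by simp [hs1]
  have hs11 : s1 1 = y.map g := by simp [hs1, e12]
  have hylen : y.length ≤ x.length := by rw [g2]; omega
  have hmv : ∀ s' : Store A, s' 0 = z.map g → s' 1 = y.map g →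
      Runs (mv 1 0) s' (update (update s' 1 []) 0 (x.map g)) (2 * x.length + 1) := by
    intro s' hs0 hs1'
    have := runs_mv 1 0 (by decide) (y.map g) s' hs1'
    refine this.conv ?_ (by simp; omega)
    congr 1
    rw [hs0, g1]
    simp [List.map_reverse]
  -- the symbol at position n
  have hz : x[n]? = z[n - y.length]? := by
    rw [g1]
    have : y.reverse.length ≤ n ∨ z = [] := by
      simp only [List.length_nil, zero_add] at g2
      by_cases hn : n ≤ x.length
      · left; rw [List.length_reverse, g2]; omega
      · right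
        have h5 : x.length = y.length + z.length := by
          rw [g1]; simp
        have : z.length = 0 := by omega
        exact List.length_eq_zero_iff.1 this
    rcases this with h | h
    · rw [List.getElem?_append_right h]
      simp
    · subst h
      simp only [List.append_nil, List.getElem?_nil]
      have h5 : x.length = y.length := by rw [g1]; simp
      apply List.getElem?_eq_none
      rw [List.length_reverse]
      simp only [List.length_nil, zero_add] at g2
      omega
  unfold symP
  have hfin : ∀ k : ℕ, update (update (update s1 o (un u k)) 1 []) 0 (x.map g) =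
      update (update s (o + 1) []) o (un u k) := by
    intro k
    funext i
    by_cases e1 : i = 0
    · subst e1; simp [h0, Ne.symm e12]
    · by_cases e2 : i = 1
      · subst e2; simp [h1, Ne.symm e13, e12]
      · by_cases e3 : i = o
        · subst e3; simp [e12, e13]
        · by_cases e4 : i = o + 1
          · subst e4; simp [hs1, e12]
          · simp [e1, e2, e3, e4, hs1]
  rcases z with _ | ⟨b, z⟩
  · -- end of the word
    have h4 : Runs (Prog.pop 0 Prog.skip
      (fun b => if b = g a then Prog.seq (Prog.push 0 b) (Prog.push o u) else Prog.push 0 b)) s1 s1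
      2 := Runs.popNil hs10 (Runs.skip _)
    have h5 := hmv s1 hs10 hs11
    refine (g3.seq (h4.seq h5)).conv ?_ (by omega)
    rw [hz]
    simp only [List.getElem?_nil, reduceCtorEq, if_false]
    rw [← hfin 0]
    congr 2
    funext i
    by_cases e3 : i = o
    · subst e3; simp [hs1, e12, e13, h2]
    · simp [e3]
  · have hny : n - y.length = 0 := by
      have h5 : x.length = y.length + (b :: z).length := by
        rw [g1]; simp
      simp only [List.length_nil, zero_add, List.length_cons] at g2 h5
      omega
    have hz' : x[n]? = some b := by rw [hz, hny]; rfl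
    rw [hz']
    set s2 := update s1 0 (z.map g) with hs2
    by_cases hb : b = a
    · subst hb
      set s3 := update s2 0 (g b :: s2 0) with hs3
      set s4 := update s3 o (u :: s3 o) with hs4
      have h6 : Runs (if g b = g b then Prog.seq (Prog.push 0 (g b)) (Prog.push o u)
          else Prog.push 0 (g b)) s2 s4 2 := by
        rw [if_pos rfl]
        exact (Runs.push 0 (g b) s2).seq (Runs.push o u s3)
      have h4 : Runs (Prog.pop 0 Prog.skip
          (fun c => if c = g b then Prog.seq (Prog.push 0 c) (Prog.push o u) else Prog.push 0 c)) s1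
          s4 3 := Runs.popCons hs10 h6
      have h5 := hmv s4 (by simp [hs4, hs3, hs2, Ne.symm e12])
        (by simp [hs4, hs3, hs2, Ne.symm e13, hs11])
      refine (g3.seq (h4.seq h5)).conv ?_ (by omega)
      simp only [if_true]
      rw [← hfin 1]
      congr 2
      funext i
      by_cases e3 : i = o
      · subst e3; simp [hs4, hs3, hs2, hs1, e12, e13, h2, un]
      · by_cases e4 : i = 0
        · subst e4; simp [hs4, hs3, hs2, hs1, e3]
        · simp [hs4, hs3, hs2, e3, e4]
    · have hb' : g b ≠ g a := fun h => hb (hg h)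
      set s3 := update s2 0 (g b :: s2 0) with hs3
      have h6 : Runs (if g b = g a then Prog.seq (Prog.push 0 (g b)) (Prog.push o u)
          else Prog.push 0 (g b)) s2 s3 1 := by
        rw [if_neg hb']
        exact Runs.push 0 (g b) s2
      have h4 : Runs (Prog.pop 0 Prog.skip
          (fun c => if c = g a then Prog.seq (Prog.push 0 c) (Prog.push o u) else Prog.push 0 c)) s1
          s3 2 := Runs.popCons hs10 h6
      have h5 := hmv s3 (by simp [hs3, hs2])
        (by simp [hs3, hs2, hs11])
      refine (g3.seq (h4.seq h5)).conv ?_ (by omega)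
      simp only [Option.some.injEq, hb, if_false]
      rw [← hfin 0]
      congr 2
      funext i
      by_cases e3 : i = o
      · subst e3; simp [hs3, hs2, hs1, e12, e13, h2]
      · by_cases e4 : i = 0
        · subst e4; simp [hs3, hs2, hs1, e3]
        · simp [hs3, hs2, e3, e4]

theorem runs_len (g : Γ → A) (u : A) (o : ℕ) (ho : 2 < o) :
    ∀ (l : List A) (m : ℕ) (s : Store A), s 0 = l → s o = un u m →
      Runs (Prog.loop 0 (fun a => Prog.seq (Prog.push 1 a) (Prog.push o u))) s
        (update (update (update s 0 []) 1 (l.reverse ++ s 1)) o (un u (m + l.length)))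
        (3 * l.length + 1)
  | [], m, s, h0, h1 => by
    refine (Runs.loopNil h0).conv ?_ (by simp)
    funext i
    by_cases e1 : i = o
    · subst e1; simp [h1]
    · by_cases e2 : i = 1
      · subst e2; simp [e1]
      · by_cases e3 : i = 0
        · subst e3; simp [e1, h0]
        · simp [e1, e2, e3]
  | a :: l, m, s, h0, h1 => by
    set s1 := update s 0 l with hs1
    set s2 := update s1 1 (a :: s1 1) with hs2
    set s3 := update s2 o (u :: s2 o) with hs3
    have e12 : o ≠ 0 := by omega
    have e13 : o ≠ 1 := by omega
    have g1 : Runs (Prog.seq (Prog.push 1 a) (Prog.push o u)) s1 s3 2 :=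
      (Runs.push 1 a s1).seq (Runs.push o u s2)
    have g2 := runs_len g u o ho l (m + 1) s3 (by simp [hs3, hs2, hs1, Ne.symm e12])
      (by simp [hs3, hs2, hs1, e12, e13, h1, un_succ])
    refine (Runs.loopCons (p := fun a => Prog.seq (Prog.push 1 a) (Prog.push o u)) h0 g1 g2).conv
      ?_ (by simp; omega)
    funext i
    by_cases e1 : i = o
    · subst e1; simp; congr 1; omega
    · by_cases e2 : i = 1
      · subst e2; simp [e1, hs3, hs2, hs1]
      · by_cases e3 : i = 0
        · subst e3; simp [e1]
        · simp [e1, e2, e3, hs3, hs2, hs1]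

theorem runs_sub (u : A) (o : ℕ) : ∀ (n m : ℕ) (s : Store A), s (o + 1) = un u n → s o = un u m →
      Runs (Prog.loop (o + 1) (fun _ => Prog.pop o Prog.skip (fun _ => Prog.skip))) s
        (update (update s (o + 1) []) o (un u (m - n))) (3 * n + 1)
  | 0, m, s, h0, h1 => by
    refine (Runs.loopNil h0).conv ?_ (by simp)
    funext i
    by_cases e1 : i = o
    · subst e1; simp [h1]
    · by_cases e2 : i = o + 1
      · subst e2; simp [h0]
      · simp [e1, e2]
  | n + 1, m, s, h0, h1 => by
    set s1 := update s (o + 1) (un u n) with hs1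
    have hs1o : s1 o = un u m := by simp [hs1, h1]
    have g1 : Runs (Prog.pop o Prog.skip (fun _ => Prog.skip)) s1 (update s1 o (un u (m - 1))) 2 :=
      by
      cases m with
      | zero =>
        refine (Runs.popNil hs1o (Runs.skip _)).conv ?_ le_rfl
        funext i
        by_cases e1 : i = o
        · subst e1; simp [hs1o]
        · simp [e1]
      | succ m => exact Runs.popCons hs1o (Runs.skip _)
    have g2 := runs_sub u o n (m - 1) (update s1 o (un u (m - 1))) (by simp [hs1]) (by simp)
    refine (Runs.loopCons (p := fun _ => Prog.pop o Prog.skip (fun _ => Prog.skip)) h0 g1 g2).conv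
      ?_ (by omega)
    funext i
    by_cases e1 : i = o
    · subst e1; simp; congr 1; omega
    · by_cases e2 : i = o + 1
      · subst e2; simp
      · simp [e1, e2, hs1]

/-- The value of a term under a bound on its variables. -/
structure Spec (g : Γ → A) (u : A) (t : Tm Γ) (T : ℕ → ℕ) : Prop where
  pb : PB T
  val : ∀ (N : ℕ) (x : List Γ) (e : ℕ → ℕ), x.length ≤ N → (∀ i, e i ≤ N) → t.eval x e ≤ T N
  run : ∀ (N : ℕ) (x : List Γ) (e : ℕ → ℕ) (ρ : ℕ → ℕ) (o : ℕ) (s : Store A), x.length ≤ N →
    (∀ i, e i ≤ N) → Good g u x e ρ o s →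
    Runs (t.comp g u ρ o) s (update s o (un u (t.eval x e))) (T N)

theorem cons_le {k : ℕ} {e : ℕ → ℕ} {N : ℕ} (hk : k ≤ N) (he : ∀ i, e i ≤ N) :
    ∀ i, cons k e i ≤ N
  | 0 => hk
  | i + 1 => he i

/-- The loop of a sum. -/
theorem runs_sum (g : Γ → A) (u : A) (t : Tm Γ) (T : ℕ → ℕ) (ht : Spec g u t T) (N : ℕ)
    (x : List Γ) (e : ℕ → ℕ) (ρ : ℕ → ℕ) (o : ℕ) (hx : x.length ≤ N)
    (he : ∀ i, e i ≤ N) : ∀ (b m : ℕ) (s : Store A), b ≤ N → Vars g u x e ρ o s →
      (∀ j, o + 2 ≤ j → s j = []) → s (o + 1) = un u b → s o = un u m →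
      Runs (Prog.loop (o + 1) (fun _ => Prog.seq
        (t.comp g u (fun i => Nat.casesOn i (o + 1) ρ) (o + 2)) (mv (o + 2) o))) s
        (update (update s (o + 1) []) o (un u (m + ∑ i ∈ Finset.range b, t.eval x (cons i e))))
        (b * (T N + (2 * T N + 1) + 1) + 1)
  | 0, m, s, _, _, _, h0, h1 => by
    refine (Runs.loopNil h0).conv ?_ (by simp)
    funext i
    by_cases e1 : i = o
    · subst e1; simp [h1]
    · by_cases e2 : i = o + 1
      · subst e2; simp [h0]
      · simp [e1, e2]
  | b + 1, m, s, hb, hv, htm, h0, h1 => by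
    have ho := hv.two_lt
    set v := t.eval x (cons b e) with hv'
    set s1 := update s (o + 1) (un u b) with hs1
    have hs1v : Vars g u x e ρ o s1 := hv.update (by omega) _
    have hs1g : Good g u x (cons b e) (fun i => Nat.casesOn i (o + 1) ρ) (o + 2) s1 := by
      refine ⟨(hs1v.mono (by omega)).cons (by omega) (by omega) (by simp [hs1]), fun j hj => ?_⟩
      rw [hs1, Function.update_of_ne (by omega)]
      exact htm j hj
    have g1 := ht.run N x (cons b e) _ (o + 2) s1 hx (cons_le (by omega) he) hs1g
    set s2 := update s1 (o + 2) (un u v) with hs2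
    have g2 := runs_mv (o + 2) o (by omega) (un u v) s2 (by simp [hs2])
    have hval := ht.val N x (cons b e) hx (cons_le (by omega) he)
    set s3 := update (update s2 (o + 2) []) o ((un u v).reverse ++ s2 o) with hs3
    have hs3o : s3 o = un u (m + v) := by
      simp [hs3, hs2, hs1, h1, Nat.add_comm]
    have g3 := runs_sum g u t T ht N x e ρ o hx he b (m + v) s3 (by omega)
      (by
        refine Vars.update (Vars.update (Vars.update hs1v ?_ _) ?_ _) ?_ _ <;> omega)
      (fun j hj => by
        rw [hs3, Function.update_of_ne (by omega)]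
        by_cases e1 : j = o + 2
        · subst e1; simp
        · rw [Function.update_of_ne e1, hs2, Function.update_of_ne e1, hs1,
            Function.update_of_ne (by omega)]
          exact htm j hj)
      (by simp [hs3, hs2, hs1]) hs3o
    refine (Runs.loopCons (p := fun _ => Prog.seq
        (t.comp g u (fun i => Nat.casesOn i (o + 1) ρ) (o + 2)) (mv (o + 2) o)) h0
        (g1.seq g2) g3).conv ?_ ?_
    · funext i
      by_cases e1 : i = o
      · subst e1
        simp only [Function.update_self]
        rw [Finset.sum_range_succ]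
        congr 1
        omega
      · by_cases e2 : i = o + 1
        · subst e2; simp
        · by_cases e3 : i = o + 2
          · subst e3
            simp [hs3, htm (o + 2) le_rfl]
          · simp [e1, e2, e3, hs3, hs2, hs1]
    · simp only [un_length]
      have : (b + 1) * (T N + (2 * T N + 1) + 1) =
          b * (T N + (2 * T N + 1) + 1) + (T N + (2 * T N + 1) + 1) := by ring
      omega

theorem exists_spec (g : Γ → A) (hg : Function.Injective g) (u : A) : ∀ t : Tm Γ, ∃ T, Spec g u t T
  | .var i => by
    refine ⟨fun N => 5 * N + 2, (((PB.const 5).mul PB.id).add (PB.const 2)), ?_, ?_⟩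
    · intro N x e hx he
      have := he i
      simp only [Tm.eval]
      omega
    · intro N x e ρ o s hx he hs
      have h1 := hs.lt i
      have h2 := hs.two_le i
      have := runs_cp u (ρ i) o 1 (by omega) (by omega) (by omega) (e i) 0 s (hs.vars i)
        (hs.temps o le_rfl) hs.scratch
      have h3 := he i
      refine this.conv ?_ (by omega)
      simp [Tm.eval]
  | .const c => by
    refine ⟨fun _ => c + 1, PB.const _, ?_, ?_⟩
    · intro N x e hx he
      simp [Tm.eval]
    · intro N x e ρ o s hx he hs
      refine (runs_pushN o u c 0 s (hs.temps o le_rfl)).conv ?_ le_rfl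
      simp [Tm.eval]
  | .len => by
    refine ⟨fun N => 5 * N + 2, (((PB.const 5).mul PB.id).add (PB.const 2)), ?_, ?_⟩
    · intro N x e hx he
      simp only [Tm.eval]
      omega
    · intro N x e ρ o s hx he hs
      have ho := hs.two_lt
      have g1 := runs_len g u o ho (x.map g) 0 s hs.input (hs.temps o le_rfl)
      set s1 := update (update (update s 0 []) 1 ((x.map g).reverse ++ s 1)) o
        (un u (0 + (x.map g).length)) with hs1
      have e12 : o ≠ 0 := by omega
      have e13 : o ≠ 1 := by omega
      have g2 := runs_mv 1 0 (by decide) (x.map g).reverse s1 (by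
        simp [hs1, hs.scratch, Ne.symm e13])
      refine (g1.seq g2).conv ?_ ?_
      · funext i
        by_cases e1 : i = 0
        · subst e1
          simp [hs1, Ne.symm e12, hs.input]
        · by_cases e2 : i = 1
          · subst e2
            simp [hs.scratch, Ne.symm e13]
          · by_cases e3 : i = o
            · subst e3
              simp [hs1, e1, e2, Tm.eval]
            · simp [hs1, e1, e2, e3]
      · simp only [List.length_map, List.length_reverse]
        omega
  | .sym a t => by
    obtain ⟨T, hT⟩ := exists_spec g hg u t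
    refine ⟨fun N => T N + (3 * T N + 2 * N + 5), hT.pb.add
      ((((PB.const 3).mul hT.pb).add ((PB.const 2).mul PB.id)).add (PB.const 5)), ?_, ?_⟩
    · intro N x e hx he
      simp only [Tm.eval]
      split_ifs <;> omega
    · intro N x e ρ o s hx he hs
      have ho := hs.two_lt
      have g1 := hT.run N x e ρ (o + 1) s hx he ⟨hs.toVars.mono (by omega), fun j hj =>
        hs.temps j (by omega)⟩
      have hval := hT.val N x e hx he
      have e12 : o ≠ 0 := by omega
      have g2 := runs_symP g hg u x o (t.eval x e) ho a
        (update s (o + 1) (un u (t.eval x e)))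
        (by
          rw [Function.update_of_ne (by omega)]
          exact hs.input)
        (by
          rw [Function.update_of_ne (by omega)]
          exact hs.scratch)
        (by
          rw [Function.update_of_ne (by omega)]
          exact hs.temps o le_rfl)
        (by simp)
      refine (g1.seq g2).conv ?_ (by omega)
      funext i
      by_cases e1 : i = o
      · subst e1; simp [Tm.eval]
      · by_cases e2 : i = o + 1
        · subst e2; simp [hs.temps (o + 1) (by omega)]
        · simp [e1, e2]
  | .add s t => by
    obtain ⟨S, hS⟩ := exists_spec g hg u s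
    obtain ⟨T, hT⟩ := exists_spec g hg u t
    refine ⟨fun N => S N + (T N + (2 * T N + 1)), hS.pb.add
      (hT.pb.add (((PB.const 2).mul hT.pb).add (PB.const 1))), ?_, ?_⟩
    · intro N x e hx he
      have := hS.val N x e hx he
      have := hT.val N x e hx he
      simp only [Tm.eval]
      omega
    · intro N x e ρ o s' hx he hs
      have ho := hs.two_lt
      have g1 := hS.run N x e ρ o s' hx he hs
      set v := s.eval x e with hv
      set w := t.eval x e with hw
      have g2 := hT.run N x e ρ (o + 1) (update s' o (un u v)) hx he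
        ⟨(hs.toVars.update le_rfl _).mono (by omega), fun j hj => by
          rw [Function.update_of_ne (by omega)]
          exact hs.temps j (by omega)⟩
      have g3 := runs_mv (o + 1) o (by omega) (un u w)
        (update (update s' o (un u v)) (o + 1) (un u w)) (by simp)
      have hval := hT.val N x e hx he
      refine (g1.seq (g2.seq g3)).conv ?_ ?_
      · funext i
        by_cases e1 : i = o
        · subst e1; simp [Tm.eval, Nat.add_comm, hv, hw]
        · by_cases e2 : i = o + 1
          · subst e2; simp [hs.temps (o + 1) (by omega)]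
          · simp [e1, e2]
      · simp only [un_length]
        omega
  | .sub s t => by
    obtain ⟨S, hS⟩ := exists_spec g hg u s
    obtain ⟨T, hT⟩ := exists_spec g hg u t
    refine ⟨fun N => S N + (T N + (3 * T N + 1)), hS.pb.add
      (hT.pb.add (((PB.const 3).mul hT.pb).add (PB.const 1))), ?_, ?_⟩
    · intro N x e hx he
      have := hS.val N x e hx he
      have := hT.val N x e hx he
      simp only [Tm.eval]
      omega
    · intro N x e ρ o s' hx he hs
      have ho := hs.two_lt
      have g1 := hS.run N x e ρ o s' hx he hs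
      set v := s.eval x e with hv
      set w := t.eval x e with hw
      have g2 := hT.run N x e ρ (o + 1) (update s' o (un u v)) hx he
        ⟨(hs.toVars.update le_rfl _).mono (by omega), fun j hj => by
          rw [Function.update_of_ne (by omega)]
          exact hs.temps j (by omega)⟩
      have g3 := runs_sub u o w v
        (update (update s' o (un u v)) (o + 1) (un u w)) (by simp) (by simp)
      have hval := hT.val N x e hx he
      refine (g1.seq (g2.seq g3)).conv ?_ ?_
      · funext i
        by_cases e1 : i = o
        · subst e1; simp [Tm.eval, hv, hw]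
        · by_cases e2 : i = o + 1
          · subst e2; simp [hs.temps (o + 1) (by omega)]
          · simp [e1, e2]
      · omega
  | .sum b t => by
    obtain ⟨B, hB⟩ := exists_spec g hg u b
    obtain ⟨T, hT⟩ := exists_spec g hg u t
    have hT' : PB (fun N => T (N + B N)) := hT.pb.comp (PB.id.add hB.pb)
    refine ⟨fun N => B N + (B N * (T (N + B N) + (2 * T (N + B N) + 1) + 1) + 1), hB.pb.add
      ((hB.pb.mul (((hT'.add (((PB.const 2).mul hT').add (PB.const 1)))).add (PB.const 1))).add
        (PB.const 1)), ?_, ?_⟩
    · intro N x e hx he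
      have h1 := hB.val N x e hx he
      simp only [Tm.eval]
      have h2 : ∑ i ∈ Finset.range (b.eval x e), t.eval x (cons i e) ≤
          ∑ i ∈ Finset.range (b.eval x e), T (N + B N) := by
        refine Finset.sum_le_sum fun i hi => ?_
        rw [Finset.mem_range] at hi
        exact hT.val (N + B N) x (cons i e) (by omega) (cons_le (by omega)
          (fun j => (he j).trans (by omega)))
      rw [Finset.sum_const, Finset.card_range, smul_eq_mul] at h2
      have h3 : b.eval x e * T (N + B N) ≤ B N * (T (N + B N) + (2 * T (N + B N) + 1) + 1) :=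
        Nat.mul_le_mul h1 (by omega)
      omega
    · intro N x e ρ o s hx he hs
      have ho := hs.two_lt
      have hval := hB.val N x e hx he
      have g1 := hB.run N x e ρ (o + 1) s hx he ⟨hs.toVars.mono (by omega), fun j hj =>
        hs.temps j (by omega)⟩
      set k := b.eval x e with hk
      have g2 := runs_sum g u t T hT (N + B N) x e ρ o (by omega) (fun i => (he i).trans (by omega))
        k 0 (update s (o + 1) (un u k)) (by omega) (hs.toVars.update (by omega) _)
        (fun j hj => by
          rw [Function.update_of_ne (by omega)]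
          exact hs.temps j (by omega)) (by simp) (by
            rw [Function.update_of_ne (by omega)]
            exact hs.temps o le_rfl)
      refine (g1.seq g2).conv ?_ ?_
      · funext i
        by_cases e1 : i = o
        · subst e1; simp [Tm.eval, hk]
        · by_cases e2 : i = o + 1
          · subst e2; simp [hs.temps (o + 1) (by omega)]
          · simp [e1, e2]
      · have := Nat.mul_le_mul_right (T (N + B N) + (2 * T (N + B N) + 1) + 1) hval
        omega
  | .lett b t => by
    obtain ⟨B, hB⟩ := exists_spec g hg u b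
    obtain ⟨T, hT⟩ := exists_spec g hg u t
    have hT' : PB (fun N => T (N + B N)) := hT.pb.comp (PB.id.add hB.pb)
    refine ⟨fun N => B N + (T (N + B N) + ((2 * T (N + B N) + 1) + (2 * B N + 1))), hB.pb.add
      (hT'.add ((((PB.const 2).mul hT').add (PB.const 1)).add
        (((PB.const 2).mul hB.pb).add (PB.const 1)))), ?_, ?_⟩
    · intro N x e hx he
      have h1 := hB.val N x e hx he
      simp only [Tm.eval]
      have h2 := hT.val (N + B N) x (cons (b.eval x e) e) (by omega) (cons_le (by omega)
          (fun j => (he j).trans (by omega)))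
      omega
    · intro N x e ρ o s hx he hs
      have ho := hs.two_lt
      have hval := hB.val N x e hx he
      have g1 := hB.run N x e ρ (o + 1) s hx he ⟨hs.toVars.mono (by omega), fun j hj =>
        hs.temps j (by omega)⟩
      set k := b.eval x e with hk
      set s1 := update s (o + 1) (un u k) with hs1
      have hs1v : Vars g u x e ρ o s1 := hs.toVars.update (by omega) _
      have hs1g : Good g u x (cons k e) (fun i => Nat.casesOn i (o + 1) ρ) (o + 2) s1 := by
        refine ⟨(hs1v.mono (by omega)).cons (by omega) (by omega) (by simp [hs1]),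
          fun j hj => ?_⟩
        rw [hs1, Function.update_of_ne (by omega)]
        exact hs.temps j (by omega)
      have hck : ∀ i, cons k e i ≤ N + B N := cons_le (by omega)
          (fun j => (he j).trans (by omega))
      have hval2 := hT.val (N + B N) x (cons k e) (by omega) hck
      have g2 := hT.run (N + B N) x (cons k e) _ (o + 2) s1 (by omega) hck hs1g
      set v := t.eval x (cons k e) with hv
      set s2 := update s1 (o + 2) (un u v) with hs2
      have g3 := runs_mv (o + 2) o (by omega) (un u v) s2 (by simp [hs2])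
      set s3 := update (update s2 (o + 2) []) o ((un u v).reverse ++ s2 o) with hs3
      have g4 := runs_clear (o + 1) (un u k) s3 (by simp [hs3, hs2, hs1])
      refine (g1.seq (g2.seq (g3.seq g4))).conv ?_ ?_
      · funext i
        by_cases e1 : i = o
        · subst e1; simp [Tm.eval, hs3, hs2, hs1, hv, hk, hs.temps i le_rfl]
        · by_cases e2 : i = o + 1
          · subst e2; simp [hs.temps (o + 1) (by omega)]
          · by_cases e3 : i = o + 2
            · subst e3; simp [hs3, hs.temps (o + 2) (by omega)]
            · simp [e1, e2, e3, hs3, hs2, hs1]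
      · simp only [un_length]
        omega
  | .ren σ t => by
    obtain ⟨T, hT⟩ := exists_spec g hg u t
    refine ⟨T, hT.pb, ?_, ?_⟩
    · intro N x e hx he
      exact hT.val N x (fun i => e (σ i)) hx (fun i => he _)
    · intro N x e ρ o s hx he hs
      exact hT.run N x (fun i => e (σ i)) (fun i => ρ (σ i)) o s hx (fun i => he _)
        ⟨⟨hs.input, hs.scratch, fun i => hs.two_le _, fun i => hs.lt _, fun i => hs.vars _⟩,
          hs.temps⟩

end Pool.Agent.PT
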