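import Mathlib
import Pool.Agent.PT.Prog

/-!
# Compilation of structured stack programs to Mathlib's `FinTM2`
-/

set_option autoImplicit false
set_option backward.isDefEq.respectTransparency false

namespace Pool.Agent.PT

open Turing StateTransition
open Function (update)

variable {A : Type}

/-- All registers of a program are below `n`. -/
def Prog.Bdd : Prog A → ℕ → Prop
  | .skip, _ => True
  | .push r _, n => r < n
  | .pop r p₀ p₁, n => r < n ∧ p₀.Bdd n ∧ ∀ a, (p₁ a).Bdd n
  | .seq p q, n => p.Bdd n ∧ q.Bdd n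
  | .loop r p, n => r < n ∧ ∀ a, (p a).Bdd n

/-- Control points of a program. -/
def Lab : Prog A → Type
  | .skip => Unit
  | .push _ _ => Unit
  | .pop _ p₀ p₁ => Unit ⊕ (Lab p₀ ⊕ (Σ a, Lab (p₁ a)))
  | .seq p q => Lab p ⊕ Lab q
  | .loop _ p => Unit ⊕ (Σ a, Lab (p a))

/-- There are finitely many control points. -/
@[instance_reducible] noncomputable def Lab.fintype [Fintype A] : (p : Prog A) → Fintype (Lab p)
  | .skip => inferInstanceAs (Fintype Unit)
  | .push _ _ => inferInstanceAs (Fintype Unit)
  | .pop _ p₀ p₁ =>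
    letI := Lab.fintype p₀
    letI := fun a => Lab.fintype (p₁ a)
    inferInstanceAs (Fintype (Unit ⊕ (Lab p₀ ⊕ (Σ a, Lab (p₁ a)))))
  | .seq p q =>
    letI := Lab.fintype p
    letI := Lab.fintype q
    inferInstanceAs (Fintype (Lab p ⊕ Lab q))
  | .loop _ p =>
    letI := fun a => Lab.fintype (p a)
    inferInstanceAs (Fintype (Unit ⊕ (Σ a, Lab (p a))))

/-- The entry point. -/
def entry : (p : Prog A) → Lab p
  | .skip => ()
  | .push _ _ => ()
  | .pop _ _ _ => Sum.inl ()
  | .seq p _ => Sum.inl (entry p)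
  | .loop _ _ => Sum.inl ()

section machine

variable (A) (Γ₀ Γ₁ : Type) (N : ℕ)

/-- Stack names: input, output, and the registers. -/
abbrev SK : Type := Option (Option (Fin (N + 2)))

/-- Stack alphabets. -/
def SΓ : SK N → Type
  | none => Γ₀
  | some none => Γ₁
  | some (some _) => A

/-- Internal memory. -/
abbrev SV : Type := Option (Γ₀ ⊕ A)

variable {A Γ₀ Γ₁ N}

/-- The name of a register. -/
def reg (r : ℕ) : Fin (N + 2) := Fin.ofNat (N + 2) r

theorem reg_val {r : ℕ} (h : r < N + 2) : (reg r : Fin (N + 2)).val = r := by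
  simp [reg, Nat.mod_eq_of_lt h]

/-- Statements. -/
abbrev SSt (Λ : Type) : Type := TM2.Stmt (SΓ A Γ₀ Γ₁ N) Λ (SV A Γ₀)

/-- Code of a program with control points embedded by `ι` and exit label `ex`. -/
def code {Λ : Type} : (p : Prog A) → (ι : Lab p → Λ) → (ex : Λ) → Lab p →
    TM2.Stmt (SΓ A Γ₀ Γ₁ N) Λ (SV A Γ₀)
  | .skip, _, ex, _ => .goto fun _ => ex
  | .push r a, _, ex, _ => .push (some (some (reg r))) (fun _ => a) (.goto fun _ => ex)
  | .pop r p₀ p₁, ι, ex, l =>
    match l with
    | Sum.inl _ => .pop (some (some (reg r))) (fun _ (o : Option A) => o.map Sum.inr)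
        (.goto fun v => match v with
          | some (Sum.inr a) => ι (Sum.inr (Sum.inr ⟨a, entry (p₁ a)⟩))
          | _ => ι (Sum.inr (Sum.inl (entry p₀))))
    | Sum.inr (Sum.inl l) => code p₀ (fun l => ι (Sum.inr (Sum.inl l))) ex l
    | Sum.inr (Sum.inr ⟨a, l⟩) => code (p₁ a) (fun l => ι (Sum.inr (Sum.inr ⟨a, l⟩))) ex l
  | .seq p q, ι, ex, l =>
    match l with
    | Sum.inl l => code p (fun l => ι (Sum.inl l)) (ι (Sum.inr (entry q))) l
    | Sum.inr l => code q (fun l => ι (Sum.inr l)) ex l
  | .loop r p, ι, ex, l =>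
    match l with
    | Sum.inl _ => .pop (some (some (reg r))) (fun _ (o : Option A) => o.map Sum.inr)
        (.goto fun v => match v with
          | some (Sum.inr a) => ι (Sum.inr ⟨a, entry (p a)⟩)
          | _ => ex)
    | Sum.inr ⟨a, l⟩ => code (p a) (fun l => ι (Sum.inr ⟨a, l⟩)) (ι (Sum.inl ())) l

/-- The stacks of the machine belonging to a store. -/
def stk (s : Store A) (x : List Γ₀) (y : List Γ₁) : ∀ k : SK N, List (SΓ A Γ₀ Γ₁ N k)
  | none => x
  | some none => y
  | some (some i) => s i.val

theorem update_stk (s : Store A) (x : List Γ₀) (y : List Γ₁) {r : ℕ} (hr : r < N + 2)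
    (l : List A) :
    update (stk s x y : ∀ k : SK N, List (SΓ A Γ₀ Γ₁ N k)) (some (some (reg r))) l
      = stk (update s r l) x y := by
  funext k
  rcases k with _ | _ | i
  · simp [stk]
  · simp [stk]
  · by_cases h : i = reg r
    · subst h
      simp [stk, reg_val hr]
    · have h1 : (some (some i) : SK N) ≠ some (some (reg r)) := by simpa using h
      have h2 : i.val ≠ r := by
        intro h2
        apply h
        apply Fin.ext
        rw [reg_val hr, h2]
      rw [Function.update_of_ne h1]
      simp [stk, h2]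

theorem update_stk_in (s : Store A) (x x' : List Γ₀) (y : List Γ₁) :
    update (stk s x y : ∀ k : SK N, List (SΓ A Γ₀ Γ₁ N k)) none x' = stk s x' y := by
  funext k
  rcases k with _ | _ | i
  · simp [stk]
  · simp [stk]
  · simp [stk]

theorem update_stk_out (s : Store A) (x : List Γ₀) (y y' : List Γ₁) :
    update (stk s x y : ∀ k : SK N, List (SΓ A Γ₀ Γ₁ N k)) (some none) y' = stk s x y' := by
  funext k
  rcases k with _ | _ | i
  · simp [stk]
  · simp [stk]
  · have h1 : (some (some i) : SK N) ≠ some none := by simp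
    rw [Function.update_of_ne h1]
    simp [stk]

theorem stk_reg (s : Store A) (x : List Γ₀) (y : List Γ₁) {r : ℕ} (hr : r < N + 2) :
    (stk s x y : ∀ k : SK N, List (SΓ A Γ₀ Γ₁ N k)) (some (some (reg r))) = s r := by
  simp [stk, reg_val hr]

/-- Reaching in exactly `n` steps. -/
def RN {σ : Type*} (f : σ → Option σ) (n : ℕ) (a b : σ) : Prop :=
  (flip bind f)^[n] (some a) = some b

theorem RN.zero {σ : Type*} (f : σ → Option σ) (a : σ) : RN f 0 a a := rfl

theorem RN.one {σ : Type*} {f : σ → Option σ} {a b : σ} (h : f a = some b) : RN f 1 a b := h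

theorem RN.trans {σ : Type*} {f : σ → Option σ} {m n : ℕ} {a b c : σ} (h1 : RN f m a b)
    (h2 : RN f n b c) : RN f (m + n) a c := by
  unfold RN at *
  rw [Nat.add_comm, Function.iterate_add_apply, h1, h2]

/-- The machine simulates programs step by step. -/
theorem sim {Λ : Type} {p : Prog A} {s s' : Store A} {t : ℕ} (h : Exec p s s' t) :
    p.Bdd (N + 2) → ∀ (M : Λ → SSt (A := A) (Γ₀ := Γ₀) (Γ₁ := Γ₁) (N := N) Λ) (ι : Lab p → Λ)
      (ex : Λ), (∀ l, M (ι l) = code p ι ex l) → ∀ (v : SV A Γ₀) (x : List Γ₀) (y : List Γ₁),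
      ∃ v' : SV A Γ₀, RN (TM2.step M) t ⟨some (ι (entry p)), v, stk s x y⟩
        ⟨some ex, v', stk s' x y⟩ := by
  induction h with
  | skip s =>
    intro _ M ι ex hM v x y
    refine ⟨v, RN.one ?_⟩
    have := hM ()
    simp only [TM2.step, entry, this, code, TM2.stepAux]
  | push r a s =>
    intro hb M ι ex hM v x y
    refine ⟨v, RN.one ?_⟩
    have := hM ()
    simp only [TM2.step, entry, this, code, TM2.stepAux]
    rw [stk_reg s x y hb, update_stk s x y hb]
  | @popNil r p₀ p₁ s s' t h _ ih =>
    intro hb M ι ex hM v x y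
    obtain ⟨v', hv'⟩ := ih hb.2.1 M (fun l => ι (Sum.inr (Sum.inl l))) ex
      (fun l => hM (Sum.inr (Sum.inl l))) none x y
    refine ⟨v', ?_⟩
    have e : t + 1 = 1 + t := by omega
    rw [e]
    refine RN.trans (RN.one ?_) hv'
    have := hM (Sum.inl ())
    simp only [TM2.step, entry, this, code, TM2.stepAux]
    rw [stk_reg s x y hb.1, update_stk s x y hb.1, h]
    simp only [List.head?_nil, Option.map_none, List.tail_nil]
    congr 2
    rw [← h, Function.update_eq_self]
  | @popCons r p₀ p₁ s s' t a l h _ ih =>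
    intro hb M ι ex hM v x y
    obtain ⟨v', hv'⟩ := ih (hb.2.2 a) M (fun l => ι (Sum.inr (Sum.inr ⟨a, l⟩))) ex
      (fun l => hM (Sum.inr (Sum.inr ⟨a, l⟩))) (some (Sum.inr a)) x y
    refine ⟨v', ?_⟩
    have e : t + 1 = 1 + t := by omega
    rw [e]
    refine RN.trans (RN.one ?_) hv'
    have := hM (Sum.inl ())
    simp only [TM2.step, entry, this, code, TM2.stepAux]
    rw [stk_reg s x y hb.1, update_stk s x y hb.1, h]
    simp only [List.head?_cons, Option.map_some, List.tail_cons]
  | @seq p q s s' s'' t t' _ _ ih1 ih2 =>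
    intro hb M ι ex hM v x y
    obtain ⟨v', hv'⟩ := ih1 hb.1 M (fun l => ι (Sum.inl l)) (ι (Sum.inr (entry q)))
      (fun l => hM (Sum.inl l)) v x y
    obtain ⟨v'', hv''⟩ := ih2 hb.2 M (fun l => ι (Sum.inr l)) ex
      (fun l => hM (Sum.inr l)) v' x y
    exact ⟨v'', RN.trans hv' hv''⟩
  | @loopNil r p s h =>
    intro hb M ι ex hM v x y
    refine ⟨none, RN.one ?_⟩
    have := hM (Sum.inl ())
    simp only [TM2.step, entry, this, code, TM2.stepAux]
    rw [stk_reg s x y hb.1, update_stk s x y hb.1, h]
    simp only [List.head?_nil, Option.map_none, List.tail_nil]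
    congr 2
    rw [← h, Function.update_eq_self]
  | @loopCons r p s s' s'' t t' a l h _ _ ih1 ih2 =>
    intro hb M ι ex hM v x y
    obtain ⟨v', hv'⟩ := ih1 (hb.2 a) M (fun l => ι (Sum.inr ⟨a, l⟩)) (ι (Sum.inl ()))
      (fun l => hM (Sum.inr ⟨a, l⟩)) (some (Sum.inr a)) x y
    obtain ⟨v'', hv''⟩ := ih2 hb M ι ex hM v' x y
    refine ⟨v'', ?_⟩
    have e : t + t' + 1 = 1 + (t + t') := by omega
    rw [e]
    refine RN.trans (RN.one ?_) (RN.trans hv' hv'')
    have := hM (Sum.inl ())
    simp only [TM2.step, entry, this, code, TM2.stepAux]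
    rw [stk_reg s x y hb.1, update_stk s x y hb.1, h]
    simp only [List.head?_cons, Option.map_some, List.tail_cons]

/-- The statements of the whole machine: copy the input to register 1 (reversing it), run the
program, copy register 2 to the output (reversing it), halt. -/
def mcode (p : Prog A) (g : Γ₀ → A) (d : A → Γ₁) (a₀ : A) :
    Option (Option (Lab p)) → TM2.Stmt (SΓ A Γ₀ Γ₁ N) (Option (Option (Lab p))) (SV A Γ₀)
  | none => .pop none (fun _ (o : Option Γ₀) => o.map Sum.inl)
      (.branch (fun v => v.isSome)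
        (.push (some (some (reg 1))) (fun v => match v with
            | some (Sum.inl c) => g c
            | _ => a₀) (.goto fun _ => none))
        (.goto fun _ => some (some (entry p))))
  | some none => .pop (some (some (reg 2))) (fun _ (o : Option A) => o.map Sum.inr)
      (.branch (fun v => v.isSome)
        (.push (some none) (fun v => match v with
            | some (Sum.inr c) => d c
            | _ => d a₀) (.goto fun _ => some none))
        (.load (fun _ => none) .halt))
  | some (some l) => code p (fun l => some (some l)) (some none) l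

theorem phase1 (p : Prog A) (g : Γ₀ → A) (d : A → Γ₁) (a₀ : A) (hN : 1 < N + 2) :
    ∀ (x : List Γ₀) (v : SV A Γ₀) (s : Store A), ∃ v' : SV A Γ₀,
      RN (TM2.step (mcode (N := N) p g d a₀)) (x.length + 1) ⟨some none, v, stk s x []⟩
        ⟨some (some (some (entry p))), v', stk (update s 1 ((x.map g).reverse ++ s 1)) [] []⟩
  | [], v, s => by
    refine ⟨none, RN.one ?_⟩
    simp only [TM2.step, mcode, TM2.stepAux]
    rw [update_stk_in]
    simp [stk]
  | c :: x, v, s => by
    obtain ⟨v', hv'⟩ := phase1 p g d a₀ hN x (some (Sum.inl c)) (update s 1 (g c :: s 1))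
    refine ⟨v', ?_⟩
    have e : (c :: x).length + 1 = 1 + (x.length + 1) := by simp; omega
    rw [e]
    have e2 : update s 1 (((c :: x).map g).reverse ++ s 1)
        = update (update s 1 (g c :: s 1)) 1 ((x.map g).reverse ++ update s 1 (g c :: s 1) 1) := by
      simp
    rw [e2]
    refine RN.trans (RN.one ?_) hv'
    simp only [TM2.step, mcode, TM2.stepAux]
    rw [update_stk_in, stk_reg _ _ _ hN, update_stk _ _ _ hN]
    simp [stk]

theorem phase3 (p : Prog A) (g : Γ₀ → A) (d : A → Γ₁) (a₀ : A) (hN : 2 < N + 2) :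
    ∀ (l : List A) (y : List Γ₁) (v : SV A Γ₀) (s : Store A), s 2 = l →
      RN (TM2.step (mcode (N := N) p g d a₀)) (l.length + 1) ⟨some (some none), v, stk s [] y⟩
        ⟨none, none, stk (update s 2 []) [] ((l.map d).reverse ++ y)⟩
  | [], y, v, s, hs => by
    refine RN.one ?_
    simp only [TM2.step, mcode, TM2.stepAux]
    rw [stk_reg _ _ _ hN, update_stk _ _ _ hN, hs]
    simp
  | c :: l, y, v, s, hs => by
    have e : (c :: l).length + 1 = 1 + (l.length + 1) := by simp; omega
    rw [e]
    have h2 := phase3 p g d a₀ hN l (d c :: y) (some (Sum.inr c)) (update s 2 l) (by simp)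
    have e2 : (stk (update s 2 []) [] (((c :: l).map d).reverse ++ y) :
        ∀ k : SK N, List (SΓ A Γ₀ Γ₁ N k))
        = stk (update (update s 2 l) 2 []) [] ((l.map d).reverse ++ d c :: y) := by
      simp
    rw [e2]
    refine RN.trans (RN.one ?_) h2
    simp only [TM2.step, mcode, TM2.stepAux]
    rw [stk_reg _ _ _ hN, update_stk _ _ _ hN, hs]
    have e3 : (stk (update s 2 l) [] y : ∀ k : SK N, List (SΓ A Γ₀ Γ₁ N k)) (some none) = y := rfl
    simp only [List.head?_cons, Option.map_some, Option.isSome_some, cond_true, List.tail_cons]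
    rw [e3, update_stk_out]

/-- The whole machine. -/
noncomputable def mach [Fintype A] [Fintype Γ₀] (N : ℕ) (p : Prog A) (g : Γ₀ → A) (d : A → Γ₁)
    (a₀ : A) : FinTM2 :=
  letI := Lab.fintype p
  { K := SK N
    k₀ := none
    k₁ := some none
    Γ := SΓ A Γ₀ Γ₁ N
    Λ := Option (Option (Lab p))
    main := none
    σ := SV A Γ₀
    initialState := none
    Γk₀Fin := inferInstanceAs (Fintype Γ₀)
    m := mcode p g d a₀ }

theorem initList_mach [Fintype A] [Fintype Γ₀] (p : Prog A) (g : Γ₀ → A) (d : A → Γ₁)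
    (a₀ : A) (x : List Γ₀) : initList (mach N p g d a₀) x =
    (⟨some none, none, stk (fun _ => []) x []⟩ :
      TM2.Cfg (SΓ A Γ₀ Γ₁ N) (Option (Option (Lab p))) (SV A Γ₀)) := by
  unfold initList
  congr 1
  funext k'
  rcases k' with _ | _ | k'
  · simp [mach, stk]
  · simp [mach, stk]
  · simp [mach, stk]

theorem haltList_mach [Fintype A] [Fintype Γ₀] (p : Prog A) (g : Γ₀ → A) (d : A → Γ₁)
    (a₀ : A) (y : List Γ₁) : haltList (mach N p g d a₀) y =
    (⟨none, none, stk (fun _ => []) [] y⟩ :
      TM2.Cfg (SΓ A Γ₀ Γ₁ N) (Option (Option (Lab p))) (SV A Γ₀)) := by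
  unfold haltList
  congr 1
  funext k'
  rcases k' with _ | _ | k'
  · simp [mach, stk]
  · simp [mach, stk]
  · simp [mach, stk]

end machine

/-- A program only mentions finitely many registers. -/
theorem Prog.Bdd.mono : ∀ {p : Prog A} {m n : ℕ}, m ≤ n → p.Bdd m → p.Bdd n
  | .skip, _, _, _, _ => trivial
  | .push _ _, _, _, h, hb => lt_of_lt_of_le hb h
  | .pop _ _ _, _, _, h, hb => ⟨lt_of_lt_of_le hb.1 h, hb.2.1.mono h, fun a => (hb.2.2 a).mono h⟩
  | .seq _ _, _, _, h, hb => ⟨hb.1.mono h, hb.2.mono h⟩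
  | .loop _ _, _, _, h, hb => ⟨lt_of_lt_of_le hb.1 h, fun a => (hb.2 a).mono h⟩

theorem Prog.exists_bdd [Finite A] : ∀ p : Prog A, ∃ n, p.Bdd n
  | .skip => ⟨0, trivial⟩
  | .push r _ => ⟨r + 1, Nat.lt_succ_self r⟩
  | .pop r p₀ p₁ => by
    obtain ⟨n₀, h₀⟩ := Prog.exists_bdd p₀
    choose n₁ h₁ using fun a => Prog.exists_bdd (p₁ a)
    have := Fintype.ofFinite A
    refine ⟨r + 1 + n₀ + ∑ a, n₁ a, by omega, h₀.mono (by omega), fun a => (h₁ a).mono ?_⟩
    have := Finset.single_le_sum (f := n₁) (fun i _ => Nat.zero_le _) (Finset.mem_univ a)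
    omega
  | .seq p q => by
    obtain ⟨n₀, h₀⟩ := Prog.exists_bdd p
    obtain ⟨n₁, h₁⟩ := Prog.exists_bdd q
    exact ⟨n₀ + n₁, h₀.mono (by omega), h₁.mono (by omega)⟩
  | .loop r p => by
    choose n₁ h₁ using fun a => Prog.exists_bdd (p a)
    have := Fintype.ofFinite A
    refine ⟨r + 1 + ∑ a, n₁ a, by omega, fun a => (h₁ a).mono ?_⟩
    have := Finset.single_le_sum (f := n₁) (fun i _ => Nat.zero_le _) (Finset.mem_univ a)
    omega

/-- The store with a single non-empty register. -/
def single (r : ℕ) (l : List A) : Store A := update (fun _ => []) r l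

/-- **A function computed by a structured program in polynomial time is computable in polynomial
time in the sense of Mathlib.** -/
theorem polyTime_of_prog [Fintype A] {α β Γ₀ Γ₁ : Type} [Fintype Γ₀] (ea : α → List Γ₀)
    (eb : β → List Γ₁) (f : α → β) (p : Prog A) (g : Γ₀ → A) (d : A → Γ₁) (a₀ : A)
    (out : α → List A) (hout : ∀ x, (out x).map d = eb (f x)) (P Q : Polynomial ℕ)
    (hlen : ∀ x, (out x).length ≤ Q.eval (ea x).length)
    (h : ∀ x, Runs p (single 0 ((ea x).map g)) (single 1 (out x)) (P.eval (ea x).length)) :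
    Nonempty (TM2ComputableInPolyTime ea eb f) := by
  obtain ⟨n, hn⟩ := p.exists_bdd
  set N := n + 3 with hN
  set p' : Prog A := Prog.seq (mv 1 0) (Prog.seq p (mv 1 2)) with hp'
  have hb : p'.Bdd (N + 2) := by
    refine ⟨⟨by omega, fun a => ?_⟩, hn.mono (by omega), ⟨by omega, fun a => ?_⟩⟩
    · change 0 < N + 2; omega
    · change 2 < N + 2; omega
  have hrun : ∀ x, Runs p' (single 1 ((ea x).map g).reverse) (single 2 (out x).reverse)
      ((2 * (ea x).length + 1) + (P.eval (ea x).length + (2 * Q.eval (ea x).length + 1))) := by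
    intro x
    have h1 := runs_mv 1 0 (by decide) ((ea x).map g).reverse
      (single 1 ((ea x).map g).reverse) (by simp [single])
    have h2 := h x
    have h3 := runs_mv 1 2 (by decide) (out x) (single 1 (out x)) (by simp [single])
    have e1 : single 0 ((ea x).map g) = update (update (single 1 ((ea x).map g).reverse) 1 []) 0
        (((ea x).map g).reverse.reverse ++ (single 1 ((ea x).map g).reverse) 0) := by
      funext i
      by_cases hi : i = 0
      · subst hi; simp [single]
      · by_cases hi1 : i = 1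
        · subst hi1; simp [single]
        · simp [single, hi]
    have e2 : single 2 (out x).reverse = update (update (single 1 (out x)) 1 []) 2
        ((out x).reverse ++ (single 1 (out x)) 2) := by
      funext i
      by_cases hi : i = 2
      · subst hi; simp [single]
      · by_cases hi1 : i = 1
        · subst hi1; simp [single]
        · simp [single, hi]
    refine (h1.conv (s'' := single 0 ((ea x).map g)) (T' := 2 * (ea x).length + 1) e1
      (by simp)).seq (h2.seq (h3.conv e2 ?_))
    have := hlen x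
    omega
  have hsteps : ∀ x, ∃ m ≤ (ea x).length + 1 + ((2 * (ea x).length + 1) +
      (P.eval (ea x).length + (2 * Q.eval (ea x).length + 1)) + (Q.eval (ea x).length + 1)),
      (flip bind (mach N p' g d a₀).step)^[m] (some (initList (mach N p' g d a₀) (ea x))) =
      some (haltList (mach N p' g d a₀) (eb (f x))) := by
    intro x
    rw [initList_mach, haltList_mach]
    obtain ⟨t, ht, hex⟩ := hrun x
    obtain ⟨v1, h1⟩ := phase1 (N := N) p' g d a₀ (by omega) (ea x) none (fun _ => [])
    have e1 : update (fun _ => []) 1 (((ea x).map g).reverse ++ (fun _ => [] : Store A) 1) =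
      single 1 ((ea x).map g).reverse := by simp [single]
    rw [e1] at h1
    obtain ⟨v2, h2⟩ := sim (N := N) (Γ₀ := Γ₀) (Γ₁ := Γ₁) hex hb (mcode p' g d a₀)
      (fun l => some (some l)) (some none) (fun l => rfl) v1 [] []
    have h3 := phase3 (N := N) p' g d a₀ (by omega) (out x).reverse [] v2
      (single 2 (out x).reverse) (by simp [single])
    have e3 : (stk (update (single 2 (out x).reverse) 2 []) [] (((out x).reverse.map d).reverse ++ [])
      : ∀ k : SK N, List (SΓ A Γ₀ Γ₁ N k)) = stk (fun _ => []) [] (eb (f x)) := by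
      rw [← hout x]
      congr 1
      · simp [single]
      · simp
    rw [e3] at h3
    refine ⟨_, ?_, RN.trans h1 (RN.trans h2 h3)⟩
    have := hlen x
    simp only [List.length_reverse]
    omega
  choose m hm hsteps using hsteps
  exact ⟨{
    tm := mach N p' g d a₀
    inputAlphabet := Equiv.refl _
    outputAlphabet := Equiv.refl _
    time := Polynomial.X + 1 + ((2 * Polynomial.X + 1) + (P + (2 * Q + 1)) + (Q + 1))
    outputsFun := fun x => by
      refine ⟨⟨m x, ?_⟩, ?_⟩
      · have h := hsteps x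
        have e1 : List.map (Equiv.refl ((mach N p' g d a₀).Γ (mach N p' g d a₀).k₀)).invFun (ea x)
            = ea x := by
          simp
        have e2 : List.map (Equiv.refl ((mach N p' g d a₀).Γ (mach N p' g d a₀).k₁)).invFun
            (eb (f x)) = eb (f x) := by
          simp
        erw [e2, e1]
        exact h
      · simpa using hm x }⟩

end Pool.Agent.PT
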