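import Mathlib
import Pool.Agent.PT.Term
import Pool.Agent.PT.ToTM2

/-!
# Words computed letter by letter from terms are polynomial time computable
-/

set_option autoImplicit false

namespace Pool.Agent.PT

open Function (update)
open Turing

variable {Γ A : Type}

/-- Pushing `φ (min v K)` where `v` is the content of the unary register `r`; `r` is cleared. -/
def disp (r r' : ℕ) : ℕ → (ℕ → A) → Prog A
  | 0, φ => Prog.seq (clear r) (Prog.push r' (φ 0))
  | K + 1, φ => Prog.pop r (Prog.push r' (φ 0)) (fun _ => disp r r' K (fun n => φ (n + 1)))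

theorem runs_disp (u : A) (r r' : ℕ) (hr : r ≠ r') : ∀ (K : ℕ) (φ : ℕ → A) (v : ℕ) (s : Store A),
    s r = un u v → Runs (disp r r' K φ) s (update (update s r []) r' (φ (min v K) :: s r'))
      (2 * v + K + 2)
  | 0, φ, v, s, hs => by
    have g1 := runs_clear r (un u v) s hs
    refine (g1.seq (Runs.push r' (φ 0) _)).conv ?_ (by simp)
    simp [hr.symm]
  | K + 1, φ, 0, s, hs => by
    refine (Runs.popNil hs (Runs.push r' (φ 0) s)).conv ?_ (by omega)
    funext i
    by_cases e1 : i = r'
    · subst e1; simp
    · by_cases e2 : i = r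
      · subst e2; simp [e1, hs]
      · simp [e1, e2]
  | K + 1, φ, v + 1, s, hs => by
    have g1 := runs_disp u r r' hr K (fun n => φ (n + 1)) v (update s r (un u v)) (by simp)
    refine (Runs.popCons (p₀ := Prog.push r' (φ 0)) hs g1).conv ?_ (by omega)
    have e : min (v + 1) (K + 1) = min v K + 1 := by omega
    rw [e]
    simp [hr.symm]

/-- The output loop. -/
theorem runs_out (g : Γ → A) (u : A) (t : Tm Γ) (T : ℕ → ℕ) (ht : Spec g u t T) (N : ℕ)
    (x : List Γ) (hx : x.length ≤ N) (K : ℕ) (φ : ℕ → A) : ∀ (b : ℕ) (l : List A)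
      (s : Store A), b ≤ N → s 0 = x.map g → s 1 = [] → s 2 = l → s 3 = [] → s 4 = un u b →
      (∀ j, 5 ≤ j → s j = []) →
      Runs (Prog.loop 4 (fun _ => Prog.seq
        (t.comp g u (fun i => Nat.casesOn i 4 (fun _ => 3)) 5) (disp 5 2 K φ))) s
        (update (update s 4 []) 2
          ((List.range b).map (fun i => φ (min (t.eval x (cons i (fun _ => 0))) K)) ++ l))
        (b * (T N + (2 * T N + K + 2) + 1) + 1)
  | 0, l, s, _, _, _, h2, _, h4, _ => by
    refine (Runs.loopNil h4).conv ?_ (by simp)
    funext i
    by_cases e1 : i = 2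
    · subst e1; simp [h2]
    · by_cases e2 : i = 4
      · subst e2; simp [h4]
      · simp [e1, e2]
  | b + 1, l, s, hb, h0, h1, h2, h3, h4, h5 => by
    set s1 := update s 4 (un u b) with hs1
    have hc : ∀ i, cons b (fun _ => 0) i ≤ N := cons_le (by omega) (fun _ => Nat.zero_le _)
    have hgood : Good g u x (cons b (fun _ => 0)) (fun i => Nat.casesOn i 4 (fun _ => 3)) 5 s1 := by
      refine ⟨⟨?_, ?_, fun i => ?_, fun i => ?_, fun i => ?_⟩, fun j hj => ?_⟩
      · simp [hs1, h0]
      · simp [hs1, h1]
      · cases i <;> simp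
      · cases i <;> simp
      · cases i
        · simp [hs1]
        · simp [hs1, h3]
      · rw [hs1, Function.update_of_ne (by omega)]; exact h5 j hj
    have g1 := ht.run N x _ _ _ s1 hx hc hgood
    have hval := ht.val N x _ hx hc
    set v := t.eval x (cons b (fun _ => 0)) with hv
    have g2 := runs_disp u 5 2 (by decide) K φ v (update s1 5 (un u v)) (by simp)
    set s2 := update (update (update s1 5 (un u v)) 5 []) 2
      (φ (min v K) :: update s1 5 (un u v) 2) with hs2
    have g3 := runs_out g u t T ht N x hx K φ b (φ (min v K) :: l) s2 (by omega)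
      (by simp [hs2, hs1, h0]) (by simp [hs2, hs1, h1]) (by simp [hs2, hs1, h2])
      (by simp [hs2, hs1, h3]) (by simp [hs2, hs1]) (fun j hj => by
        rw [hs2, Function.update_of_ne (by omega)]
        by_cases e : j = 5
        · subst e; simp
        · rw [Function.update_of_ne e, Function.update_of_ne e, hs1,
            Function.update_of_ne (by omega)]
          exact h5 j hj)
    refine (Runs.loopCons (p := fun _ => Prog.seq
        (t.comp g u (fun i => Nat.casesOn i 4 (fun _ => 3)) 5) (disp 5 2 K φ)) h4
        (g1.seq g2) g3).conv ?_ ?_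
    · funext i
      by_cases e1 : i = 2
      · subst e1
        simp [List.range_succ, hv]
      · by_cases e2 : i = 4
        · subst e2; simp
        · by_cases e3 : i = 5
          · subst e3; simp [hs2, h5 5 le_rfl]
          · simp [e1, e2, e3, hs2, hs1]
    · have : (b + 1) * (T N + (2 * T N + K + 2) + 1) =
          b * (T N + (2 * T N + K + 2) + 1) + (T N + (2 * T N + K + 2) + 1) := by ring
      omega

/-- The whole program. -/
noncomputable def outP (g : Γ → A) (u : A) (m t : Tm Γ) (K : ℕ) (φ : ℕ → A) : Prog A :=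
  Prog.seq (m.comp g u (fun _ => 3) 4)
    (Prog.seq (Prog.loop 4 (fun _ => Prog.seq
        (t.comp g u (fun i => Nat.casesOn i 4 (fun _ => 3)) 5) (disp 5 2 K φ)))
      (Prog.seq (clear 0) (Prog.seq (mv 2 3) (mv 3 1))))

theorem runs_outP (g : Γ → A) (hg : Function.Injective g) (u : A) (m t : Tm Γ) (K : ℕ)
    (φ : ℕ → A) : ∃ T : ℕ → ℕ, PB T ∧ ∀ x : List Γ,
      m.eval x (fun _ => 0) ≤ T x.length ∧
      Runs (outP g u m t K φ) (single 0 (x.map g)) (single 1
        ((List.range (m.eval x (fun _ => 0))).map
          (fun i => φ (min (t.eval x (cons i (fun _ => 0))) K)))) (T x.length) := by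
  obtain ⟨M, hM⟩ := exists_spec g hg u m
  obtain ⟨T, hT⟩ := exists_spec g hg u t
  have hT' : PB (fun N => T (N + M N)) := hT.pb.comp (PB.id.add hM.pb)
  refine ⟨fun N => M N + ((M N * (T (N + M N) + (2 * T (N + M N) + K + 2) + 1) + 1) +
    ((2 * N + 1) + ((2 * M N + 1) + (2 * M N + 1)))), ?_, ?_⟩
  · exact hM.pb.add (((hM.pb.mul ((hT'.add ((((PB.const 2).mul hT').add (PB.const K)).add
      (PB.const 2))).add (PB.const 1))).add (PB.const 1)).add
      ((((PB.const 2).mul PB.id).add (PB.const 1)).add
      ((((PB.const 2).mul hM.pb).add (PB.const 1)).add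
      (((PB.const 2).mul hM.pb).add (PB.const 1)))))
  · intro x
    set N := x.length with hN
    have hmval := hM.val N x (fun _ => 0) le_rfl (fun _ => Nat.zero_le _)
    set b := m.eval x (fun _ => 0) with hb
    refine ⟨le_trans hmval (Nat.le_add_right _ _), ?_⟩
    set s0 : Store A := single 0 (x.map g) with hs0
    have g1 := hM.run N x (fun _ => 0) (fun _ => 3) 4 s0 le_rfl (fun _ => Nat.zero_le _)
      ⟨⟨by simp [hs0, single], by simp [hs0, single], fun _ => by omega, fun _ => by omega,
        fun _ => by simp [hs0, single]⟩, fun j hj => by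
          have : j ≠ 0 := by omega
          simp [hs0, single, this]⟩
    set s1 := update s0 4 (un u b) with hs1
    have g2 := runs_out g u t T hT (N + M N) x (by omega) K φ b [] s1 (by omega)
      (by simp [hs1, hs0, single]) (by simp [hs1, hs0, single]) (by simp [hs1, hs0, single])
      (by simp [hs1, hs0, single]) (by simp [hs1]) (fun j hj => by
        have : j ≠ 0 := by omega
        have : j ≠ 4 := by omega
        simp [single, *])
    set w := (List.range b).map (fun i => φ (min (t.eval x (cons i (fun _ => 0))) K)) with hw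
    set s2 := update (update s1 4 []) 2 (w ++ []) with hs2
    have g3 := runs_clear 0 (x.map g) s2 (by simp [hs2, hs1, hs0, single])
    set s3 := update s2 0 [] with hs3
    have g4 := runs_mv 2 3 (by decide) w s3 (by simp [hs3, hs2])
    set s4 := update (update s3 2 []) 3 (w.reverse ++ s3 3) with hs4
    have g5 := runs_mv 3 1 (by decide) w.reverse s4 (by
      simp [hs4, hs3, hs2, hs1, hs0, single])
    refine (g1.seq (g2.seq (g3.seq (g4.seq g5)))).conv ?_ ?_
    · funext i
      by_cases e1 : i = 1
      · subst e1; simp [single, hs4, hs3, hs2, hs1, hs0]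
      · by_cases e0 : i = 0
        · subst e0; simp [single, hs4, hs3]
        · by_cases e2 : i = 2
          · subst e2; simp [single, hs4]
          · by_cases e3 : i = 3
            · subst e3; simp [single]
            · by_cases e4 : i = 4
              · subst e4; simp [single, hs4, hs3, hs2]
              · simp [single, e1, e0, e2, e3, e4, hs4, hs3, hs2, hs1, hs0]
    · have h1 : w.length = b := by simp [hw]
      have h2 : b * (T (N + M N) + (2 * T (N + M N) + K + 2) + 1) ≤
          M N * (T (N + M N) + (2 * T (N + M N) + K + 2) + 1) := Nat.mul_le_mul_right _ hmval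
      simp only [List.length_map, List.length_reverse, h1, ← hN]
      omega

/-- **Functions whose output letters are given by terms are polynomial time computable.** -/
theorem polyTime_of_terms [Fintype Γ] {α β Δ : Type} [Fintype Δ] (ea : α → List Γ)
    (eb : β → List Δ) (f : α → β) (m t : Tm Γ) (K : ℕ) (φ : ℕ → Δ)
    (h : ∀ a, eb (f a) = (List.range (m.eval (ea a) (fun _ => 0))).map
      (fun i => φ (min (t.eval (ea a) (cons i (fun _ => 0))) K))) :
    Nonempty (TM2ComputableInPolyTime ea eb f) := by
  classical
  let g : Γ → Γ ⊕ Δ := Sum.inl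
  let d : Γ ⊕ Δ → Δ := Sum.elim (fun _ => φ 0) id
  obtain ⟨T, hT, hrun⟩ := runs_outP g Sum.inl_injective (Sum.inr (φ 0)) m t K
    (fun n => (Sum.inr (φ n) : Γ ⊕ Δ))
  obtain ⟨P, hP⟩ := hT.toPoly
  refine polyTime_of_prog ea eb f _ g d (Sum.inr (φ 0)) (fun a =>
    (List.range (m.eval (ea a) (fun _ => 0))).map
      (fun i => (Sum.inr (φ (min (t.eval (ea a) (cons i (fun _ => 0))) K)) : Γ ⊕ Δ))) (fun a => ?_)
    P P (fun a => ?_) (fun a => ((hrun (ea a)).2).mono (hP _))
  · rw [h a]
    simp [d]
  · have h1 := (hrun (ea a)).1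
    have h2 := hP (ea a).length
    simp only [List.length_map, List.length_range]
    omega

end Pool.Agent.PT
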