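import Mathlib
import Pool.Agent.PT.Out

/-!
# Closure properties of the class of functions denoted by terms
-/

set_option autoImplicit false

namespace Pool.Agent.PT

variable {Γ : Type}

/-- Functions denoted by terms. -/
def UF (f : List Γ → (ℕ → ℕ) → ℕ) : Prop := ∃ t : Tm Γ, ∀ x e, t.eval x e = f x e

open Classical in
/-- Predicates with characteristic functions denoted by terms. -/
def UP (P : List Γ → (ℕ → ℕ) → Prop) : Prop := UF fun x e => if P x e then 1 else 0

theorem UF.congr {f g : List Γ → (ℕ → ℕ) → ℕ} (hf : UF f) (h : ∀ x e, f x e = g x e) : UF g := by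
  obtain ⟨t, ht⟩ := hf
  exact ⟨t, fun x e => (ht x e).trans (h x e)⟩

theorem UP.congr {P Q : List Γ → (ℕ → ℕ) → Prop} (hP : UP P) (h : ∀ x e, P x e ↔ Q x e) :
    UP Q := by
  classical
  refine UF.congr hP fun x e => ?_
  simp only [h x e]

theorem UF.var (i : ℕ) : UF (Γ := Γ) (fun _ e => e i) := ⟨Tm.var i, fun _ _ => rfl⟩

theorem UF.const (c : ℕ) : UF (Γ := Γ) (fun _ _ => c) := ⟨Tm.const c, fun _ _ => rfl⟩

theorem UF.len : UF (Γ := Γ) (fun x _ => x.length) := ⟨Tm.len, fun _ _ => rfl⟩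

theorem UP.sym (a : Γ) {f : List Γ → (ℕ → ℕ) → ℕ} (hf : UF f) : UP (fun x e => x[f x e]? = some a) := by
  obtain ⟨t, ht⟩ := hf
  refine ⟨Tm.sym a t, fun x e => ?_⟩
  have h := ht x e
  simp only [Tm.eval]
  split_ifs with h1 h2 h2 <;> simp_all

theorem UF.add {f g : List Γ → (ℕ → ℕ) → ℕ} (hf : UF f) (hg : UF g) :
    UF (fun x e => f x e + g x e) := by
  obtain ⟨s, hs⟩ := hf
  obtain ⟨t, ht⟩ := hg
  exact ⟨Tm.add s t, fun x e => by simp only [Tm.eval, hs, ht]⟩

theorem UF.sub {f g : List Γ → (ℕ → ℕ) → ℕ} (hf : UF f) (hg : UF g) :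
    UF (fun x e => f x e - g x e) := by
  obtain ⟨s, hs⟩ := hf
  obtain ⟨t, ht⟩ := hg
  exact ⟨Tm.sub s t, fun x e => by simp only [Tm.eval, hs, ht]⟩

theorem UF.sum' {b f : List Γ → (ℕ → ℕ) → ℕ} (hb : UF b) (hf : UF f) :
    UF (fun x e => ∑ i ∈ Finset.range (b x e), f x (cons i e)) := by
  obtain ⟨s, hs⟩ := hb
  obtain ⟨t, ht⟩ := hf
  exact ⟨Tm.sum s t, fun x e => by simp only [Tm.eval, hs, ht]⟩

theorem UF.lett {g f : List Γ → (ℕ → ℕ) → ℕ} (hg : UF g) (hf : UF f) :
    UF (fun x e => f x (cons (g x e) e)) := by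
  obtain ⟨s, hs⟩ := hg
  obtain ⟨t, ht⟩ := hf
  exact ⟨Tm.lett s t, fun x e => by simp only [Tm.eval, hs, ht]⟩

theorem UF.ren (σ : ℕ → ℕ) {f : List Γ → (ℕ → ℕ) → ℕ} (hf : UF f) :
    UF (fun x e => f x (fun i => e (σ i))) := by
  obtain ⟨t, ht⟩ := hf
  exact ⟨Tm.ren σ t, fun x e => by simp only [Tm.eval, ht]⟩

/-- Bounded sums, with the summation index as an ordinary variable. -/
theorem UF.sum {b : List Γ → (ℕ → ℕ) → ℕ} {f : List Γ → (ℕ → ℕ) → ℕ → ℕ} (hb : UF b)
    (hf : UF (fun x e => f x (fun i => e (i + 1)) (e 0))) :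
    UF (fun x e => ∑ i ∈ Finset.range (b x e), f x e i) := UF.sum' hb hf

/-- Local definitions. -/
theorem UF.bind {g : List Γ → (ℕ → ℕ) → ℕ} {f : List Γ → (ℕ → ℕ) → ℕ → ℕ} (hg : UF g)
    (hf : UF (fun x e => f x (fun i => e (i + 1)) (e 0))) :
    UF (fun x e => f x e (g x e)) := UF.lett hg hf

/-- Substitution. -/
theorem UF.subst_tm : ∀ (t : Tm Γ) (G : ℕ → List Γ → (ℕ → ℕ) → ℕ), (∀ i, UF (G i)) →
    UF (fun x e => t.eval x (fun i => G i x e))
  | .var i, G, hG => hG i
  | .const c, _, _ => UF.const c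
  | .len, _, _ => UF.len
  | .sym a t, G, hG => UF.congr (UP.sym a (UF.subst_tm t G hG)) fun x e => by
    simp only [Tm.eval]
    split_ifs <;> rfl
  | .add s t, G, hG => (UF.subst_tm s G hG).add (UF.subst_tm t G hG)
  | .sub s t, G, hG => (UF.subst_tm s G hG).sub (UF.subst_tm t G hG)
  | .sum b t, G, hG => by
    have h := UF.subst_tm t (fun i x e => Nat.casesOn i (e 0) (fun j => G j x (fun k => e (k + 1))))
      (fun i => by
        cases i with
        | zero => exact UF.var 0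
        | succ j => exact UF.ren (fun k => k + 1) (hG j))
    refine (UF.sum' (UF.subst_tm b G hG) h).congr fun x e => ?_
    simp only [Tm.eval]
    refine Finset.sum_congr rfl fun i _ => ?_
    congr 1
    funext j
    cases j <;> rfl
  | .lett s t, G, hG => by
    have h := UF.subst_tm t (fun i x e => Nat.casesOn i (s.eval x (fun i => G i x e))
      (fun j => G j x e)) (fun i => by
        cases i with
        | zero => exact UF.subst_tm s G hG
        | succ j => exact hG j)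
    refine h.congr fun x e => ?_
    simp only [Tm.eval]
    congr 1
    funext j
    cases j <;> rfl
  | .ren σ t, G, hG => UF.subst_tm t (fun i => G (σ i)) (fun i => hG (σ i))

theorem UF.subst {f : List Γ → (ℕ → ℕ) → ℕ} (hf : UF f) (G : ℕ → List Γ → (ℕ → ℕ) → ℕ)
    (hG : ∀ i, UF (G i)) : UF (fun x e => f x (fun i => G i x e)) := by
  obtain ⟨t, ht⟩ := hf
  exact (UF.subst_tm t G hG).congr fun x e => ht _ _

theorem UF.mul {f g : List Γ → (ℕ → ℕ) → ℕ} (hf : UF f) (hg : UF g) :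
    UF (fun x e => f x e * g x e) := by
  refine (UF.sum' hf (UF.ren (fun i => i + 1) hg)).congr fun x e => ?_
  simp

theorem UP.not {P : List Γ → (ℕ → ℕ) → Prop} (hP : UP P) : UP (fun x e => ¬ P x e) := by
  refine ((UF.const 1).sub hP).congr fun x e => ?_
  by_cases h : P x e <;> simp [h]

theorem UP.and {P Q : List Γ → (ℕ → ℕ) → Prop} (hP : UP P) (hQ : UP Q) :
    UP (fun x e => P x e ∧ Q x e) := by
  refine (UF.mul hP hQ).congr fun x e => ?_
  by_cases h : P x e <;> by_cases h' : Q x e <;> simp [h, h']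

theorem UP.or {P Q : List Γ → (ℕ → ℕ) → Prop} (hP : UP P) (hQ : UP Q) :
    UP (fun x e => P x e ∨ Q x e) := by
  refine (hP.not.and hQ.not).not.congr fun x e => ?_
  tauto

theorem UP.imp {P Q : List Γ → (ℕ → ℕ) → Prop} (hP : UP P) (hQ : UP Q) :
    UP (fun x e => P x e → Q x e) := by
  refine (hP.not.or hQ).congr fun x e => ?_
  tauto

theorem UP.iff {P Q : List Γ → (ℕ → ℕ) → Prop} (hP : UP P) (hQ : UP Q) :
    UP (fun x e => P x e ↔ Q x e) := by
  refine ((hP.imp hQ).and (hQ.imp hP)).congr fun x e => ?_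
  tauto

theorem UP.true : UP (Γ := Γ) (fun _ _ => True) := (UF.const 1).congr fun x e => by simp

theorem UP.false : UP (Γ := Γ) (fun _ _ => False) := (UF.const 0).congr fun x e => by simp

theorem UP.const (p : Prop) : UP (Γ := Γ) (fun _ _ => p) := by
  by_cases hp : p
  · simpa [hp] using UP.true (Γ := Γ)
  · simpa [hp] using UP.false (Γ := Γ)

theorem UP.le {f g : List Γ → (ℕ → ℕ) → ℕ} (hf : UF f) (hg : UF g) :
    UP (fun x e => f x e ≤ g x e) := by
  refine ((UF.const 1).sub (hf.sub hg)).congr fun x e => ?_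
  split_ifs <;> omega

theorem UP.lt {f g : List Γ → (ℕ → ℕ) → ℕ} (hf : UF f) (hg : UF g) :
    UP (fun x e => f x e < g x e) := (UP.le (hf.add (UF.const 1)) hg).congr fun x e => by omega

theorem UP.eq {f g : List Γ → (ℕ → ℕ) → ℕ} (hf : UF f) (hg : UF g) :
    UP (fun x e => f x e = g x e) :=
  ((UP.le hf hg).and (UP.le hg hf)).congr fun x e => by omega

theorem UP.ne {f g : List Γ → (ℕ → ℕ) → ℕ} (hf : UF f) (hg : UF g) :
    UP (fun x e => f x e ≠ g x e) := (UP.eq hf hg).not

theorem UF.ite {P : List Γ → (ℕ → ℕ) → Prop} {f g : List Γ → (ℕ → ℕ) → ℕ}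
    {inst : ∀ x e, Decidable (P x e)} (hP : UP P) (hf : UF f) (hg : UF g) :
    UF (fun x e => @ite ℕ (P x e) (inst x e) (f x e) (g x e)) := by
  refine ((UF.mul hP hf).add (UF.mul hP.not hg)).congr fun x e => ?_
  by_cases h : P x e <;> simp [h]

theorem UF.iteC {P : List Γ → (ℕ → ℕ) → Prop} {f g : List Γ → (ℕ → ℕ) → ℕ}
    (hP : UP P) (hf : UF f) (hg : UF g) :
    UF (fun x e => @_root_.ite ℕ (P x e) (Classical.propDecidable (P x e)) (f x e) (g x e)) :=
  UF.ite hP hf hg

/-- Membership in the class of predicates from a term which is non-zero exactly on it. -/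
theorem UP.of_ne_zero {P : List Γ → (ℕ → ℕ) → Prop} {f : List Γ → (ℕ → ℕ) → ℕ} (hf : UF f)
    (h : ∀ x e, P x e ↔ f x e ≠ 0) : UP P :=
  (UP.ne hf (UF.const 0)).congr fun x e => (h x e).symm

theorem UP.bex {b : List Γ → (ℕ → ℕ) → ℕ} {P : List Γ → (ℕ → ℕ) → ℕ → Prop} (hb : UF b)
    (hP : UP (fun x e => P x (fun i => e (i + 1)) (e 0))) :
    UP (fun x e => ∃ i, i < b x e ∧ P x e i) := by
  classical
  refine UP.of_ne_zero (UF.sum (f := fun x e i => if P x e i then 1 else 0) hb
    (hP.congr fun x e => by simp)) fun x e => ?_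
  rw [Ne, Finset.sum_eq_zero_iff]
  simp

theorem UP.ball {b : List Γ → (ℕ → ℕ) → ℕ} {P : List Γ → (ℕ → ℕ) → ℕ → Prop} (hb : UF b)
    (hP : UP (fun x e => P x (fun i => e (i + 1)) (e 0))) :
    UP (fun x e => ∀ i, i < b x e → P x e i) := by
  refine (UP.bex (P := fun x e i => ¬ P x e i) hb hP.not).not.congr fun x e => ?_
  push Not
  rfl

theorem UF.div {f g : List Γ → (ℕ → ℕ) → ℕ} (hf : UF f) (hg : UF g) :
    UF (fun x e => f x e / g x e) := by
  classical
  have h1 : UP (fun x (e : ℕ → ℕ) => 0 < g x (fun i => e (i + 1)) ∧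
      (e 0 + 1) * g x (fun i => e (i + 1)) ≤ f x (fun i => e (i + 1))) :=
    (UP.lt (UF.const 0) (UF.ren (fun i => i + 1) hg)).and
      (UP.le (((UF.var 0).add (UF.const 1)).mul (UF.ren (fun i => i + 1) hg))
        (UF.ren (fun i => i + 1) hf))
  refine (UF.sum (f := fun x e i => if 0 < g x e ∧ (i + 1) * g x e ≤ f x e then 1 else 0) hf
    (UF.congr h1 fun x e => by simp)).congr fun x e => ?_
  rw [Finset.sum_boole]
  simp only [Nat.cast_id]
  rcases Nat.eq_zero_or_pos (g x e) with h | h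
  · simp [h]
  · have : (Finset.range (f x e)).filter (fun i => 0 < g x e ∧ (i + 1) * g x e ≤ f x e) =
        Finset.range (f x e / g x e) := by
      ext i
      simp only [Finset.mem_filter, Finset.mem_range, h, true_and]
      rw [← Nat.le_div_iff_mul_le h]
      constructor
      · rintro ⟨_, h2⟩; omega
      · intro h2
        have := Nat.div_le_self (f x e) (g x e)
        omega
    rw [this, Finset.card_range]

theorem UF.mod {f g : List Γ → (ℕ → ℕ) → ℕ} (hf : UF f) (hg : UF g) :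
    UF (fun x e => f x e % g x e) := by
  refine (hf.sub (hg.mul (hf.div hg))).congr fun x e => ?_
  have := Nat.div_add_mod (f x e) (g x e)
  omega

theorem UF.min {f g : List Γ → (ℕ → ℕ) → ℕ} (hf : UF f) (hg : UF g) :
    UF (fun x e => min (f x e) (g x e)) :=
  (UF.ite (inst := fun _ _ => Nat.decLe _ _) (UP.le hf hg) hf hg).congr fun x e => by
    rw [min_def]

theorem UF.max {f g : List Γ → (ℕ → ℕ) → ℕ} (hf : UF f) (hg : UF g) :
    UF (fun x e => max (f x e) (g x e)) :=
  (UF.ite (inst := fun _ _ => Nat.decLe _ _) (UP.le hf hg) hg hf).congr fun x e => by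
    rw [max_def]

/-- Finite sums at the meta level. -/
theorem UF.fsum {ι : Type*} (s : Finset ι) {F : ι → List Γ → (ℕ → ℕ) → ℕ}
    (hF : ∀ a ∈ s, UF (F a)) : UF (fun x e => ∑ a ∈ s, F a x e) := by
  classical
  induction s using Finset.induction_on with
  | empty => simpa using UF.const (Γ := Γ) 0
  | insert a s ha ih =>
    refine ((hF a (Finset.mem_insert_self a s)).add (ih fun b hb =>
      hF b (Finset.mem_insert_of_mem hb))).congr fun x e => ?_
    rw [Finset.sum_insert ha]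

/-- Finite tables. -/
theorem UF.table (T : ℕ → ℕ) (K : ℕ) {f : List Γ → (ℕ → ℕ) → ℕ} (hf : UF f) :
    UF (fun x e => if f x e < K then T (f x e) else 0) := by
  classical
  refine (UF.fsum (Finset.range K) (F := fun j x e => if f x e = j then T j else 0)
    (fun j _ => UF.ite (inst := fun _ _ => _) (UP.eq hf (UF.const j)) (UF.const (T j))
      (UF.const 0))).congr fun x e => ?_
  rw [Finset.sum_ite_eq]
  simp

/-- Finite tables with arguments known to be small. -/
theorem UF.table' (T : ℕ → ℕ) (K : ℕ) (hT : ∀ k, K ≤ k → T k = 0) {f : List Γ → (ℕ → ℕ) → ℕ}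
    (hf : UF f) : UF (fun x e => T (f x e)) :=
  (UF.table T K hf).congr fun x e => by
    split_ifs with h
    · rfl
    · exact (hT _ (not_lt.1 h)).symm

/-- Finite tables with two arguments. -/
theorem UF.table₂ (T : ℕ → ℕ → ℕ) (K L : ℕ) {f g : List Γ → (ℕ → ℕ) → ℕ} (hf : UF f)
    (hg : UF g) : UF (fun x e => if f x e < K ∧ g x e < L then T (f x e) (g x e) else 0) := by
  classical
  refine (UF.fsum (Finset.range K ×ˢ Finset.range L)
    (F := fun j x e => if f x e = j.1 ∧ g x e = j.2 then T j.1 j.2 else 0)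
    (fun j _ => UF.ite (inst := fun _ _ => _) ((UP.eq hf (UF.const j.1)).and
      (UP.eq hg (UF.const j.2))) (UF.const (T j.1 j.2)) (UF.const 0))).congr fun x e => ?_
  have h1 : ∀ j : ℕ × ℕ, (if f x e = j.1 ∧ g x e = j.2 then T j.1 j.2 else 0) =
      if (f x e, g x e) = j then T j.1 j.2 else 0 := fun j => by simp [Prod.ext_iff]
  rw [Finset.sum_congr rfl (fun j _ => h1 j), Finset.sum_ite_eq]
  simp [Finset.mem_product]

theorem UF.pow {f : List Γ → (ℕ → ℕ) → ℕ} (hf : UF f) : ∀ n : ℕ, UF (fun x e => f x e ^ n)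
  | 0 => (UF.const 1).congr fun x e => by simp
  | n + 1 => ((UF.pow hf n).mul hf).congr fun x e => by rw [pow_succ]

theorem UF.poly (P : Polynomial ℕ) {f : List Γ → (ℕ → ℕ) → ℕ} (hf : UF f) :
    UF (fun x e => P.eval (f x e)) := by
  induction P using Polynomial.induction_on with
  | C a => simpa using UF.const a
  | add p q hp hq => simpa using hp.add hq
  | monomial n a h =>
    refine ((UF.const a).mul (hf.pow (n + 1))).congr fun x e => ?_
    simp

/-- Functions of the input alone. -/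
theorem UF.comp₁ {f : List Γ → ℕ → ℕ} (hf : UF (fun x e => f x (e 0)))
    {g : List Γ → (ℕ → ℕ) → ℕ} (hg : UF g) : UF (fun x e => f x (g x e)) :=
  hf.subst (fun _ => g) (fun _ => hg)

theorem UF.comp₂ {f : List Γ → ℕ → ℕ → ℕ} (hf : UF (fun x e => f x (e 0) (e 1)))
    {g h : List Γ → (ℕ → ℕ) → ℕ} (hg : UF g) (hh : UF h) :
    UF (fun x e => f x (g x e) (h x e)) :=
  hf.subst (fun i => Nat.casesOn i g (fun _ => h)) (fun i => by cases i; exacts [hg, hh])

theorem UF.comp₃ {f : List Γ → ℕ → ℕ → ℕ → ℕ} (hf : UF (fun x e => f x (e 0) (e 1) (e 2)))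
    {g h k : List Γ → (ℕ → ℕ) → ℕ} (hg : UF g) (hh : UF h) (hk : UF k) :
    UF (fun x e => f x (g x e) (h x e) (k x e)) :=
  hf.subst (fun i => Nat.casesOn i g (fun i => Nat.casesOn i h (fun _ => k)))
    (fun i => by rcases i with _ | _ | i; exacts [hg, hh, hk])

theorem UP.comp₁ {P : List Γ → ℕ → Prop} (hP : UP (fun x e => P x (e 0)))
    {g : List Γ → (ℕ → ℕ) → ℕ} (hg : UF g) : UP (fun x e => P x (g x e)) := by
  classical
  exact UF.comp₁ (f := fun x a => if P x a then 1 else 0) (hP.congr fun _ _ => Iff.rfl) hg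

theorem UP.comp₂ {P : List Γ → ℕ → ℕ → Prop} (hP : UP (fun x e => P x (e 0) (e 1)))
    {g h : List Γ → (ℕ → ℕ) → ℕ} (hg : UF g) (hh : UF h) :
    UP (fun x e => P x (g x e) (h x e)) := by
  classical
  exact UF.comp₂ (f := fun x a b => if P x a b then 1 else 0) (hP.congr fun _ _ => Iff.rfl) hg hh

theorem UP.comp₃ {P : List Γ → ℕ → ℕ → ℕ → Prop} (hP : UP (fun x e => P x (e 0) (e 1) (e 2)))
    {g h k : List Γ → (ℕ → ℕ) → ℕ} (hg : UF g) (hh : UF h) (hk : UF k) :
    UP (fun x e => P x (g x e) (h x e) (k x e)) := by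
  classical
  exact UF.comp₃ (f := fun x a b c => if P x a b c then 1 else 0) (hP.congr fun _ _ => Iff.rfl)
    hg hh hk

end Pool.Agent.PT
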