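import Mathlib
import Pool.Agent.PT.UF
import Pool.Agent.PT.NPDefs

/-!
# Polynomial time reductions and verifiers from the classes `UF` and `UP`
-/

set_option autoImplicit false

namespace Pool.Agent.PT

open Turing Computability

/-- Words of bits given by a predicate are polynomial time computable. -/
theorem polyTime_bits {Γ : Type} [Fintype Γ] {M : List Γ → ℕ} {P : List Γ → ℕ → Prop}
    (hM : UF (fun x _ => M x)) (hP : UP (fun x e => P x (e 0))) (f : List Γ → List Bool)
    (g : List Γ → ℕ → Bool) (hg : ∀ x i, g x i = true ↔ P x i)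
    (hf : ∀ x, f x = (List.range (M x)).map (g x)) : PolyTime f := by
  classical
  obtain ⟨m, hm⟩ := hM
  obtain ⟨t, ht⟩ := hP
  refine polyTime_of_terms _ _ f m t 1 (fun v => decide (v ≠ 0)) fun x => ?_
  have e1 : (encodingList Bool).encode (f x) = f x := rfl
  have e2 : (encodingList Γ).encode x = x := rfl
  rw [e1, e2, hf x, hm x]
  refine List.map_congr_left fun i _ => ?_
  rw [ht x]
  have h1 := hg x i
  by_cases h : P x i
  · rw [h1.2 h]; simp [h]
  · have h2 : g x i = false := by
      by_contra hcon
      exact h (h1.1 (by simpa using hcon))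
    rw [h2]; simp [h]

/-- Predicates in the class `UP` are polynomial time decidable. -/
theorem polyTime_bool {Γ α : Type} [Fintype Γ] (ea : α → List Γ) {P : List Γ → Prop}
    (hP : UP (fun x _ => P x)) (f : α → Bool) (hf : ∀ a, f a = true ↔ P (ea a)) :
    Nonempty (TM2ComputableInPolyTime ea encodeBool f) := by
  classical
  obtain ⟨t, ht⟩ := hP
  refine polyTime_of_terms ea _ f (Tm.const 1) t 1 (fun v => decide (v ≠ 0)) fun x => ?_
  have e1 : (Tm.const 1 : Tm Γ).eval (ea x) (fun _ => 0) = 1 := rfl
  rw [e1]
  simp only [ht]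
  by_cases h : P (ea x)
  · have := (hf x).2 h
    simp [encodeBool, this, h]
  · have h2 : f x = false := by
      by_contra hcon
      exact h ((hf x).1 (by simpa using hcon))
    simp [encodeBool, h2, h]

end Pool.Agent.PT
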