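import Mathlib

/-!
# Micro-steps of Mathlib's stack machines, and their coding by cells holding natural numbers

A run of a machine is coded by configurations `c : ℕ → ℕ`: cell `0` holds (the code of) the
control, i.e. the statement being executed together with the internal variable, and cell
`1 + i * κ + k` holds the `i`-th symbol from the top of stack `k`.
-/

set_option autoImplicit false
set_option backward.isDefEq.respectTransparency false

namespace Pool.Agent.PT

open Turing
open Function (update)

/-! ### Coded machines -/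

/-- Coded multi-stack machines. -/
structure CM where
  M0 : ℕ
  κ : ℕ
  κpos : 0 < κ
  stk : ℕ → ℕ
  op : ℕ → ℕ
  nx : ℕ → ℕ → ℕ
  stk_lt : ∀ a, stk a < κ
  op_lt : ∀ a, op a < M0 + 2
  nx_lt : ∀ a b, nx a b < M0
  stk_zero : ∀ a, M0 ≤ a → stk a = 0
  op_zero : ∀ a, M0 ≤ a → op a = 0
  nx_zero : ∀ a b, ¬ (a < M0 ∧ b < M0) → nx a b = 0

namespace CM

variable (C : CM)

/-- The cell read in order to determine cell `pos`, when the control is `a`. -/
def R (pos a : ℕ) : ℕ :=
  if pos = 0 then 1 + C.stk a
  else if (pos - 1) % C.κ = C.stk a then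
    (if C.op a = 0 then pos
     else if C.op a = 1 then pos + C.κ
     else if pos - 1 < C.κ then pos else pos - C.κ)
  else pos

/-- The new value of cell `pos`, when the control is `a` and the value read is `b`. -/
def V (pos a b : ℕ) : ℕ :=
  if pos = 0 then C.nx a b
  else if (pos - 1) % C.κ = C.stk a ∧ 2 ≤ C.op a ∧ pos - 1 < C.κ then C.op a - 2
  else b

/-- One step. -/
def step (c : ℕ → ℕ) : ℕ → ℕ := fun pos => C.V pos (c 0) (c (C.R pos (c 0)))

theorem R_le (pos a : ℕ) : C.R pos a ≤ pos + C.κ := by
  have := C.stk_lt a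
  have := C.κpos
  unfold R
  split_ifs <;> omega

theorem V_lt (pos a b : ℕ) (hb : b < C.M0) : C.V pos a b < C.M0 := by
  have h1 := C.nx_lt a b
  have h2 := C.op_lt a
  unfold V
  split_ifs <;> omega

theorem step_lt (c : ℕ → ℕ) (hc : ∀ p, c p < C.M0) : ∀ pos, C.step c pos < C.M0 :=
  fun _ => C.V_lt _ _ _ (hc _)

theorem iter_lt (c : ℕ → ℕ) (hc : ∀ p, c p < C.M0) (t : ℕ) : ∀ pos, C.step^[t] c pos < C.M0 := by
  induction t with
  | zero => exact hc
  | succ t ih =>
    intro p
    rw [Function.iterate_succ_apply']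
    exact C.step_lt _ ih p

end CM

/-! ### Micro-steps -/

section micro

variable {K : Type} [DecidableEq K] {Γ : K → Type} {Λ σ : Type}

/-- Micro configurations. -/
structure MCfg (Γ : K → Type) (Λ σ : Type) where
  s : Option (TM2.Stmt Γ Λ σ)
  v : σ
  S : ∀ k, List (Γ k)

/-- Micro-steps. -/
def mstep (M : Λ → TM2.Stmt Γ Λ σ) : MCfg Γ Λ σ → MCfg Γ Λ σ
  | ⟨none, v, S⟩ => ⟨none, v, S⟩
  | ⟨some (.push k f q), v, S⟩ => ⟨some q, v, update S k (f v :: S k)⟩
  | ⟨some (.peek k f q), v, S⟩ => ⟨some q, f v (S k).head?, S⟩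
  | ⟨some (.pop k f q), v, S⟩ => ⟨some q, f v (S k).head?, update S k (S k).tail⟩
  | ⟨some (.load a q), v, S⟩ => ⟨some q, a v, S⟩
  | ⟨some (.branch p q₁ q₂), v, S⟩ => ⟨some (cond (p v) q₁ q₂), v, S⟩
  | ⟨some (.goto l), v, S⟩ => ⟨some (M (l v)), v, S⟩
  | ⟨some .halt, v, S⟩ => ⟨none, v, S⟩

/-- Size of statements. -/
def ssize : TM2.Stmt Γ Λ σ → ℕ
  | .push _ _ q => ssize q + 1
  | .peek _ _ q => ssize q + 1
  | .pop _ _ q => ssize q + 1
  | .load _ q => ssize q + 1
  | .branch _ q₁ q₂ => ssize q₁ + ssize q₂ + 1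
  | .goto _ => 1
  | .halt => 1

/-- The micro configuration of a configuration. -/
def toM (M : Λ → TM2.Stmt Γ Λ σ) (c : TM2.Cfg Γ Λ σ) : MCfg Γ Λ σ :=
  ⟨c.l.map M, c.var, c.stk⟩

theorem msteps_stmt (M : Λ → TM2.Stmt Γ Λ σ) : ∀ (q : TM2.Stmt Γ Λ σ) (v : σ)
    (S : ∀ k, List (Γ k)), ∃ d ≤ ssize q, (mstep M)^[d] ⟨some q, v, S⟩ =
      toM M (TM2.stepAux q v S)
  | .push k f q, v, S => by
    obtain ⟨d, hd, h⟩ := msteps_stmt M q v (update S k (f v :: S k))
    exact ⟨d + 1, by simpa [ssize] using hd, by rw [Function.iterate_succ_apply]; exact h⟩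
  | .peek k f q, v, S => by
    obtain ⟨d, hd, h⟩ := msteps_stmt M q (f v (S k).head?) S
    exact ⟨d + 1, by simpa [ssize] using hd, by rw [Function.iterate_succ_apply]; exact h⟩
  | .pop k f q, v, S => by
    obtain ⟨d, hd, h⟩ := msteps_stmt M q (f v (S k).head?) (update S k (S k).tail)
    exact ⟨d + 1, by simpa [ssize] using hd, by rw [Function.iterate_succ_apply]; exact h⟩
  | .load a q, v, S => by
    obtain ⟨d, hd, h⟩ := msteps_stmt M q (a v) S
    exact ⟨d + 1, by simpa [ssize] using hd, by rw [Function.iterate_succ_apply]; exact h⟩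
  | .branch p q₁ q₂, v, S => by
    cases hp : p v with
    | true =>
      obtain ⟨d, hd, h⟩ := msteps_stmt M q₁ v S
      refine ⟨d + 1, by simp only [ssize]; omega, ?_⟩
      rw [Function.iterate_succ_apply]
      simp only [mstep, hp, cond_true, TM2.stepAux]
      exact h
    | false =>
      obtain ⟨d, hd, h⟩ := msteps_stmt M q₂ v S
      refine ⟨d + 1, by simp only [ssize]; omega, ?_⟩
      rw [Function.iterate_succ_apply]
      simp only [mstep, hp, cond_false, TM2.stepAux]
      exact h
  | .goto l, v, S => ⟨1, le_rfl, rfl⟩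
  | .halt, v, S => ⟨1, le_rfl, rfl⟩

theorem msteps_halted (M : Λ → TM2.Stmt Γ Λ σ) (v : σ) (S : ∀ k, List (Γ k)) (n : ℕ) :
    (mstep M)^[n] ⟨none, v, S⟩ = ⟨none, v, S⟩ := by
  induction n with
  | zero => rfl
  | succ n ih => rw [Function.iterate_succ_apply]; exact ih

/-- The constant of simulation. -/
noncomputable def bigsize [Fintype Λ] (M : Λ → TM2.Stmt Γ Λ σ) : ℕ := ∑ l, ssize (M l)

omit [DecidableEq K] in
theorem ssize_le_bigsize [Fintype Λ] (M : Λ → TM2.Stmt Γ Λ σ) (l : Λ) :
    ssize (M l) ≤ bigsize M :=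
  Finset.single_le_sum (f := fun l => ssize (M l)) (fun _ _ => Nat.zero_le _) (Finset.mem_univ l)

theorem bind_iter_none {α : Type*} (f : α → Option α) (n : ℕ) :
    (flip bind f)^[n] (none : Option α) = none := by
  induction n with
  | zero => rfl
  | succ n ih => rw [Function.iterate_succ_apply]; exact ih

theorem msteps_run [Fintype Λ] (M : Λ → TM2.Stmt Γ Λ σ) : ∀ (n : ℕ) (c c' : TM2.Cfg Γ Λ σ),
    (flip bind (TM2.step M))^[n] (some c) = some c' →
      ∃ d ≤ n * bigsize M, (mstep M)^[d] (toM M c) = toM M c'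
  | 0, c, c', h => ⟨0, by simp, by
      have : c = c' := by simpa using h
      rw [this]; rfl⟩
  | n + 1, c, c', h => by
    rw [Function.iterate_succ_apply] at h
    change (flip bind (TM2.step M))^[n] (TM2.step M c) = some c' at h
    obtain ⟨l, v, S⟩ := c
    cases l with
    | none =>
      rw [TM2.step, bind_iter_none] at h
      exact absurd h (by simp)
    | some l =>
      rw [TM2.step] at h
      obtain ⟨d, hd, hd'⟩ := msteps_run M n _ c' h
      obtain ⟨d₀, h₀, h₀'⟩ := msteps_stmt M (M l) v S
      refine ⟨d + d₀, ?_, ?_⟩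
      · have := ssize_le_bigsize M l
        have e : (n + 1) * bigsize M = n * bigsize M + bigsize M := by ring
        omega
      · rw [Function.iterate_add_apply]
        change (mstep M)^[d] ((mstep M)^[d₀] ⟨some (M l), v, S⟩) = _
        rw [h₀', hd']

end micro

/-! ### Coding a machine -/

section coding

variable (tm : FinTM2)

/-- The statements that can occur. -/
noncomputable def FF : Finset (Option (TM2.Stmt tm.Γ tm.Λ tm.σ)) :=
  letI := tm.ΛFin
  TM2.stmts tm.m Finset.univ

theorem none_mem_FF : none ∈ FF tm := by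
  simp [FF, TM2.stmts]

theorem main_mem_FF (l : tm.Λ) : some (tm.m l) ∈ FF tm := by
  let _ := tm.ΛFin
  simp only [FF, TM2.stmts, Finset.mem_insertNone, Finset.mem_biUnion, Option.mem_def,
    Option.some.injEq, forall_eq']
  exact ⟨l, Finset.mem_univ _, TM2.stmts₁_self⟩

theorem trans_mem_FF {q₁ q₂ : TM2.Stmt tm.Γ tm.Λ tm.σ} (h : q₁ ∈ TM2.stmts₁ q₂)
    (h2 : some q₂ ∈ FF tm) : some q₁ ∈ FF tm := TM2.stmts_trans h h2

/-- The micro steps do not leave the set of statements that can occur. -/
theorem mstep_mem_FF (c : MCfg tm.Γ tm.Λ tm.σ) (h : c.s ∈ FF tm) : (mstep tm.m c).s ∈ FF tm := by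
  obtain ⟨s, v, S⟩ := c
  rcases s with _ | q
  · exact none_mem_FF tm
  · cases q with
    | push k f q =>
      exact trans_mem_FF tm (by
        simp only [TM2.stmts₁, Finset.mem_insert]; right; exact TM2.stmts₁_self) h
    | peek k f q =>
      exact trans_mem_FF tm (by
        simp only [TM2.stmts₁, Finset.mem_insert]; right; exact TM2.stmts₁_self) h
    | pop k f q =>
      exact trans_mem_FF tm (by
        simp only [TM2.stmts₁, Finset.mem_insert]; right; exact TM2.stmts₁_self) h
    | load a q =>
      exact trans_mem_FF tm (by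
        simp only [TM2.stmts₁, Finset.mem_insert]; right; exact TM2.stmts₁_self) h
    | branch p q₁ q₂ =>
      refine trans_mem_FF tm ?_ h
      simp only [TM2.stmts₁, Finset.mem_insert, Finset.mem_union]
      right
      cases p v
      · right; exact TM2.stmts₁_self
      · left; exact TM2.stmts₁_self
    | goto l => exact main_mem_FF tm _
    | halt => exact none_mem_FF tm

/-- Controls. -/
abbrev Ct : Type := {s // s ∈ FF tm} × tm.σ

noncomputable instance : Fintype (Ct tm) :=
  letI := tm.σFin
  inferInstance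

/-- Number of controls. -/
noncomputable def nC : ℕ := Fintype.card (Ct tm)

/-- Number of input letters. -/
noncomputable def nG : ℕ := letI := tm.Γk₀Fin; Fintype.card (tm.Γ tm.k₀)

/-- Numbering of the input letters. -/
noncomputable def eG : tm.Γ tm.k₀ ≃ Fin (nG tm) := letI := tm.Γk₀Fin; Fintype.equivFin _

/-- Number of stacks. -/
noncomputable def nK : ℕ := letI := tm.kFin; Fintype.card tm.K

/-- Numbering of the stacks. -/
noncomputable def eK : tm.K ≃ Fin (nK tm) := letI := tm.kFin; Fintype.equivFin _

/-- Code of a control. -/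
noncomputable def ctl (c : Ct tm) : ℕ := (Fintype.equivFin (Ct tm) c).val

theorem ctl_lt (c : Ct tm) : ctl tm c < nC tm := (Fintype.equivFin (Ct tm) c).isLt

/-- Decoding controls. -/
noncomputable def decC (a : ℕ) : Option (Ct tm) :=
  if h : a < nC tm then some ((Fintype.equivFin (Ct tm)).symm ⟨a, h⟩) else none

theorem decC_ctl (c : Ct tm) : decC tm (ctl tm c) = some c := by
  unfold decC
  rw [dif_pos (ctl_lt tm c)]
  simp [ctl]

theorem decC_none {a : ℕ} (h : nC tm ≤ a) : decC tm a = none := dif_neg (not_lt.2 h)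

/-- Code of an input letter. -/
noncomputable def inC (g : tm.Γ tm.k₀) : ℕ := 1 + (eG tm g).val

open Classical in
/-- Decoding cells of the stacks. -/
noncomputable def decS (k : tm.K) (b : ℕ) : Option (tm.Γ k) :=
  if b = 0 then none
  else if h : b - 1 < nG tm then
    (if hk : tm.k₀ = k then some (hk ▸ (eG tm).symm ⟨b - 1, h⟩) else none)
  else match decC tm (b - 1 - nG tm) with
    | some (⟨some (.push k' f _), _⟩, v) => if hk : k' = k then some (hk ▸ f v) else none
    | _ => none

/-- Number of codes. -/
noncomputable def m0 : ℕ := 1 + nG tm + nC tm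

theorem decS_zero (k : tm.K) : decS tm k 0 = none := by simp [decS]

theorem decS_inC (g : tm.Γ tm.k₀) : decS tm tm.k₀ (inC tm g) = some g := by
  have h : inC tm g - 1 < nG tm := by unfold inC; have := (eG tm g).isLt; omega
  unfold decS
  rw [if_neg (by unfold inC; omega), dif_pos h]
  simp only [dite_true]
  congr 1
  have : (⟨inC tm g - 1, h⟩ : Fin (nG tm)) = eG tm g := by
    apply Fin.ext
    simp [inC]
  rw [this, Equiv.symm_apply_apply]

/-- The code of a symbol pushed by the control `a`. -/
theorem decS_push (k : tm.K) (f : tm.σ → tm.Γ k) (q : TM2.Stmt tm.Γ tm.Λ tm.σ) (v : tm.σ)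
    (h : some (TM2.Stmt.push k f q) ∈ FF tm) :
    decS tm k (1 + nG tm + ctl tm (⟨_, h⟩, v)) = some (f v) := by
  unfold decS
  rw [if_neg (by omega), dif_neg (by omega)]
  have e : 1 + nG tm + ctl tm (⟨some (TM2.Stmt.push k f q), h⟩, v) - 1 - nG tm =
    ctl tm (⟨some (TM2.Stmt.push k f q), h⟩, v) := by omega
  rw [e, decC_ctl]
  simp

/-- The stack a control looks at. -/
noncomputable def stkOf (a : ℕ) : ℕ :=
  match decC tm a with
  | some (⟨some (.push k _ _), _⟩, _) => (eK tm k).val
  | some (⟨some (.peek k _ _), _⟩, _) => (eK tm k).val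
  | some (⟨some (.pop k _ _), _⟩, _) => (eK tm k).val
  | _ => 0

/-- The operation of a control. -/
noncomputable def opOf (a : ℕ) : ℕ :=
  match decC tm a with
  | some (⟨some (.push _ _ _), _⟩, _) => 2 + (1 + nG tm + a)
  | some (⟨some (.pop _ _ _), _⟩, _) => 1
  | _ => 0

/-- The next statement and variable. -/
def nxt (s : Option (TM2.Stmt tm.Γ tm.Λ tm.σ)) (v : tm.σ) (rd : ∀ k, Option (tm.Γ k)) :
    Option (TM2.Stmt tm.Γ tm.Λ tm.σ) × tm.σ :=
  match s with
  | none => (none, v)
  | some (.push _ _ q) => (some q, v)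
  | some (.peek k f q) => (some q, f v (rd k))
  | some (.pop k f q) => (some q, f v (rd k))
  | some (.load a q) => (some q, a v)
  | some (.branch p q₁ q₂) => (some (cond (p v) q₁ q₂), v)
  | some (.goto l) => (some (tm.m (l v)), v)
  | some .halt => (none, v)

theorem mstep_s (c : MCfg tm.Γ tm.Λ tm.σ) : ((mstep tm.m c).s, (mstep tm.m c).v) =
    nxt tm c.s c.v (fun k => (c.S k).head?) := by
  obtain ⟨s, v, S⟩ := c
  rcases s with _ | q
  · rfl
  · cases q <;> rfl

open Classical in
/-- The code of the next control. -/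
noncomputable def nxOf (a b : ℕ) : ℕ :=
  if a < m0 tm ∧ b < m0 tm then
    match decC tm a with
    | none => 0
    | some c =>
      if h : (nxt tm c.1.1 c.2 (fun k => decS tm k b)).1 ∈ FF tm then
        ctl tm (⟨_, h⟩, (nxt tm c.1.1 c.2 (fun k => decS tm k b)).2)
      else 0
  else 0

/-- The coded machine. -/
noncomputable def cm : CM where
  M0 := m0 tm
  κ := nK tm
  κpos := (Nat.zero_le _).trans_lt (eK tm tm.k₀).isLt
  stk := stkOf tm
  op := opOf tm
  nx := nxOf tm
  stk_lt a := by
    have h0 : 0 < nK tm := (Nat.zero_le _).trans_lt (eK tm tm.k₀).isLt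
    unfold stkOf
    split <;> first | exact (eK tm _).isLt | exact h0
  op_lt a := by
    unfold opOf
    split
    · rename_i h
      have : a < nC tm := by
        by_contra hh
        rw [decC_none tm (not_lt.1 hh)] at h
        exact absurd h (by simp)
      unfold m0
      omega
    · unfold m0; omega
    · unfold m0; omega
  nx_lt a b := by
    unfold nxOf
    split
    · split
      · unfold m0; omega
      · split
        · exact lt_of_lt_of_le (ctl_lt tm _) (by unfold m0; omega)
        · unfold m0; omega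
    · unfold m0; omega
  stk_zero a h := by
    unfold stkOf
    rw [decC_none tm (by unfold m0 at h; omega)]
  op_zero a h := by
    unfold opOf
    rw [decC_none tm (by unfold m0 at h; omega)]
  nx_zero a b h := by
    unfold nxOf
    rw [if_neg h]

/-- The coding relation. -/
structure Rel (c : ℕ → ℕ) (m : MCfg tm.Γ tm.Λ tm.σ) : Prop where
  mem : m.s ∈ FF tm
  control : c 0 = ctl tm (⟨m.s, mem⟩, m.v)
  stk_eq : ∀ k i, decS tm k (c (1 + i * nK tm + (eK tm k).val)) = (m.S k)[i]?

theorem nxOf_eq (c : Ct tm) (b : ℕ) (hb : b < m0 tm) (rd : ∀ k, Option (tm.Γ k))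
    (hrd : (nxt tm c.1.1 c.2 (fun k => decS tm k b)) = nxt tm c.1.1 c.2 rd)
    (h : (nxt tm c.1.1 c.2 rd).1 ∈ FF tm) :
    nxOf tm (ctl tm c) b = ctl tm (⟨_, h⟩, (nxt tm c.1.1 c.2 rd).2) := by
  have hc := ctl_lt tm c
  have h1 : ctl tm c < m0 tm := by unfold m0; omega
  revert h
  rw [← hrd]
  intro h
  unfold nxOf
  rw [if_pos ⟨h1, hb⟩, decC_ctl]
  simp only
  rw [dif_pos h]

theorem mod_stack (i : ℕ) (k : tm.K) :
    (1 + i * nK tm + (eK tm k).val - 1) % nK tm = (eK tm k).val := by
  have : 1 + i * nK tm + (eK tm k).val - 1 = (eK tm k).val + nK tm * i := by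
    rw [Nat.mul_comm]; omega
  rw [this, Nat.add_mul_mod_self_left, Nat.mod_eq_of_lt (eK tm k).isLt]

theorem ctl_congr {c d : Ct tm} (h1 : c.1.1 = d.1.1) (h2 : c.2 = d.2) : ctl tm c = ctl tm d := by
  have : c = d := Prod.ext (Subtype.ext h1) h2
  rw [this]

/-- The control part of the simulation. -/
theorem rel_control (c : ℕ → ℕ) (hc : ∀ p, c p < m0 tm) (m : MCfg tm.Γ tm.Λ tm.σ)
    (h : Rel tm c m) (hF : (mstep tm.m m).s ∈ FF tm)
    (hrd : nxt tm m.s m.v (fun k => decS tm k (c (1 + stkOf tm (c 0)))) =
      nxt tm m.s m.v (fun k => (m.S k).head?)) :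
    (cm tm).step c 0 = ctl tm (⟨(mstep tm.m m).s, hF⟩, (mstep tm.m m).v) := by
  have hnxt := mstep_s tm m
  have e1 : (nxt tm m.s m.v (fun k => (m.S k).head?)).1 = (mstep tm.m m).s := by rw [← hnxt]
  have e2 : (nxt tm m.s m.v (fun k => (m.S k).head?)).2 = (mstep tm.m m).v := by rw [← hnxt]
  have hF' : (nxt tm m.s m.v (fun k => (m.S k).head?)).1 ∈ FF tm := by rw [e1]; exact hF
  have h2 := nxOf_eq tm (⟨m.s, h.mem⟩, m.v) (c (1 + stkOf tm (c 0))) (hc _)
    (fun k => (m.S k).head?) hrd hF'
  have h3 : (cm tm).step c 0 = nxOf tm (ctl tm (⟨m.s, h.mem⟩, m.v)) (c (1 + stkOf tm (c 0))) := by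
    rw [← h.control]
    rfl
  rw [h3, h2]
  exact ctl_congr tm e1 e2

/-- The coded machine simulates the micro steps. -/
theorem rel_step (c : ℕ → ℕ) (hc : ∀ p, c p < m0 tm) (m : MCfg tm.Γ tm.Λ tm.σ)
    (h : Rel tm c m) : Rel tm ((cm tm).step c) (mstep tm.m m) := by
  have hF := mstep_mem_FF tm m h.mem
  have hκ : 0 < nK tm := (Nat.zero_le _).trans_lt (eK tm tm.k₀).isLt
  obtain ⟨s, v, S⟩ := m
  have hctl := h.control
  have hstk := h.stk_eq
  have hdec : decC tm (c 0) = some (⟨s, h.mem⟩, v) := by rw [hctl, decC_ctl]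
  have htop : ∀ k, decS tm k (c (1 + (eK tm k).val)) = (S k).head? := by
    intro k
    have := hstk k 0
    simpa [List.head?_eq_getElem?] using this
  -- cells of stacks the machine does not touch
  have hkeep : ∀ (k : tm.K) (i : ℕ), (opOf tm (c 0) = 0 ∨ (eK tm k).val ≠ stkOf tm (c 0)) →
      (cm tm).step c (1 + i * nK tm + (eK tm k).val) = c (1 + i * nK tm + (eK tm k).val) := by
    intro k i hk
    have hmod := mod_stack tm i k
    have hR : (cm tm).R (1 + i * nK tm + (eK tm k).val) (c 0) =
        1 + i * nK tm + (eK tm k).val := by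
      unfold CM.R
      rw [if_neg (by omega)]
      change (if (1 + i * nK tm + (eK tm k).val - 1) % nK tm = stkOf tm (c 0) then
        (if opOf tm (c 0) = 0 then _ else _) else _) = _
      rw [hmod]
      rcases hk with hk | hk
      · rw [if_pos hk]; split_ifs <;> rfl
      · rw [if_neg hk]
    unfold CM.step CM.V
    rw [if_neg (by omega), hR]
    refine if_neg ?_
    rintro ⟨h1, h2, -⟩
    rcases hk with hk | hk
    · change 2 ≤ opOf tm (c 0) at h2
      omega
    · exact hk (hmod.symm.trans h1)
  have hkeep' : ∀ k : tm.K, (opOf tm (c 0) = 0 ∨ (eK tm k).val ≠ stkOf tm (c 0)) → ∀ i,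
      decS tm k ((cm tm).step c (1 + i * nK tm + (eK tm k).val)) = (S k)[i]? := by
    intro k hk i
    rw [hkeep k i hk]
    exact hstk k i
  rcases s with _ | q
  · refine ⟨hF, rel_control tm c hc _ h hF rfl, fun k i => hkeep' k (Or.inl ?_) i⟩
    unfold opOf; rw [hdec]
  · cases q with
    | push k f q =>
      have hst : stkOf tm (c 0) = (eK tm k).val := by unfold stkOf; rw [hdec]
      have hop : opOf tm (c 0) = 2 + (1 + nG tm + c 0) := by unfold opOf; rw [hdec]
      refine ⟨hF, rel_control tm c hc _ h hF rfl, fun k' i => ?_⟩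
      change decS tm k' _ = (update S k (f v :: S k) k')[i]?
      by_cases hk : k' = k
      · subst hk
        rw [Function.update_self]
        have hmod := mod_stack tm i k'
        have hlt := (eK tm k').isLt
        rcases i with _ | i
        · have hV : (cm tm).step c (1 + 0 * nK tm + (eK tm k').val) = 1 + nG tm + c 0 := by
            unfold CM.step CM.V
            rw [if_neg (by omega)]
            have h3 : 2 ≤ opOf tm (c 0) := by omega
            have h4 : 1 + 0 * nK tm + (eK tm k').val - 1 < nK tm := by omega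
            refine (if_pos ⟨hmod.trans hst.symm, h3, h4⟩).trans ?_
            change opOf tm (c 0) - 2 = _
            omega
          rw [hV, hctl, decS_push tm k' f q v h.mem]
          simp
        · have e1 : 1 + (i + 1) * nK tm + (eK tm k').val - nK tm =
              1 + i * nK tm + (eK tm k').val := by
            have : (i + 1) * nK tm = i * nK tm + nK tm := by ring
            omega
          have e2 : ¬ (1 + (i + 1) * nK tm + (eK tm k').val - 1 < nK tm) := by
            have : (i + 1) * nK tm = i * nK tm + nK tm := by ring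
            omega
          have hR : (cm tm).R (1 + (i + 1) * nK tm + (eK tm k').val) (c 0) =
              1 + i * nK tm + (eK tm k').val := by
            unfold CM.R
            rw [if_neg (by omega)]
            change (if (1 + (i + 1) * nK tm + (eK tm k').val - 1) % nK tm = stkOf tm (c 0) then
              (if opOf tm (c 0) = 0 then _ else if opOf tm (c 0) = 1 then _ else
                if 1 + (i + 1) * nK tm + (eK tm k').val - 1 < nK tm then _ else
                  1 + (i + 1) * nK tm + (eK tm k').val - nK tm) else _) = _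
            rw [hmod, hst, if_pos rfl, hop, if_neg (by omega), if_neg (by omega), if_neg e2, e1]
          have hV : (cm tm).step c (1 + (i + 1) * nK tm + (eK tm k').val) =
              c (1 + i * nK tm + (eK tm k').val) := by
            unfold CM.step CM.V
            rw [if_neg (by omega), hR]
            exact if_neg (fun h => e2 h.2.2)
          rw [hV, hstk k' i]
          simp
      · have hk' : (eK tm k').val ≠ stkOf tm (c 0) := by
          rw [hst]
          intro h'
          exact hk ((eK tm).injective (Fin.ext h'))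
        rw [Function.update_of_ne hk]
        exact hkeep' k' (Or.inr hk') i
    | peek k f q =>
      have hst : stkOf tm (c 0) = (eK tm k).val := by unfold stkOf; rw [hdec]
      refine ⟨hF, rel_control tm c hc _ h hF ?_, fun k i => hkeep' k (Or.inl ?_) i⟩
      · simp only [nxt]
        rw [hst, htop k]
      · unfold opOf; rw [hdec]
    | pop k f q =>
      have hst : stkOf tm (c 0) = (eK tm k).val := by unfold stkOf; rw [hdec]
      have hop : opOf tm (c 0) = 1 := by unfold opOf; rw [hdec]
      refine ⟨hF, rel_control tm c hc _ h hF ?_, fun k' i => ?_⟩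
      · simp only [nxt]
        rw [hst, htop k]
      · change decS tm k' _ = (update S k (S k).tail k')[i]?
        by_cases hk : k' = k
        · subst hk
          rw [Function.update_self]
          have hmod := mod_stack tm i k'
          have e1 : 1 + i * nK tm + (eK tm k').val + nK tm =
              1 + (i + 1) * nK tm + (eK tm k').val := by ring
          have hR : (cm tm).R (1 + i * nK tm + (eK tm k').val) (c 0) =
              1 + (i + 1) * nK tm + (eK tm k').val := by
            unfold CM.R
            rw [if_neg (by omega)]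
            change (if (1 + i * nK tm + (eK tm k').val - 1) % nK tm = stkOf tm (c 0) then
              (if opOf tm (c 0) = 0 then _ else if opOf tm (c 0) = 1 then
                1 + i * nK tm + (eK tm k').val + nK tm else _) else _) = _
            rw [hmod, hst, if_pos rfl, hop, if_neg (by omega), if_pos rfl, e1]
          have hV : (cm tm).step c (1 + i * nK tm + (eK tm k').val) =
              c (1 + (i + 1) * nK tm + (eK tm k').val) := by
            unfold CM.step CM.V
            rw [if_neg (by omega), hR]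
            refine if_neg (fun h => ?_)
            have h2 : 2 ≤ opOf tm (c 0) := h.2.1
            omega
          rw [hV, hstk k' (i + 1)]
          simp
        · have hk' : (eK tm k').val ≠ stkOf tm (c 0) := by
            rw [hst]
            intro h'
            exact hk ((eK tm).injective (Fin.ext h'))
          rw [Function.update_of_ne hk]
          exact hkeep' k' (Or.inr hk') i
    | load a q =>
      refine ⟨hF, rel_control tm c hc _ h hF rfl, fun k i => hkeep' k (Or.inl ?_) i⟩
      unfold opOf; rw [hdec]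
    | branch p q₁ q₂ =>
      refine ⟨hF, rel_control tm c hc _ h hF rfl, fun k i => hkeep' k (Or.inl ?_) i⟩
      unfold opOf; rw [hdec]
    | goto l =>
      refine ⟨hF, rel_control tm c hc _ h hF rfl, fun k i => hkeep' k (Or.inl ?_) i⟩
      unfold opOf; rw [hdec]
    | halt =>
      refine ⟨hF, rel_control tm c hc _ h hF rfl, fun k i => hkeep' k (Or.inl ?_) i⟩
      unfold opOf; rw [hdec]

theorem rel_iter (c : ℕ → ℕ) (hc : ∀ p, c p < m0 tm) (m : MCfg tm.Γ tm.Λ tm.σ)
    (h : Rel tm c m) (t : ℕ) : Rel tm ((cm tm).step^[t] c) ((mstep tm.m)^[t] m) := by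
  induction t with
  | zero => exact h
  | succ t ih =>
    rw [Function.iterate_succ_apply', Function.iterate_succ_apply']
    exact rel_step tm _ ((cm tm).iter_lt c hc t) _ ih

end coding

end Pool.Agent.PT
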