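import Mathlib
import Pool.Agent.PT.Micro

/-!
# Polynomial time deciders as coded machines
-/

set_option autoImplicit false
set_option backward.isDefEq.respectTransparency false

namespace Pool.Agent.PT

open Turing Computability
open Function (update)

/-- The coded initial configuration. -/
def initc {A : Type} (ini ks κ : ℕ) (code : A → ℕ) (y : List A) : ℕ → ℕ := fun pos =>
  if pos = 0 then ini
  else if (pos - 1) % κ = ks then (match y[(pos - 1) / κ]? with
    | some a => code a
    | none => 0)
  else 0

theorem initc_lt {A : Type} {ini ks κ M0 : ℕ} {code : A → ℕ} (h1 : ini < M0)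
    (h2 : ∀ a, code a < M0) (y : List A) (pos : ℕ) : initc ini ks κ code y pos < M0 := by
  unfold initc
  split_ifs
  · exact h1
  · split
    · exact h2 _
    · omega
  · omega

theorem rel_init (tm : FinTM2) (y : List (tm.Γ tm.k₀)) :
    Rel tm (initc (ctl tm (⟨some (tm.m tm.main), main_mem_FF tm tm.main⟩, tm.initialState))
      (eK tm tm.k₀).val (nK tm) (inC tm) y) (toM tm.m (initList tm y)) := by
  have hκ : 0 < nK tm := (Nat.zero_le _).trans_lt (eK tm tm.k₀).isLt
  refine ⟨main_mem_FF tm tm.main, rfl, fun k i => ?_⟩
  have hmod := mod_stack tm i k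
  have hdiv : (1 + i * nK tm + (eK tm k).val - 1) / nK tm = i := by
    have : 1 + i * nK tm + (eK tm k).val - 1 = (eK tm k).val + nK tm * i := by
      rw [Nat.mul_comm]; omega
    rw [this, Nat.add_mul_div_left _ _ hκ, Nat.div_eq_of_lt (eK tm k).isLt]
    simp
  unfold initc
  rw [if_neg (by omega), hmod, hdiv]
  by_cases hk : k = tm.k₀
  · subst hk
    rw [if_pos rfl]
    have e1 : (toM tm.m (initList tm y)).S tm.k₀ = y := by
      change (initList tm y).stk tm.k₀ = y
      simp [initList]
    rw [e1]
    cases hy : y[i]? with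
    | none => exact decS_zero tm _
    | some a => exact decS_inC tm a
  · have hk' : (eK tm k).val ≠ (eK tm tm.k₀).val := by
      intro h'
      exact hk ((eK tm).injective (Fin.ext h'))
    rw [if_neg hk']
    have e1 : (toM tm.m (initList tm y)).S k = [] := by
      change (initList tm y).stk k = []
      simp [initList, hk]
    rw [e1, decS_zero]
    simp

/-- **Polynomial time deciders as coded machines.** -/
theorem exists_cm {α A : Type} (ea : α → List A) (f : α → Bool)
    (h : TM2ComputableInPolyTime ea encodeBool f) :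
    ∃ (C : CM) (ini ks ko : ℕ) (code : A → ℕ) (acc : Set ℕ) (P : Polynomial ℕ),
      ini < C.M0 ∧ ks < C.κ ∧ ko < C.κ ∧ (∀ a, code a < C.M0) ∧ (∀ a, code a ≠ 0) ∧
      ∀ a : α, ∀ T, P.eval (ea a).length ≤ T →
        (f a = true ↔ (C.step^[T] (initc ini ks C.κ code (ea a))) (1 + ko) ∈ acc) := by
  classical
  obtain ⟨⟨tm, ein, eout⟩, time, hout⟩ := h
  have hm0 : ∀ c, ctl tm c < m0 tm := fun c => by
    have := ctl_lt tm c
    unfold m0; omega
  refine ⟨cm tm, ctl tm (⟨some (tm.m tm.main), main_mem_FF tm tm.main⟩, tm.initialState),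
    (eK tm tm.k₀).val, (eK tm tm.k₁).val, fun a => inC tm (ein.symm a),
    {b | decS tm tm.k₁ b = some (eout.symm true)},
    time * Polynomial.C (letI := tm.ΛFin; bigsize tm.m), hm0 _, (eK tm _).isLt, (eK tm _).isLt, ?_,
    fun a => (by unfold inC; omega : inC tm (ein.symm a) ≠ 0), ?_⟩
  · intro a
    change inC tm _ < m0 tm
    have := (eG tm (ein.symm a)).isLt
    unfold inC m0
    omega
  · intro a T hT
    let _ := tm.ΛFin
    obtain ⟨⟨n, hn⟩, hle⟩ := hout a
    obtain ⟨d, hd, hd'⟩ := msteps_run tm.m n _ _ hn
    set y := List.map ein.invFun (ea a) with hy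
    have hinit : initc (ctl tm (⟨some (tm.m tm.main), main_mem_FF tm tm.main⟩, tm.initialState))
        (eK tm tm.k₀).val (cm tm).κ (fun a => inC tm (ein.symm a)) (ea a) =
        initc (ctl tm (⟨some (tm.m tm.main), main_mem_FF tm tm.main⟩, tm.initialState))
        (eK tm tm.k₀).val (nK tm) (inC tm) y := by
      funext pos
      unfold initc
      congr 1
      change (if (pos - 1) % nK tm = _ then _ else _) = _
      congr 1
      rw [hy, List.getElem?_map]
      change (match (ea a)[(pos - 1) / nK tm]? with
        | some a => inC tm (ein.symm a)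
        | none => 0) = _
      cases (ea a)[(pos - 1) / nK tm]? <;> rfl
    rw [hinit]
    have hrel := rel_init tm y
    have hTd : d ≤ T := by
      refine hd.trans (le_trans ?_ hT)
      simp only [Polynomial.eval_mul, Polynomial.eval_C]
      exact Nat.mul_le_mul_right _ hle
    have hrelT := rel_iter tm _ (fun p => initc_lt (hm0 _) (fun g => by
      have := (eG tm g).isLt
      unfold inC m0
      omega) y p) _ hrel T
    have hT' : (mstep tm.m)^[T] (toM tm.m (initList tm y)) =
        toM tm.m (haltList tm (List.map eout.invFun (encodeBool (f a)))) := by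
      obtain ⟨e, rfl⟩ := Nat.exists_eq_add_of_le hTd
      rw [Nat.add_comm, Function.iterate_add_apply, hd']
      exact msteps_halted _ _ _ _
    rw [hT'] at hrelT
    have h1 := hrelT.stk_eq tm.k₁ 0
    have h2 : (toM tm.m (haltList tm (List.map eout.invFun (encodeBool (f a))))).S tm.k₁ =
        [eout.symm (f a)] := by
      change (haltList tm (List.map eout.invFun (encodeBool (f a)))).stk tm.k₁ = _
      simp [haltList, encodeBool]
    rw [h2] at h1
    simp only [zero_mul, add_zero, List.getElem?_cons_zero] at h1
    change f a = true ↔ decS tm tm.k₁ _ = some (eout.symm true)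
    rw [h1]
    simp

end Pool.Agent.PT
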