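import Mathlib
import Pool.Agent.PT.UF
import Pool.Agent.PT.Coded
import Pool.Agent.PT.NPDefs

/-!
# The Cook–Levin theorem, with clauses given by terms
-/

set_option autoImplicit false
set_option linter.unreachableTactic false
set_option linter.unusedTactic false

namespace Pool.Agent.PT

open Turing Computability

variable {Γ : Type}

/-- Truth of a literal: `2 v` is the atom `v`, and `2 v + 1` is its negation. -/
def lholds (α : ℕ → Prop) (l : ℕ) : Prop := if l % 2 = 0 then α (l / 2) else ¬ α (l / 2)

theorem lholds_pos (α : ℕ → Prop) (v : ℕ) : lholds α (2 * v) ↔ α v := by
  unfold lholds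
  rw [if_pos (by omega)]
  simp

theorem lholds_neg (α : ℕ → Prop) (v : ℕ) : lholds α (2 * v + 1) ↔ ¬ α v := by
  unfold lholds
  rw [if_neg (by omega)]
  have : (2 * v + 1) / 2 = v := by omega
  rw [this]

/-- Sets of clauses of width three given by terms. -/
def Rep (S : List Γ → (ℕ → Prop) → Prop) : Prop :=
  ∃ (n : List Γ → ℕ) (lit : List Γ → ℕ → ℕ → ℕ), UF (fun x _ => n x) ∧
    UF (fun x e => lit x (e 0) (e 1)) ∧
    ∀ x α, S x α ↔ ∀ c, c < n x → ∃ j, j < 3 ∧ lholds α (lit x c j)

theorem Rep.and {S T : List Γ → (ℕ → Prop) → Prop} (hS : Rep S) (hT : Rep T) :
    Rep (fun x α => S x α ∧ T x α) := by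
  obtain ⟨n, lit, h1, h2, h3⟩ := hS
  obtain ⟨m, lit', g1, g2, g3⟩ := hT
  have h2' : ∀ {f g : List Γ → (ℕ → ℕ) → ℕ}, UF f → UF g →
      UF (fun x e => lit x (f x e) (g x e)) := fun hf hg => UF.comp₂ h2 hf hg
  have g2' : ∀ {f g : List Γ → (ℕ → ℕ) → ℕ}, UF f → UF g →
      UF (fun x e => lit' x (f x e) (g x e)) := fun hf hg => UF.comp₂ g2 hf hg
  refine ⟨fun x => n x + m x, fun x c j => if c < n x then lit x c j else lit' x (c - n x) j,
    UF.add h1 g1, ?_, ?_⟩
  · refine UF.ite (UP.lt (UF.var 0) h1) h2 (g2' ((UF.var 0).sub h1) (UF.var 1))
  · intro x α
    beta_reduce
    rw [h3, g3]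
    constructor
    · rintro ⟨a, b⟩ c hc
      by_cases hcn : c < n x
      · obtain ⟨j, hj, h⟩ := a c hcn
        exact ⟨j, hj, by rw [if_pos hcn]; exact h⟩
      · obtain ⟨j, hj, h⟩ := b (c - n x) (by omega)
        exact ⟨j, hj, by rw [if_neg hcn]; exact h⟩
    · intro h
      refine ⟨fun c hc => ?_, fun c hc => ?_⟩
      · obtain ⟨j, hj, h'⟩ := h c (by omega)
        rw [if_pos hc] at h'
        exact ⟨j, hj, h'⟩
      · obtain ⟨j, hj, h'⟩ := h (n x + c) (by omega)
        rw [if_neg (by omega), Nat.add_sub_cancel_left] at h'
        exact ⟨j, hj, h'⟩

theorem forall_lt_mul {A B : ℕ} {Q : ℕ → ℕ → Prop} :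
    (∀ c, c < A * B → Q (c / B) (c % B)) ↔ ∀ a, a < A → ∀ b, b < B → Q a b := by
  constructor
  · intro h a ha b hb
    have h1 := h (a * B + b) (by
      have : (a + 1) * B ≤ A * B := Nat.mul_le_mul_right _ ha
      have e : (a + 1) * B = a * B + B := by ring
      omega)
    have hB : 0 < B := by omega
    have e1 : (a * B + b) / B = a := by
      rw [Nat.mul_comm, Nat.mul_add_div hB, Nat.div_eq_of_lt hb, Nat.add_zero]
    have e2 : (a * B + b) % B = b := by
      rw [Nat.mul_comm, Nat.mul_add_mod, Nat.mod_eq_of_lt hb]
    rwa [e1, e2] at h1
  · intro h c hc
    have hB : 0 < B := by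
      rcases Nat.eq_zero_or_pos B with h0 | h0
      · subst h0; simp at hc
      · exact h0
    exact h _ (Nat.div_lt_of_lt_mul (by rwa [Nat.mul_comm])) _ (Nat.mod_lt _ hB)

/-- Families of clauses with four parameters. -/
theorem Rep.fam {B₀ B₁ B₂ B₃ : List Γ → ℕ} {P : List Γ → ℕ → ℕ → ℕ → ℕ → Prop}
    {l₀ l₁ l₂ : List Γ → ℕ → ℕ → ℕ → ℕ → ℕ} (h₀ : UF (fun x _ => B₀ x)) (h₁ : UF (fun x _ => B₁ x))
    (h₂ : UF (fun x _ => B₂ x)) (h₃ : UF (fun x _ => B₃ x))
    (hP : UP (fun x e => P x (e 0) (e 1) (e 2) (e 3)))
    (hl₀ : UF (fun x e => l₀ x (e 0) (e 1) (e 2) (e 3)))
    (hl₁ : UF (fun x e => l₁ x (e 0) (e 1) (e 2) (e 3)))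
    (hl₂ : UF (fun x e => l₂ x (e 0) (e 1) (e 2) (e 3))) :
    Rep (fun x α => ∀ a, a < B₀ x → ∀ b, b < B₁ x → ∀ c, c < B₂ x → ∀ d, d < B₃ x →
      P x a b c d → lholds α (l₀ x a b c d) ∨ lholds α (l₁ x a b c d) ∨
        lholds α (l₂ x a b c d)) := by
  classical
  -- the decoding substitution
  let dec : ℕ → List Γ → (ℕ → ℕ) → ℕ := fun i x e =>
    match i with
    | 0 => e 0 / B₃ x / B₂ x / B₁ x
    | 1 => e 0 / B₃ x / B₂ x % B₁ x
    | 2 => e 0 / B₃ x % B₂ x
    | _ => e 0 % B₃ x
  have hdec : ∀ i, UF (dec i) := by
    intro i
    rcases i with _ | _ | _ | i
    · exact (((UF.var 0).div h₃).div h₂).div h₁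
    · exact (((UF.var 0).div h₃).div h₂).mod h₁
    · exact ((UF.var 0).div h₃).mod h₂
    · exact (UF.var 0).mod h₃
  have hP' : UP (fun x e => P x (dec 0 x e) (dec 1 x e) (dec 2 x e) (dec 3 x e)) :=
    (hP.subst dec hdec).congr fun x e => rfl
  have hl₀' : UF (fun x e => l₀ x (dec 0 x e) (dec 1 x e) (dec 2 x e) (dec 3 x e)) :=
    (hl₀.subst dec hdec).congr fun x e => rfl
  have hl₁' : UF (fun x e => l₁ x (dec 0 x e) (dec 1 x e) (dec 2 x e) (dec 3 x e)) :=
    (hl₁.subst dec hdec).congr fun x e => rfl
  have hl₂' : UF (fun x e => l₂ x (dec 0 x e) (dec 1 x e) (dec 2 x e) (dec 3 x e)) :=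
    (hl₂.subst dec hdec).congr fun x e => rfl
  refine ⟨fun x => B₀ x * B₁ x * B₂ x * B₃ x, fun x c j =>
    if P x (c / B₃ x / B₂ x / B₁ x) (c / B₃ x / B₂ x % B₁ x) (c / B₃ x % B₂ x) (c % B₃ x) then
      (if j = 0 then l₀ x (c / B₃ x / B₂ x / B₁ x) (c / B₃ x / B₂ x % B₁ x) (c / B₃ x % B₂ x)
        (c % B₃ x) else
       if j = 1 then l₁ x (c / B₃ x / B₂ x / B₁ x) (c / B₃ x / B₂ x % B₁ x) (c / B₃ x % B₂ x)
        (c % B₃ x) else
        l₂ x (c / B₃ x / B₂ x / B₁ x) (c / B₃ x / B₂ x % B₁ x) (c / B₃ x % B₂ x)
        (c % B₃ x))
    else (if j = 0 then 0 else 1), ((h₀.mul h₁).mul h₂).mul h₃, ?_, ?_⟩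
  · refine UF.ite hP' (UF.ite (UP.eq (UF.var 1) (UF.const 0)) hl₀'
      (UF.ite (UP.eq (UF.var 1) (UF.const 1)) hl₁' hl₂'))
      (UF.ite (UP.eq (UF.var 1) (UF.const 0)) (UF.const 0) (UF.const 1))
  · intro x α
    have key : ∀ a b c d, (P x a b c d → lholds α (l₀ x a b c d) ∨ lholds α (l₁ x a b c d) ∨
        lholds α (l₂ x a b c d)) ↔ ∃ j, j < 3 ∧ lholds α (if P x a b c d then
          (if j = 0 then l₀ x a b c d else if j = 1 then l₁ x a b c d else l₂ x a b c d)
          else (if j = 0 then 0 else 1)) := by
      intro a b c d
      by_cases h : P x a b c d
      · simp only [h, true_imp_iff, if_true]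
        constructor
        · rintro (h | h | h)
          · exact ⟨0, by omega, by simpa using h⟩
          · exact ⟨1, by omega, by simpa using h⟩
          · exact ⟨2, by omega, by simpa using h⟩
        · rintro ⟨j, hj, h⟩
          have : j = 0 ∨ j = 1 ∨ j = 2 := by omega
          rcases this with rfl | rfl | rfl
          · left; simpa using h
          · right; left; simpa using h
          · right; right; simpa using h
      · simp only [h, false_imp_iff, if_false, true_iff]
        by_cases h0 : α 0
        · exact ⟨0, by omega, by simpa [lholds] using h0⟩
        · exact ⟨1, by omega, by simpa [lholds] using h0⟩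
    have e1 := forall_lt_mul (A := B₀ x * B₁ x * B₂ x) (B := B₃ x)
      (Q := fun q d => ∃ j, j < 3 ∧ lholds α (if P x (q / B₂ x / B₁ x) (q / B₂ x % B₁ x)
        (q % B₂ x) d then
          (if j = 0 then l₀ x (q / B₂ x / B₁ x) (q / B₂ x % B₁ x) (q % B₂ x) d else
            if j = 1 then l₁ x (q / B₂ x / B₁ x) (q / B₂ x % B₁ x) (q % B₂ x) d else
            l₂ x (q / B₂ x / B₁ x) (q / B₂ x % B₁ x) (q % B₂ x) d)
          else (if j = 0 then 0 else 1)))
    rw [e1]
    have e2 := forall_lt_mul (A := B₀ x * B₁ x) (B := B₂ x)
      (Q := fun q c => ∀ d, d < B₃ x → ∃ j, j < 3 ∧ lholds α (if P x (q / B₁ x) (q % B₁ x)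
        c d then
          (if j = 0 then l₀ x (q / B₁ x) (q % B₁ x) c d else
            if j = 1 then l₁ x (q / B₁ x) (q % B₁ x) c d else
            l₂ x (q / B₁ x) (q % B₁ x) c d)
          else (if j = 0 then 0 else 1)))
    rw [e2]
    have e3 := forall_lt_mul (A := B₀ x) (B := B₁ x)
      (Q := fun a b => ∀ c, c < B₂ x → ∀ d, d < B₃ x → ∃ j, j < 3 ∧ lholds α (if P x a b
        c d then
          (if j = 0 then l₀ x a b c d else
            if j = 1 then l₁ x a b c d else
            l₂ x a b c d)
          else (if j = 0 then 0 else 1)))
    rw [e3]
    constructor
    · intro h a ha b hb c hc d hd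
      exact (key a b c d).1 (h a ha b hb c hc d hd)
    · intro h a ha b hb c hc d hd
      exact (key a b c d).2 (h a ha b hb c hc d hd)

/-! ### The clauses describing a computation -/

section tableau

variable (C : CM) (ini ks ko : ℕ) (code : Γ ⊕ Bool → ℕ) (acc : Set ℕ) (T W n p : ℕ)

/-- The atom saying that at time `t` cell `pos` contains `v`. -/
def atom (M0 W t pos v : ℕ) : ℕ := (t * W + pos) * M0 + v

/-- The computation on a pair. -/
def run (x : List Γ) (w : List Bool) (t : ℕ) : ℕ → ℕ :=
  C.step^[t] (initc ini ks C.κ code (x.map Sum.inl ++ w.map Sum.inr))

/-- The position of a cell of the input stack. -/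
def cpos (i : ℕ) : ℕ := 1 + i * C.κ + ks

open Classical in
/-- Value of a cell at time `0` outside the guessed part. -/
noncomputable def fixedv [Fintype Γ] (x : List Γ) (pos : ℕ) : ℕ :=
  if pos = 0 then ini
  else if (pos - 1) % C.κ = ks ∧ (pos - 1) / C.κ < x.length then
    ∑ a : Γ, (if x[(pos - 1) / C.κ]? = some a then code (Sum.inl a) else 0)
  else 0

/-- The clauses. -/
structure Clauses [Fintype Γ] (x : List Γ) (α : ℕ → Prop) : Prop where
  trans : ∀ t, t < T → ∀ pos, pos < W → ∀ a, a < C.M0 → ∀ b, b < C.M0 → C.R pos a < W →
    lholds α (2 * atom C.M0 W t 0 a + 1) ∨ lholds α (2 * atom C.M0 W t (C.R pos a) b + 1) ∨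
      lholds α (2 * atom C.M0 W (t + 1) pos (C.V pos a b))
  init : ∀ t, t < 1 → ∀ pos, pos < W → ∀ a, a < 1 → ∀ b, b < 1 →
    ¬ (0 < pos ∧ (pos - 1) % C.κ = ks ∧ x.length ≤ (pos - 1) / C.κ ∧
      (pos - 1) / C.κ < x.length + p) →
    lholds α (2 * atom C.M0 W 0 pos (fixedv C ini ks code x pos)) ∨
      lholds α (2 * atom C.M0 W 0 pos (fixedv C ini ks code x pos)) ∨
      lholds α (2 * atom C.M0 W 0 pos (fixedv C ini ks code x pos))
  guess : ∀ t, t < 1 → ∀ pos, pos < W → ∀ a, a < 1 → ∀ b, b < 1 →
    (0 < pos ∧ (pos - 1) % C.κ = ks ∧ x.length ≤ (pos - 1) / C.κ ∧
      (pos - 1) / C.κ < x.length + p) →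
    lholds α (2 * atom C.M0 W 0 pos 0) ∨
      lholds α (2 * atom C.M0 W 0 pos (code (Sum.inr false))) ∨
      lholds α (2 * atom C.M0 W 0 pos (code (Sum.inr true)))
  mono : ∀ t, t < 1 → ∀ pos, pos < W → ∀ a, a < 1 → ∀ b, b < 1 →
    (0 < pos ∧ (pos - 1) % C.κ = ks ∧ x.length ≤ (pos - 1) / C.κ ∧
      (pos - 1) / C.κ + 1 < x.length + p ∧ pos + C.κ < W) →
    lholds α (2 * atom C.M0 W 0 pos 0 + 1) ∨ lholds α (2 * atom C.M0 W 0 (pos + C.κ) 0) ∨
      lholds α (2 * atom C.M0 W 0 (pos + C.κ) 0)
  final : ∀ t, t < 1 → ∀ pos, pos < 1 → ∀ a, a < C.M0 → ∀ b, b < 1 → a ∉ acc →
    lholds α (2 * atom C.M0 W T (1 + ko) a + 1) ∨ lholds α (2 * atom C.M0 W T (1 + ko) a + 1) ∨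
      lholds α (2 * atom C.M0 W T (1 + ko) a + 1)

theorem atom_div {M0 W t pos v : ℕ} (hv : v < M0) (hp : pos < W) :
    atom M0 W t pos v / M0 / W = t ∧ atom M0 W t pos v / M0 % W = pos ∧
      atom M0 W t pos v % M0 = v := by
  have hM : 0 < M0 := by omega
  have hW : 0 < W := by omega
  unfold atom
  have e1 : ((t * W + pos) * M0 + v) / M0 = t * W + pos := by
    rw [Nat.mul_comm, Nat.mul_add_div hM, Nat.div_eq_of_lt hv, Nat.add_zero]
  refine ⟨?_, ?_, ?_⟩
  · rw [e1, Nat.mul_comm, Nat.mul_add_div hW, Nat.div_eq_of_lt hp, Nat.add_zero]
  · rw [e1, Nat.mul_comm, Nat.mul_add_mod, Nat.mod_eq_of_lt hp]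
  · rw [Nat.mul_comm, Nat.mul_add_mod, Nat.mod_eq_of_lt hv]

theorem init_fixed [Fintype Γ] (x : List Γ) (w : List Bool) (hw : w.length ≤ p) (pos : ℕ)
    (h : ¬ (0 < pos ∧ (pos - 1) % C.κ = ks ∧ x.length ≤ (pos - 1) / C.κ ∧
      (pos - 1) / C.κ < x.length + p)) :
    initc ini ks C.κ code (x.map Sum.inl ++ w.map Sum.inr) pos = fixedv C ini ks code x pos := by
  classical
  unfold initc fixedv
  by_cases h0 : pos = 0
  · rw [if_pos h0, if_pos h0]
  · rw [if_neg h0, if_neg h0]
    by_cases hk : (pos - 1) % C.κ = ks
    · by_cases hi : (pos - 1) / C.κ < x.length
      · rw [if_pos hk, if_pos ⟨hk, hi⟩]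
        rw [List.getElem?_append_left (by simpa using hi)]
        rw [List.getElem?_map]
        have hx : x[(pos - 1) / C.κ]? = some x[(pos - 1) / C.κ] := List.getElem?_eq_getElem hi
        rw [hx]
        simp only [Option.map_some, Option.some.injEq]
        rw [Finset.sum_ite_eq]
        simp
      · have h3 : x.length + p ≤ (pos - 1) / C.κ := by
          by_contra hcon
          exact h ⟨by omega, hk, by omega, by omega⟩
        rw [if_pos hk, if_neg (by tauto)]
        have : (x.map Sum.inl ++ w.map Sum.inr : List (Γ ⊕ Bool))[(pos - 1) / C.κ]? = none := by
          apply List.getElem?_eq_none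
          simp
          omega
        rw [this]
    · rw [if_neg hk, if_neg (by tauto)]

theorem init_guess (x : List Γ) (w : List Bool) (pos : ℕ)
    (h : 0 < pos ∧ (pos - 1) % C.κ = ks ∧ x.length ≤ (pos - 1) / C.κ) :
    initc ini ks C.κ code (x.map Sum.inl ++ w.map Sum.inr) pos =
      match w[(pos - 1) / C.κ - x.length]? with
      | some b => code (Sum.inr b)
      | none => 0 := by
  unfold initc
  rw [if_neg (by omega), if_pos h.2.1, List.getElem?_append_right (by simpa using h.2.2)]
  rw [List.getElem?_map, List.length_map]
  cases w[(pos - 1) / C.κ - x.length]? <;> rfl

theorem run_lt (hini : ini < C.M0) (hcode : ∀ a, code a < C.M0) (x : List Γ) (w : List Bool)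
    (t pos : ℕ) : run C ini ks code x w t pos < C.M0 :=
  C.iter_lt _ (fun q => initc_lt hini hcode _ q) t pos

/-- An accepting computation satisfies the clauses. -/
theorem clauses_of_run [Fintype Γ] (hini : ini < C.M0) (hcode : ∀ a, code a < C.M0)
    (hcode0 : ∀ a, code a ≠ 0)
    (hW : 1 + ko < W) (x : List Γ)
    (w : List Bool) (hw : w.length ≤ p) (hacc : run C ini ks code x w T (1 + ko) ∈ acc) :
    Clauses C ini ks ko code acc T W p x (fun z =>
      run C ini ks code x w (z / C.M0 / W) (z / C.M0 % W) = z % C.M0) := by
  have hM : 0 < C.M0 := by omega
  set α : ℕ → Prop := fun z => run C ini ks code x w (z / C.M0 / W) (z / C.M0 % W) = z % C.M0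
    with hα
  have hatom : ∀ t pos v, v < C.M0 → pos < W → (α (atom C.M0 W t pos v) ↔
      run C ini ks code x w t pos = v) := by
    intro t pos v hv hp
    obtain ⟨h1, h2, h3⟩ := atom_div (t := t) hv hp
    simp only [hα, h1, h2, h3]
  have hrun0 : ∀ pos, run C ini ks code x w 0 pos =
      initc ini ks C.κ code (x.map Sum.inl ++ w.map Sum.inr) pos := fun pos => rfl
  refine ⟨?_, ?_, ?_, ?_, ?_⟩
  · intro t _ pos hpos a ha b hb hR
    rw [lholds_neg, lholds_neg, lholds_pos, hatom _ _ _ ha (by omega), hatom _ _ _ hb hR,
      hatom _ _ _ (C.V_lt _ _ _ hb) hpos]
    by_cases h1 : run C ini ks code x w t 0 = a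
    · by_cases h2 : run C ini ks code x w t (C.R pos a) = b
      · right; right
        have : run C ini ks code x w (t + 1) = C.step (run C ini ks code x w t) := by
          unfold run
          rw [Function.iterate_succ_apply']
        rw [this, CM.step, h1, h2]
      · right; left; exact h2
    · left; exact h1
  · intro _ _ pos hpos _ _ _ _ hng
    left
    have h1 := init_fixed C ini ks code p x w hw pos hng
    have hv : fixedv C ini ks code x pos < C.M0 := by
      rw [← h1]; exact initc_lt hini hcode _ _
    rw [lholds_pos, hatom _ _ _ hv hpos, hrun0, h1]
  · intro _ _ pos hpos _ _ _ _ hg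
    have h1 := init_guess C ini ks code x w pos ⟨hg.1, hg.2.1, hg.2.2.1⟩
    rw [lholds_pos, lholds_pos, lholds_pos, hatom _ _ _ hM hpos, hatom _ _ _ (hcode _) hpos,
      hatom _ _ _ (hcode _) hpos, hrun0, h1]
    cases w[(pos - 1) / C.κ - x.length]? with
    | none => left; rfl
    | some b =>
      cases b with
      | false => right; left; rfl
      | true => right; right; rfl
  · intro _ _ pos hpos _ _ _ _ hg
    have hκ := C.κpos
    have e1 : (pos + C.κ - 1) / C.κ = (pos - 1) / C.κ + 1 := by
      have : pos + C.κ - 1 = (pos - 1) + C.κ := by omega
      rw [this, Nat.add_div_right _ hκ]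
    have e2 : (pos + C.κ - 1) % C.κ = (pos - 1) % C.κ := by
      have : pos + C.κ - 1 = (pos - 1) + C.κ := by omega
      rw [this, Nat.add_mod_right]
    have h1 := init_guess C ini ks code x w pos ⟨hg.1, hg.2.1, hg.2.2.1⟩
    have h2 := init_guess C ini ks code x w (pos + C.κ) ⟨by omega, by rw [e2]; exact hg.2.1,
      by rw [e1]; omega⟩
    rw [e1] at h2
    rw [lholds_neg, lholds_pos, hatom _ _ _ hM hpos, hatom _ _ _ hM hg.2.2.2.2, hrun0, hrun0,
      h1, h2]
    by_cases hn : (pos - 1) / C.κ - x.length < w.length
    · left
      rw [List.getElem?_eq_getElem hn]
      exact hcode0 _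
    · right; left
      rw [List.getElem?_eq_none (by omega)]
  · intro _ _ _ _ a ha _ _ hna
    left
    rw [lholds_neg, hatom _ _ _ ha hW]
    rintro rfl
    exact hna hacc

/-- A satisfying assignment yields an accepting computation. -/
theorem run_of_clauses [Fintype Γ] (hini : ini < C.M0) (hcode : ∀ a, code a < C.M0)
    (hks : ks < C.κ) (hko : ko < C.κ) (x : List Γ) (α : ℕ → Prop)
    (hW : C.κ * (T + x.length + p + 3) ≤ W)
    (h : Clauses C ini ks ko code acc T W p x α) :
    ∃ w : List Bool, w.length ≤ p ∧ run C ini ks code x w T (1 + ko) ∈ acc := by
  classical
  have hκ := C.κpos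
  have hM : 0 < C.M0 := by omega
  set n := x.length with hn
  -- the guessed cells
  set cell : ℕ → ℕ := fun i => 1 + ks + C.κ * (n + i) with hcell
  have hdiv : ∀ i, (cell i - 1) / C.κ = n + i := by
    intro i
    have : cell i - 1 = ks + C.κ * (n + i) := by simp only [hcell]; omega
    rw [this, Nat.add_mul_div_left _ _ hκ, Nat.div_eq_of_lt hks, Nat.zero_add]
  have hmod : ∀ i, (cell i - 1) % C.κ = ks := by
    intro i
    have : cell i - 1 = ks + C.κ * (n + i) := by simp only [hcell]; omega
    rw [this, Nat.add_mul_mod_self_left, Nat.mod_eq_of_lt hks]
  have hcellW : ∀ i, i ≤ p → cell i < W := by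
    intro i hi
    have h1 : C.κ * (n + i) ≤ C.κ * (n + p) := Nat.mul_le_mul_left _ (by omega)
    have h2 : C.κ * (T + n + p + 3) = C.κ * (n + p) + (C.κ * T + 3 * C.κ) := by ring
    simp only [hcell]
    omega
  have hcells : ∀ i, cell i + C.κ = cell (i + 1) := by
    intro i; simp only [hcell]; ring
  -- the end of the certificate
  set Z : ℕ → Prop := fun i => i = p ∨ α (atom C.M0 W 0 (cell i) 0) with hZ
  have hex : ∃ i, Z i := ⟨p, Or.inl rfl⟩
  set m := Nat.find hex with hm
  have hmZ : Z m := Nat.find_spec hex
  have hmp : m ≤ p := Nat.find_min' hex (Or.inl rfl)
  have hlt : ∀ i, i < m → ¬ α (atom C.M0 W 0 (cell i) 0) := by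
    intro i hi h1
    exact Nat.find_min hex hi (Or.inr h1)
  have hge : ∀ i, m ≤ i → i < p → α (atom C.M0 W 0 (cell i) 0) := by
    intro i hmi
    induction i, hmi using Nat.le_induction with
    | base =>
      intro hi
      rcases hmZ with h1 | h1
      · omega
      · exact h1
    | succ i hmi ih =>
      intro hi
      have h1 := ih (by omega)
      have h2 := h.mono 0 (by omega) (cell i) (hcellW i (by omega)) 0 (by omega) 0 (by omega)
        ⟨by simp only [hcell]; omega, hmod i, by rw [hdiv i]; omega, by rw [hdiv i]; omega,
          by rw [hcells]; exact hcellW _ (by omega)⟩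
      rw [lholds_neg, lholds_pos, hcells] at h2
      tauto
  -- the certificate
  set w : List Bool := (List.range m).map
    (fun i => decide (α (atom C.M0 W 0 (cell i) (code (Sum.inr true))))) with hw
  have hwlen : w.length = m := by simp [hw]
  refine ⟨w, by omega, ?_⟩
  -- time 0
  have h0 : ∀ pos, pos < W → α (atom C.M0 W 0 pos (run C ini ks code x w 0 pos)) := by
    intro pos hpos
    change α (atom C.M0 W 0 pos (initc ini ks C.κ code (x.map Sum.inl ++ w.map Sum.inr) pos))
    by_cases hg : 0 < pos ∧ (pos - 1) % C.κ = ks ∧ n ≤ (pos - 1) / C.κ ∧
      (pos - 1) / C.κ < n + p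
    · rw [init_guess C ini ks code x w pos ⟨hg.1, hg.2.1, hg.2.2.1⟩]
      set i := (pos - 1) / C.κ - n with hi
      have hpi : pos = cell i := by
        have h1 := Nat.div_add_mod (pos - 1) C.κ
        have h2 : (pos - 1) / C.κ = n + i := by omega
        rw [h2, hg.2.1] at h1
        simp only [hcell]
        omega
      change α (atom C.M0 W 0 pos (match w[i]? with
        | some b => code (Sum.inr b)
        | none => 0))
      by_cases him : i < m
      · have hwi : w[i]? = some (decide (α (atom C.M0 W 0 (cell i) (code (Sum.inr true))))) := by
          simp [hw, him]
        rw [hwi]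
        have h1 := h.guess 0 (by omega) pos hpos 0 (by omega) 0 (by omega) hg
        rw [lholds_pos, lholds_pos, lholds_pos] at h1
        have h2 := hlt i him
        by_cases h3 : α (atom C.M0 W 0 (cell i) (code (Sum.inr true)))
        · simp only [h3, decide_true]
          rw [hpi]; exact h3
        · simp only [h3, decide_false]
          rw [← hpi] at h2 h3
          tauto
      · have hwi : w[i]? = none := List.getElem?_eq_none (by omega)
        rw [hwi, hpi]
        exact hge i (by omega) (by omega)
    · rw [init_fixed C ini ks code p x w (by omega) pos hg]
      have h1 := h.init 0 (by omega) pos hpos 0 (by omega) 0 (by omega) hg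
      rw [lholds_pos] at h1
      tauto
  -- later times
  have ht : ∀ t, t ≤ T → ∀ pos, pos + C.κ * t < W →
      α (atom C.M0 W t pos (run C ini ks code x w t pos)) := by
    intro t
    induction t with
    | zero => intro _ pos hpos; exact h0 pos (by omega)
    | succ t ih =>
      intro ht pos hpos
      have e1 : C.κ * (t + 1) = C.κ * t + C.κ := by ring
      have hR := C.R_le pos (run C ini ks code x w t 0)
      have h1 := ih (by omega) 0 (by omega)
      have h2 := ih (by omega) (C.R pos (run C ini ks code x w t 0)) (by omega)
      have h3 := h.trans t (by omega) pos (by omega) (run C ini ks code x w t 0)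
        (run_lt C ini ks code hini hcode x w t 0)
        (run C ini ks code x w t (C.R pos (run C ini ks code x w t 0)))
        (run_lt C ini ks code hini hcode x w t _) (by omega)
      rw [lholds_neg, lholds_neg, lholds_pos] at h3
      have e2 : run C ini ks code x w (t + 1) pos = C.V pos (run C ini ks code x w t 0)
          (run C ini ks code x w t (C.R pos (run C ini ks code x w t 0))) := by
        change C.step^[t + 1] _ pos = _
        rw [Function.iterate_succ_apply']
        rfl
      rw [e2]
      tauto
  by_contra hna
  have h1 := ht T le_rfl (1 + ko) (by
    have : C.κ * (T + n + p + 3) = C.κ * T + (C.κ * (n + p) + 3 * C.κ) := by ring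
    omega)
  have h2 := h.final 0 (by omega) 0 (by omega) (run C ini ks code x w T (1 + ko))
    (run_lt C ini ks code hini hcode x w T _) 0 (by omega) hna
  rw [lholds_neg] at h2
  tauto

end tableau

/-- **The Cook–Levin theorem**, with the clauses given by terms: for a language in NP there are
functions denoted by terms giving the number of clauses and, for each clause, its three literals,
such that the words of the language are exactly those with satisfiable clauses. -/
theorem cook_levin [Fintype Γ] (L : Set (List Γ)) (hL : InNP L) :
    ∃ (n : List Γ → ℕ) (lit : List Γ → ℕ → ℕ → ℕ), UF (fun x _ => n x) ∧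
      UF (fun x e => lit x (e 0) (e 1)) ∧
      ∀ x, x ∈ L ↔ ∃ α : ℕ → Prop, ∀ c, c < n x → ∃ j, j < 3 ∧ lholds α (lit x c j) := by
  classical
  obtain ⟨p, R, ⟨hR⟩, hpR⟩ := hL
  obtain ⟨C, ini, ks, ko, code, acc, P, hini, hks, hko, hcode, hcode0, hacc⟩ :=
    exists_cm _ R hR
  set p' : List Γ → ℕ := fun x => p.eval x.length with hp'
  set T : List Γ → ℕ := fun x => P.eval (x.length + p.eval x.length) with hT
  set W : List Γ → ℕ := fun x => C.κ * (T x + x.length + p' x + 3) with hW
  have up' : UF (fun x _ => p' x) := UF.poly _ UF.len
  have uT : UF (fun x _ => T x) := UF.poly _ (UF.len.add (UF.poly _ UF.len))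
  have uW : UF (fun x _ => W x) :=
    (UF.const _).mul (((uT.add UF.len).add up').add (UF.const 3))
  have ustk : ∀ {f : List Γ → (ℕ → ℕ) → ℕ}, UF f → UF (fun x e => C.stk (f x e)) :=
    fun hf => UF.table' _ _ C.stk_zero hf
  have uop : ∀ {f : List Γ → (ℕ → ℕ) → ℕ}, UF f → UF (fun x e => C.op (f x e)) :=
    fun hf => UF.table' _ _ C.op_zero hf
  have unx : ∀ {f g : List Γ → (ℕ → ℕ) → ℕ}, UF f → UF g → UF (fun x e => C.nx (f x e) (g x e)) :=
    fun {f g} hf hg => (UF.table₂ C.nx C.M0 C.M0 hf hg).congr fun x e => by
      split_ifs with h
      · rfl
      · exact (C.nx_zero _ _ h).symm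
  have uR : ∀ {f g : List Γ → (ℕ → ℕ) → ℕ}, UF f → UF g →
      UF (fun x e => C.R (f x e) (g x e)) := by
    intro f g hf hg
    unfold CM.R
    repeat' first
      | with_reducible assumption | with_reducible exact UF.var _
      | with_reducible exact UF.const _ | with_reducible exact UF.len | with_reducible apply ustk
      | with_reducible apply uop | with_reducible apply unx | with_reducible apply UF.add
      | with_reducible apply UF.sub | with_reducible apply UF.mul | with_reducible apply UF.div
      | with_reducible apply UF.mod | with_reducible apply UF.iteC | with_reducible apply UF.ite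
      | with_reducible apply UF.min | with_reducible apply UF.max | with_reducible apply UF.sum
      | with_reducible apply UP.and | with_reducible apply UP.or | with_reducible apply UP.not
      | with_reducible apply UP.eq | with_reducible apply UP.ne | with_reducible apply UP.lt
      | with_reducible apply UP.le | with_reducible apply UP.bex | with_reducible apply UP.ball
      | with_reducible apply UP.imp | with_reducible apply UP.iff | with_reducible apply UP.sym
      | with_reducible apply UF.poly | with_reducible apply UF.pow
      | with_reducible exact UP.const _
  have uV : ∀ {f g h : List Γ → (ℕ → ℕ) → ℕ}, UF f → UF g → UF h →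
      UF (fun x e => C.V (f x e) (g x e) (h x e)) := by
    intro f g h hf hg hh
    unfold CM.V
    repeat' first
      | with_reducible assumption | with_reducible exact UF.var _
      | with_reducible exact UF.const _ | with_reducible exact UF.len | with_reducible apply ustk
      | with_reducible apply uop | with_reducible apply unx | with_reducible apply UF.add
      | with_reducible apply UF.sub | with_reducible apply UF.mul | with_reducible apply UF.div
      | with_reducible apply UF.mod | with_reducible apply UF.iteC | with_reducible apply UF.ite
      | with_reducible apply UF.min | with_reducible apply UF.max | with_reducible apply UF.sum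
      | with_reducible apply UP.and | with_reducible apply UP.or | with_reducible apply UP.not
      | with_reducible apply UP.eq | with_reducible apply UP.ne | with_reducible apply UP.lt
      | with_reducible apply UP.le | with_reducible apply UP.bex | with_reducible apply UP.ball
      | with_reducible apply UP.imp | with_reducible apply UP.iff | with_reducible apply UP.sym
      | with_reducible apply UF.poly | with_reducible apply UF.pow
      | with_reducible exact UP.const _
  have uA : ∀ {f g h : List Γ → (ℕ → ℕ) → ℕ}, UF f → UF g → UF h →
      UF (fun x e => atom C.M0 (W x) (f x e) (g x e) (h x e)) := by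
    intro f g h hf hg hh
    unfold atom
    repeat' first
      | with_reducible assumption | with_reducible exact UF.var _
      | with_reducible exact UF.const _ | with_reducible exact UF.len
      | with_reducible apply UF.add | with_reducible apply UF.sub | with_reducible apply UF.mul
      | with_reducible apply UF.div | with_reducible apply UF.mod | with_reducible apply UF.iteC
      | with_reducible apply UF.ite | with_reducible apply UF.min | with_reducible apply UF.max
      | with_reducible apply UF.sum | with_reducible apply UP.and | with_reducible apply UP.or
      | with_reducible apply UP.not | with_reducible apply UP.eq | with_reducible apply UP.ne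
      | with_reducible apply UP.lt | with_reducible apply UP.le | with_reducible apply UP.bex
      | with_reducible apply UP.ball | with_reducible apply UP.imp | with_reducible apply UP.iff
      | with_reducible apply UP.sym | with_reducible apply UF.poly | with_reducible apply UF.pow
      | with_reducible exact UP.const _
  have ufix : ∀ {f : List Γ → (ℕ → ℕ) → ℕ}, UF f →
      UF (fun x e => fixedv C ini ks code x (f x e)) := by
    intro f hf
    unfold fixedv
    have hi : UF (fun x e => (f x e - 1) / C.κ) := (hf.sub (UF.const 1)).div (UF.const _)
    refine UF.ite (UP.eq hf (UF.const 0)) (UF.const _)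
      (UF.ite ((UP.eq ((hf.sub (UF.const 1)).mod (UF.const _)) (UF.const _)).and (UP.lt hi UF.len))
        (UF.fsum _ fun a _ => ?_) (UF.const 0))
    repeat' first
      | with_reducible assumption | with_reducible exact UF.var _
      | with_reducible exact UF.const _ | with_reducible exact UF.len
      | with_reducible apply UF.add | with_reducible apply UF.sub | with_reducible apply UF.mul
      | with_reducible apply UF.div | with_reducible apply UF.mod | with_reducible apply UF.iteC
      | with_reducible apply UF.ite | with_reducible apply UF.min | with_reducible apply UF.max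
      | with_reducible apply UF.sum | with_reducible apply UP.and | with_reducible apply UP.or
      | with_reducible apply UP.not | with_reducible apply UP.eq | with_reducible apply UP.ne
      | with_reducible apply UP.lt | with_reducible apply UP.le | with_reducible apply UP.bex
      | with_reducible apply UP.ball | with_reducible apply UP.imp | with_reducible apply UP.iff
      | with_reducible apply UP.sym | with_reducible apply UF.poly | with_reducible apply UF.pow
      | with_reducible exact UP.const _
  have r1 : Rep (fun (x : List Γ) α => ∀ t, t < T x → ∀ pos, pos < W x → ∀ a, a < C.M0 →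
      ∀ b, b < C.M0 → C.R pos a < W x →
      lholds α (2 * atom C.M0 (W x) t 0 a + 1) ∨
        lholds α (2 * atom C.M0 (W x) t (C.R pos a) b + 1) ∨
        lholds α (2 * atom C.M0 (W x) (t + 1) pos (C.V pos a b))) := by
    refine Rep.fam uT uW (UF.const _) (UF.const _) ?_ ?_ ?_ ?_
    · repeat' first
        | with_reducible assumption | with_reducible exact UF.var _
        | with_reducible exact UF.const _ | with_reducible exact UF.len | with_reducible apply uR
        | with_reducible apply UF.add | with_reducible apply UF.sub | with_reducible apply UF.mul
        | with_reducible apply UF.div | with_reducible apply UF.mod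
        | with_reducible apply UF.iteC | with_reducible apply UF.ite
        | with_reducible apply UF.min | with_reducible apply UF.max | with_reducible apply UF.sum
        | with_reducible apply UP.and | with_reducible apply UP.or | with_reducible apply UP.not
        | with_reducible apply UP.eq | with_reducible apply UP.ne | with_reducible apply UP.lt
        | with_reducible apply UP.le | with_reducible apply UP.bex | with_reducible apply UP.ball
        | with_reducible apply UP.imp | with_reducible apply UP.iff | with_reducible apply UP.sym
        | with_reducible apply UF.poly | with_reducible apply UF.pow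
        | with_reducible exact UP.const _
    · repeat' first
        | with_reducible assumption | with_reducible exact UF.var _
        | with_reducible exact UF.const _ | with_reducible exact UF.len | with_reducible apply uA
        | with_reducible apply UF.add | with_reducible apply UF.sub | with_reducible apply UF.mul
        | with_reducible apply UF.div | with_reducible apply UF.mod
        | with_reducible apply UF.iteC | with_reducible apply UF.ite
        | with_reducible apply UF.min | with_reducible apply UF.max | with_reducible apply UF.sum
        | with_reducible apply UP.and | with_reducible apply UP.or | with_reducible apply UP.not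
        | with_reducible apply UP.eq | with_reducible apply UP.ne | with_reducible apply UP.lt
        | with_reducible apply UP.le | with_reducible apply UP.bex | with_reducible apply UP.ball
        | with_reducible apply UP.imp | with_reducible apply UP.iff | with_reducible apply UP.sym
        | with_reducible apply UF.poly | with_reducible apply UF.pow
        | with_reducible exact UP.const _
    · repeat' first
        | with_reducible assumption | with_reducible exact UF.var _
        | with_reducible exact UF.const _ | with_reducible exact UF.len | with_reducible apply uR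
        | with_reducible apply uA | with_reducible apply UF.add | with_reducible apply UF.sub
        | with_reducible apply UF.mul | with_reducible apply UF.div | with_reducible apply UF.mod
        | with_reducible apply UF.iteC | with_reducible apply UF.ite
        | with_reducible apply UF.min | with_reducible apply UF.max | with_reducible apply UF.sum
        | with_reducible apply UP.and | with_reducible apply UP.or | with_reducible apply UP.not
        | with_reducible apply UP.eq | with_reducible apply UP.ne | with_reducible apply UP.lt
        | with_reducible apply UP.le | with_reducible apply UP.bex | with_reducible apply UP.ball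
        | with_reducible apply UP.imp | with_reducible apply UP.iff | with_reducible apply UP.sym
        | with_reducible apply UF.poly | with_reducible apply UF.pow
        | with_reducible exact UP.const _
    · repeat' first
        | with_reducible assumption | with_reducible exact UF.var _
        | with_reducible exact UF.const _ | with_reducible exact UF.len | with_reducible apply uA
        | with_reducible apply uV | with_reducible apply UF.add | with_reducible apply UF.sub
        | with_reducible apply UF.mul | with_reducible apply UF.div | with_reducible apply UF.mod
        | with_reducible apply UF.iteC | with_reducible apply UF.ite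
        | with_reducible apply UF.min | with_reducible apply UF.max | with_reducible apply UF.sum
        | with_reducible apply UP.and | with_reducible apply UP.or | with_reducible apply UP.not
        | with_reducible apply UP.eq | with_reducible apply UP.ne | with_reducible apply UP.lt
        | with_reducible apply UP.le | with_reducible apply UP.bex | with_reducible apply UP.ball
        | with_reducible apply UP.imp | with_reducible apply UP.iff | with_reducible apply UP.sym
        | with_reducible apply UF.poly | with_reducible apply UF.pow
        | with_reducible exact UP.const _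
  have r2 : Rep (fun (x : List Γ) α => ∀ t, t < 1 → ∀ pos, pos < W x → ∀ a, a < 1 →
      ∀ b, b < 1 → ¬ (0 < pos ∧ (pos - 1) % C.κ = ks ∧ x.length ≤ (pos - 1) / C.κ ∧
        (pos - 1) / C.κ < x.length + p' x) →
      lholds α (2 * atom C.M0 (W x) 0 pos (fixedv C ini ks code x pos)) ∨
        lholds α (2 * atom C.M0 (W x) 0 pos (fixedv C ini ks code x pos)) ∨
        lholds α (2 * atom C.M0 (W x) 0 pos (fixedv C ini ks code x pos))) := by
    refine Rep.fam (UF.const _) uW (UF.const _) (UF.const _) ?_ ?_ ?_ ?_
    · repeat' first
        | with_reducible assumption | with_reducible exact UF.var _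
        | with_reducible exact UF.const _ | with_reducible exact UF.len
        | with_reducible apply UF.add | with_reducible apply UF.sub | with_reducible apply UF.mul
        | with_reducible apply UF.div | with_reducible apply UF.mod
        | with_reducible apply UF.iteC | with_reducible apply UF.ite
        | with_reducible apply UF.min | with_reducible apply UF.max | with_reducible apply UF.sum
        | with_reducible apply UP.and | with_reducible apply UP.or | with_reducible apply UP.not
        | with_reducible apply UP.eq | with_reducible apply UP.ne | with_reducible apply UP.lt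
        | with_reducible apply UP.le | with_reducible apply UP.bex | with_reducible apply UP.ball
        | with_reducible apply UP.imp | with_reducible apply UP.iff | with_reducible apply UP.sym
        | with_reducible apply UF.poly | with_reducible apply UF.pow
        | with_reducible exact UP.const _
    · repeat' first
        | with_reducible assumption | with_reducible exact UF.var _
        | with_reducible exact UF.const _ | with_reducible exact UF.len | with_reducible apply uA
        | with_reducible apply ufix | with_reducible apply UF.add | with_reducible apply UF.sub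
        | with_reducible apply UF.mul | with_reducible apply UF.div | with_reducible apply UF.mod
        | with_reducible apply UF.iteC | with_reducible apply UF.ite
        | with_reducible apply UF.min | with_reducible apply UF.max | with_reducible apply UF.sum
        | with_reducible apply UP.and | with_reducible apply UP.or | with_reducible apply UP.not
        | with_reducible apply UP.eq | with_reducible apply UP.ne | with_reducible apply UP.lt
        | with_reducible apply UP.le | with_reducible apply UP.bex | with_reducible apply UP.ball
        | with_reducible apply UP.imp | with_reducible apply UP.iff | with_reducible apply UP.sym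
        | with_reducible apply UF.poly | with_reducible apply UF.pow
        | with_reducible exact UP.const _
    · repeat' first
        | with_reducible assumption | with_reducible exact UF.var _
        | with_reducible exact UF.const _ | with_reducible exact UF.len | with_reducible apply uA
        | with_reducible apply ufix | with_reducible apply UF.add | with_reducible apply UF.sub
        | with_reducible apply UF.mul | with_reducible apply UF.div | with_reducible apply UF.mod
        | with_reducible apply UF.iteC | with_reducible apply UF.ite
        | with_reducible apply UF.min | with_reducible apply UF.max | with_reducible apply UF.sum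
        | with_reducible apply UP.and | with_reducible apply UP.or | with_reducible apply UP.not
        | with_reducible apply UP.eq | with_reducible apply UP.ne | with_reducible apply UP.lt
        | with_reducible apply UP.le | with_reducible apply UP.bex | with_reducible apply UP.ball
        | with_reducible apply UP.imp | with_reducible apply UP.iff | with_reducible apply UP.sym
        | with_reducible apply UF.poly | with_reducible apply UF.pow
        | with_reducible exact UP.const _
    · repeat' first
        | with_reducible assumption | with_reducible exact UF.var _
        | with_reducible exact UF.const _ | with_reducible exact UF.len | with_reducible apply uA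
        | with_reducible apply ufix | with_reducible apply UF.add | with_reducible apply UF.sub
        | with_reducible apply UF.mul | with_reducible apply UF.div | with_reducible apply UF.mod
        | with_reducible apply UF.iteC | with_reducible apply UF.ite
        | with_reducible apply UF.min | with_reducible apply UF.max | with_reducible apply UF.sum
        | with_reducible apply UP.and | with_reducible apply UP.or | with_reducible apply UP.not
        | with_reducible apply UP.eq | with_reducible apply UP.ne | with_reducible apply UP.lt
        | with_reducible apply UP.le | with_reducible apply UP.bex | with_reducible apply UP.ball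
        | with_reducible apply UP.imp | with_reducible apply UP.iff | with_reducible apply UP.sym
        | with_reducible apply UF.poly | with_reducible apply UF.pow
        | with_reducible exact UP.const _
  have r3 : Rep (fun (x : List Γ) α => ∀ t, t < 1 → ∀ pos, pos < W x → ∀ a, a < 1 →
      ∀ b, b < 1 → (0 < pos ∧ (pos - 1) % C.κ = ks ∧ x.length ≤ (pos - 1) / C.κ ∧
        (pos - 1) / C.κ < x.length + p' x) →
      lholds α (2 * atom C.M0 (W x) 0 pos 0) ∨
        lholds α (2 * atom C.M0 (W x) 0 pos (code (Sum.inr false))) ∨
        lholds α (2 * atom C.M0 (W x) 0 pos (code (Sum.inr true)))) := by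
    refine Rep.fam (UF.const _) uW (UF.const _) (UF.const _) ?_ ?_ ?_ ?_
    · repeat' first
        | with_reducible assumption | with_reducible exact UF.var _
        | with_reducible exact UF.const _ | with_reducible exact UF.len
        | with_reducible apply UF.add | with_reducible apply UF.sub | with_reducible apply UF.mul
        | with_reducible apply UF.div | with_reducible apply UF.mod
        | with_reducible apply UF.iteC | with_reducible apply UF.ite
        | with_reducible apply UF.min | with_reducible apply UF.max | with_reducible apply UF.sum
        | with_reducible apply UP.and | with_reducible apply UP.or | with_reducible apply UP.not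
        | with_reducible apply UP.eq | with_reducible apply UP.ne | with_reducible apply UP.lt
        | with_reducible apply UP.le | with_reducible apply UP.bex | with_reducible apply UP.ball
        | with_reducible apply UP.imp | with_reducible apply UP.iff | with_reducible apply UP.sym
        | with_reducible apply UF.poly | with_reducible apply UF.pow
        | with_reducible exact UP.const _
    · repeat' first
        | with_reducible assumption | with_reducible exact UF.var _
        | with_reducible exact UF.const _ | with_reducible exact UF.len | with_reducible apply uA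
        | with_reducible apply UF.add | with_reducible apply UF.sub | with_reducible apply UF.mul
        | with_reducible apply UF.div | with_reducible apply UF.mod
        | with_reducible apply UF.iteC | with_reducible apply UF.ite
        | with_reducible apply UF.min | with_reducible apply UF.max | with_reducible apply UF.sum
        | with_reducible apply UP.and | with_reducible apply UP.or | with_reducible apply UP.not
        | with_reducible apply UP.eq | with_reducible apply UP.ne | with_reducible apply UP.lt
        | with_reducible apply UP.le | with_reducible apply UP.bex | with_reducible apply UP.ball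
        | with_reducible apply UP.imp | with_reducible apply UP.iff | with_reducible apply UP.sym
        | with_reducible apply UF.poly | with_reducible apply UF.pow
        | with_reducible exact UP.const _
    · repeat' first
        | with_reducible assumption | with_reducible exact UF.var _
        | with_reducible exact UF.const _ | with_reducible exact UF.len | with_reducible apply uA
        | with_reducible apply UF.add | with_reducible apply UF.sub | with_reducible apply UF.mul
        | with_reducible apply UF.div | with_reducible apply UF.mod
        | with_reducible apply UF.iteC | with_reducible apply UF.ite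
        | with_reducible apply UF.min | with_reducible apply UF.max | with_reducible apply UF.sum
        | with_reducible apply UP.and | with_reducible apply UP.or | with_reducible apply UP.not
        | with_reducible apply UP.eq | with_reducible apply UP.ne | with_reducible apply UP.lt
        | with_reducible apply UP.le | with_reducible apply UP.bex | with_reducible apply UP.ball
        | with_reducible apply UP.imp | with_reducible apply UP.iff | with_reducible apply UP.sym
        | with_reducible apply UF.poly | with_reducible apply UF.pow
        | with_reducible exact UP.const _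
    · repeat' first
        | with_reducible assumption | with_reducible exact UF.var _
        | with_reducible exact UF.const _ | with_reducible exact UF.len | with_reducible apply uA
        | with_reducible apply UF.add | with_reducible apply UF.sub | with_reducible apply UF.mul
        | with_reducible apply UF.div | with_reducible apply UF.mod
        | with_reducible apply UF.iteC | with_reducible apply UF.ite
        | with_reducible apply UF.min | with_reducible apply UF.max | with_reducible apply UF.sum
        | with_reducible apply UP.and | with_reducible apply UP.or | with_reducible apply UP.not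
        | with_reducible apply UP.eq | with_reducible apply UP.ne | with_reducible apply UP.lt
        | with_reducible apply UP.le | with_reducible apply UP.bex | with_reducible apply UP.ball
        | with_reducible apply UP.imp | with_reducible apply UP.iff | with_reducible apply UP.sym
        | with_reducible apply UF.poly | with_reducible apply UF.pow
        | with_reducible exact UP.const _
  have r4 : Rep (fun (x : List Γ) α => ∀ t, t < 1 → ∀ pos, pos < W x → ∀ a, a < 1 →
      ∀ b, b < 1 → (0 < pos ∧ (pos - 1) % C.κ = ks ∧ x.length ≤ (pos - 1) / C.κ ∧
        (pos - 1) / C.κ + 1 < x.length + p' x ∧ pos + C.κ < W x) →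
      lholds α (2 * atom C.M0 (W x) 0 pos 0 + 1) ∨
        lholds α (2 * atom C.M0 (W x) 0 (pos + C.κ) 0) ∨
        lholds α (2 * atom C.M0 (W x) 0 (pos + C.κ) 0)) := by
    refine Rep.fam (UF.const _) uW (UF.const _) (UF.const _) ?_ ?_ ?_ ?_
    · repeat' first
        | with_reducible assumption | with_reducible exact UF.var _
        | with_reducible exact UF.const _ | with_reducible exact UF.len
        | with_reducible apply UF.add | with_reducible apply UF.sub | with_reducible apply UF.mul
        | with_reducible apply UF.div | with_reducible apply UF.mod
        | with_reducible apply UF.iteC | with_reducible apply UF.ite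
        | with_reducible apply UF.min | with_reducible apply UF.max | with_reducible apply UF.sum
        | with_reducible apply UP.and | with_reducible apply UP.or | with_reducible apply UP.not
        | with_reducible apply UP.eq | with_reducible apply UP.ne | with_reducible apply UP.lt
        | with_reducible apply UP.le | with_reducible apply UP.bex | with_reducible apply UP.ball
        | with_reducible apply UP.imp | with_reducible apply UP.iff | with_reducible apply UP.sym
        | with_reducible apply UF.poly | with_reducible apply UF.pow
        | with_reducible exact UP.const _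
    · repeat' first
        | with_reducible assumption | with_reducible exact UF.var _
        | with_reducible exact UF.const _ | with_reducible exact UF.len | with_reducible apply uA
        | with_reducible apply UF.add | with_reducible apply UF.sub | with_reducible apply UF.mul
        | with_reducible apply UF.div | with_reducible apply UF.mod
        | with_reducible apply UF.iteC | with_reducible apply UF.ite
        | with_reducible apply UF.min | with_reducible apply UF.max | with_reducible apply UF.sum
        | with_reducible apply UP.and | with_reducible apply UP.or | with_reducible apply UP.not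
        | with_reducible apply UP.eq | with_reducible apply UP.ne | with_reducible apply UP.lt
        | with_reducible apply UP.le | with_reducible apply UP.bex | with_reducible apply UP.ball
        | with_reducible apply UP.imp | with_reducible apply UP.iff | with_reducible apply UP.sym
        | with_reducible apply UF.poly | with_reducible apply UF.pow
        | with_reducible exact UP.const _
    · repeat' first
        | with_reducible assumption | with_reducible exact UF.var _
        | with_reducible exact UF.const _ | with_reducible exact UF.len | with_reducible apply uA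
        | with_reducible apply UF.add | with_reducible apply UF.sub | with_reducible apply UF.mul
        | with_reducible apply UF.div | with_reducible apply UF.mod
        | with_reducible apply UF.iteC | with_reducible apply UF.ite
        | with_reducible apply UF.min | with_reducible apply UF.max | with_reducible apply UF.sum
        | with_reducible apply UP.and | with_reducible apply UP.or | with_reducible apply UP.not
        | with_reducible apply UP.eq | with_reducible apply UP.ne | with_reducible apply UP.lt
        | with_reducible apply UP.le | with_reducible apply UP.bex | with_reducible apply UP.ball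
        | with_reducible apply UP.imp | with_reducible apply UP.iff | with_reducible apply UP.sym
        | with_reducible apply UF.poly | with_reducible apply UF.pow
        | with_reducible exact UP.const _
    · repeat' first
        | with_reducible assumption | with_reducible exact UF.var _
        | with_reducible exact UF.const _ | with_reducible exact UF.len | with_reducible apply uA
        | with_reducible apply UF.add | with_reducible apply UF.sub | with_reducible apply UF.mul
        | with_reducible apply UF.div | with_reducible apply UF.mod
        | with_reducible apply UF.iteC | with_reducible apply UF.ite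
        | with_reducible apply UF.min | with_reducible apply UF.max | with_reducible apply UF.sum
        | with_reducible apply UP.and | with_reducible apply UP.or | with_reducible apply UP.not
        | with_reducible apply UP.eq | with_reducible apply UP.ne | with_reducible apply UP.lt
        | with_reducible apply UP.le | with_reducible apply UP.bex | with_reducible apply UP.ball
        | with_reducible apply UP.imp | with_reducible apply UP.iff | with_reducible apply UP.sym
        | with_reducible apply UF.poly | with_reducible apply UF.pow
        | with_reducible exact UP.const _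
  have uacc : UP (fun (x : List Γ) (e : ℕ → ℕ) => ¬ (e 2 < C.M0 ∧ e 2 ∈ acc)) := by
    refine UP.not (UP.of_ne_zero (UF.table (fun a => if a ∈ acc then 1 else 0) C.M0 (UF.var 2))
      fun x e => ?_)
    by_cases h1 : e 2 < C.M0 <;> by_cases h2 : e 2 ∈ acc <;> simp [h1, h2]
  have r5 : Rep (fun (x : List Γ) α => ∀ t, t < 1 → ∀ pos, pos < 1 → ∀ a, a < C.M0 →
      ∀ b, b < 1 → ¬ (a < C.M0 ∧ a ∈ acc) →
      lholds α (2 * atom C.M0 (W x) (T x) (1 + ko) a + 1) ∨
        lholds α (2 * atom C.M0 (W x) (T x) (1 + ko) a + 1) ∨
        lholds α (2 * atom C.M0 (W x) (T x) (1 + ko) a + 1)) := by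
    refine Rep.fam (P := fun x _ _ a _ => ¬ (a < C.M0 ∧ a ∈ acc)) (UF.const _) (UF.const _)
      (UF.const _) (UF.const _) ?_ ?_ ?_ ?_
    · exact uacc
    · repeat' first
        | with_reducible assumption | with_reducible exact UF.var _
        | with_reducible exact UF.const _ | with_reducible exact UF.len | with_reducible apply uA
        | with_reducible apply UF.add | with_reducible apply UF.sub | with_reducible apply UF.mul
        | with_reducible apply UF.div | with_reducible apply UF.mod
        | with_reducible apply UF.iteC | with_reducible apply UF.ite
        | with_reducible apply UF.min | with_reducible apply UF.max | with_reducible apply UF.sum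
        | with_reducible apply UP.and | with_reducible apply UP.or | with_reducible apply UP.not
        | with_reducible apply UP.eq | with_reducible apply UP.ne | with_reducible apply UP.lt
        | with_reducible apply UP.le | with_reducible apply UP.bex | with_reducible apply UP.ball
        | with_reducible apply UP.imp | with_reducible apply UP.iff | with_reducible apply UP.sym
        | with_reducible apply UF.poly | with_reducible apply UF.pow
        | with_reducible exact UP.const _
    · repeat' first
        | with_reducible assumption | with_reducible exact UF.var _
        | with_reducible exact UF.const _ | with_reducible exact UF.len | with_reducible apply uA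
        | with_reducible apply UF.add | with_reducible apply UF.sub | with_reducible apply UF.mul
        | with_reducible apply UF.div | with_reducible apply UF.mod
        | with_reducible apply UF.iteC | with_reducible apply UF.ite
        | with_reducible apply UF.min | with_reducible apply UF.max | with_reducible apply UF.sum
        | with_reducible apply UP.and | with_reducible apply UP.or | with_reducible apply UP.not
        | with_reducible apply UP.eq | with_reducible apply UP.ne | with_reducible apply UP.lt
        | with_reducible apply UP.le | with_reducible apply UP.bex | with_reducible apply UP.ball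
        | with_reducible apply UP.imp | with_reducible apply UP.iff | with_reducible apply UP.sym
        | with_reducible apply UF.poly | with_reducible apply UF.pow
        | with_reducible exact UP.const _
    · repeat' first
        | with_reducible assumption | with_reducible exact UF.var _
        | with_reducible exact UF.const _ | with_reducible exact UF.len | with_reducible apply uA
        | with_reducible apply UF.add | with_reducible apply UF.sub | with_reducible apply UF.mul
        | with_reducible apply UF.div | with_reducible apply UF.mod
        | with_reducible apply UF.iteC | with_reducible apply UF.ite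
        | with_reducible apply UF.min | with_reducible apply UF.max | with_reducible apply UF.sum
        | with_reducible apply UP.and | with_reducible apply UP.or | with_reducible apply UP.not
        | with_reducible apply UP.eq | with_reducible apply UP.ne | with_reducible apply UP.lt
        | with_reducible apply UP.le | with_reducible apply UP.bex | with_reducible apply UP.ball
        | with_reducible apply UP.imp | with_reducible apply UP.iff | with_reducible apply UP.sym
        | with_reducible apply UF.poly | with_reducible apply UF.pow
        | with_reducible exact UP.const _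
  obtain ⟨n, lit, hn, hlit, hS⟩ := (((r1.and r2).and r3).and r4).and r5
  refine ⟨n, lit, hn, hlit, fun x => ?_⟩
  have hWx : C.κ * (T x + x.length + p' x + 3) ≤ W x := le_rfl
  have hmono := (PB.ofPoly P).1
  have hTx : ∀ w : List Bool, w.length ≤ p' x → P.eval
      ((encodingProd (encodingList Γ) (encodingList Bool)).encode (x, w)).length ≤ T x := by
    intro w hw
    have e1 : ((encodingProd (encodingList Γ) (encodingList Bool)).encode (x, w)).length =
        x.length + w.length := by
      simp [encodingProd, encodingList]
    rw [e1]
    exact hmono (Nat.add_le_add_left hw _)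
  rw [hpR]
  constructor
  · rintro ⟨w, hw, hRw⟩
    have h1 := (hacc (x, w) (T x) (hTx w hw)).1 hRw
    have h2 : run C ini ks code x w (T x) (1 + ko) ∈ acc := h1
    have hcl := clauses_of_run C ini ks ko code acc (T x) (W x) (p' x) hini hcode hcode0 (by
      have : C.κ * 1 ≤ C.κ * (T x + x.length + p' x + 2) := Nat.mul_le_mul_left _ (by omega)
      have e : C.κ * (T x + x.length + p' x + 3) = C.κ * (T x + x.length + p' x + 2) + C.κ := by
        ring
      omega) x w hw h2
    refine ⟨_, (hS x _).1 ⟨⟨⟨⟨hcl.trans, hcl.init⟩, hcl.guess⟩, hcl.mono⟩, ?_⟩⟩
    intro t ht pos hpos a ha b hb hna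
    exact hcl.final t ht pos hpos a ha b hb (fun h => hna ⟨ha, h⟩)
  · rintro ⟨α, hα⟩
    obtain ⟨⟨⟨⟨g1, g2⟩, g3⟩, g4⟩, g5⟩ := (hS x α).2 hα
    obtain ⟨w, hw, hrun⟩ := run_of_clauses C ini ks ko code acc (T x) (W x) (p' x) hini hcode hks
      hko x α hWx ⟨g1, g2, g3, g4, fun t ht pos hpos a ha b hb hna =>
        g5 t ht pos hpos a ha b hb (fun h => hna h.2)⟩
    exact ⟨w, hw, (hacc (x, w) (T x) (hTx w hw)).2 hrun⟩

end Pool.Agent.PT
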